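import Mathlib

/-!
# Definitions for the theorem on real exponents (`MP_570bef_nt`, `RE`)

Kernels: `ind w` is the normalised indicator of `[0, w)`, `psi = ind ε - ind L`, `Psi` its primitive, `kap` its autocorrelation, `Phi` a primitive of `kap`.
Blocks: `U s σ b P` = all `u : Fin s → ℕ` with `P^(b σ^i) ≤ u i ≤ 16 P^(b σ^i)`; `S u c = ∑ (u i)^c`.
-/

namespace Pool.Agent.Lib.MP_570bef_ntRE

open Finset MeasureTheory

/-- clamp to `[0, 1]` -/
noncomputable def cl (z : ℝ) : ℝ := max 0 (min 1 z)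

/-- normalised indicator of `[0, w)` -/
noncomputable def ind (w y : ℝ) : ℝ := if 0 ≤ y ∧ y < w then 1 / w else 0

/-- difference of the normalised indicators of `[0, ε)` and `[0, L)` -/
noncomputable def psi (ε L y : ℝ) : ℝ := ind ε y - ind L y

/-- primitive of `psi ε L` with support in `[0, L]` -/
noncomputable def Psi (ε L y : ℝ) : ℝ := cl (y / ε) - cl (y / L)

/-- autocorrelation of `psi ε L` -/
noncomputable def kap (ε L t : ℝ) : ℝ :=
  (Psi ε L (t + ε) - Psi ε L t) / ε - (Psi ε L (t + L) - Psi ε L t) / L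

/-- primitive of `kap ε L` with support in `[-L, L]` -/
noncomputable def Phi (ε L t : ℝ) : ℝ :=
  (∫ y in t..(t + ε), Psi ε L y) / ε - (∫ y in t..(t + L), Psi ε L y) / L

/-- weight on the parameter interval -/
noncomputable def om (p q t : ℝ) : ℝ := (t - p) * (q - t)

/-- natural numbers in `[X, 16 X]` -/
noncomputable def blk (X : ℝ) : Finset ℕ := Finset.Icc ⌈X⌉₊ ⌊16 * X⌋₊

/-- tuples with `P^(b σ^i) ≤ u i ≤ 16 P^(b σ^i)` -/
noncomputable def U (s : ℕ) (σ b P : ℝ) : Finset (Fin s → ℕ) :=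
  Fintype.piFinset (fun i : Fin s => blk (P ^ (b * σ ^ (i : ℕ))))

/-- sum of the `c`-th powers -/
noncomputable def S {s : ℕ} (u : Fin s → ℕ) (c : ℝ) : ℝ := ∑ i, (u i : ℝ) ^ c

/-- energy of the family of reals `v x`, `x ∈ X` -/
noncomputable def En {ι : Type*} (ε L : ℝ) (X : Finset ι) (v : ι → ℝ) : ℝ :=
  ∑ x ∈ X, ∑ x' ∈ X, kap ε L (v x - v x')

/-- the value of a pair of tuples -/
noncomputable def val {s : ℕ} (x : (Fin s → ℕ) × (Fin s → ℕ)) (c lam : ℝ) : ℝ :=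
  S x.1 c + lam * S x.2 c

/-- the index set of pairs of tuples -/
noncomputable def XX (s : ℕ) (σ b P : ℝ) : Finset ((Fin s → ℕ) × (Fin s → ℕ)) :=
  U s σ 1 P ×ˢ U s σ b P

/-- conditions on the parameters -/
structure Par (s : ℕ) (p q σ b l η : ℝ) : Prop where
  hs : 1 ≤ s
  hp : 1 < p
  hpq : p ≤ q
  hq : q ≤ p + 1
  hσ : 0 < σ
  hσb : σ < b
  hb : b < 1
  gap : σ * p < p - 1
  hl1 : q - 1 < l
  hl2 : l < p
  hη : 0 < η
  hη1 : η ≤ 1
  e1 : q + η < (1 + b) * ((1 - σ ^ s) / (1 - σ))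
  e2 : q + (q - p) + l + η < (1 + b) * ((1 - σ ^ s) / (1 - σ) + (p - 1) * σ ^ s / σ)

/-- every large real number is within any `ε > 0` of a value of `∑ x_i^c + lam ∑ y_i^c`, `r + r` variables -/
def RealBasis (c lam : ℝ) (r : ℕ) : Prop :=
  ∀ ε > 0, ∃ T : ℝ, ∀ τ ≥ T, ∃ x y : Fin r → ℕ,
    |∑ i, (x i : ℝ) ^ c + lam * ∑ i, (y i : ℝ) ^ c - τ| < ε

/-- every large natural number is a sum of `m` numbers `⌊x^c⌋`, `x ≥ 0` -/
def FloorBasis (c : ℝ) (m : ℕ) : Prop :=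
  ∃ N : ℕ, ∀ n ≥ N, ∃ x : Fin m → ℕ, n = ∑ i, ⌊(x i : ℝ) ^ c⌋₊

end Pool.Agent.Lib.MP_570bef_ntRE
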