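import Mathlib
import Pool.Agent.Lib.MP_570bef_ntRE.Defs

/-!
# JOB Blk: elementary facts on the blocks (about 150 lines)

`mem_blk`: unfold.  `blk_card`: the number of naturals in `[X, 16 X]` is at least `15 X - 1 ≥ X` and at most `16 X` (`X ≥ 1`).
`mem_U`, `U_card_ge`, `U_card_le`: product over `i : Fin s`; `∏ P^(b σ^i) = P^(b ∑ σ^i)`, `∑_(i<s) σ^i = (1 - σ^s)/(1 - σ)`; `P^(b σ^i) ≥ 1` as `P ≥ 1`, `b, σ ≥ 0`.
`sum_U_succ`: the bijection `(n, w) ↦ Fin.cons n w` (exponents `b σ^(i+1) = (b σ) σ^i`).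
`S_cons`: `Fin.sum_univ_succ`.
`top_diff`: mean value theorem or convexity: for `1 ≤ X ≤ n ≤ m` (reals) and `c ≥ 1`: `m^c - n^c ≥ n^(c-1) (m - n) ≥ X^(c-1)(m - n)`; for instance `m^c = m^(c-1) m ≥ n^(c-1) m`.
`S_le`: every `(u i)^c ≤ (16 P^(b σ^i))^c ≤ (16 P^b)^c` (`σ^i ≤ 1`).
-/

namespace Pool.Agent.Lib.MP_570bef_ntRE

open Finset

theorem mem_blk {X : ℝ} (hX : 0 ≤ X) {n : ℕ} : n ∈ blk X ↔ X ≤ n ∧ (n : ℝ) ≤ 16 * X := by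
  unfold blk
  rw [Finset.mem_Icc, Nat.ceil_le, Nat.le_floor_iff (by positivity)]

theorem blk_card_ge {X : ℝ} (hX : 1 ≤ X) : X ≤ (blk X).card := by
  unfold blk
  rw [Nat.card_Icc]
  have h1 := Nat.ceil_lt_add_one (show (0 : ℝ) ≤ X by linarith)
  have h2 := Nat.sub_one_lt_floor (16 * X)
  have h3 : ⌊16 * X⌋₊ + 1 ≤ (⌊16 * X⌋₊ + 1 - ⌈X⌉₊) + ⌈X⌉₊ := by omega
  have h4 : ((⌊16 * X⌋₊ : ℕ) : ℝ) + 1 ≤ ((⌊16 * X⌋₊ + 1 - ⌈X⌉₊ : ℕ) : ℝ) + (⌈X⌉₊ : ℕ) := by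
    exact_mod_cast h3
  linarith

theorem blk_card_le {X : ℝ} (hX : 1 ≤ X) : ((blk X).card : ℝ) ≤ 16 * X := by
  unfold blk
  rw [Nat.card_Icc]
  have h1 : 1 ≤ ⌈X⌉₊ := Nat.one_le_ceil_iff.mpr (by linarith)
  have h2 : ⌊16 * X⌋₊ + 1 - ⌈X⌉₊ ≤ ⌊16 * X⌋₊ := by omega
  have h3 : ((⌊16 * X⌋₊ + 1 - ⌈X⌉₊ : ℕ) : ℝ) ≤ (⌊16 * X⌋₊ : ℕ) := by exact_mod_cast h2
  exact h3.trans (Nat.floor_le (by linarith))

theorem mem_U {s : ℕ} {σ b P : ℝ} (hP : 0 ≤ P) {u : Fin s → ℕ} :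
    u ∈ U s σ b P ↔ ∀ i : Fin s, P ^ (b * σ ^ (i : ℕ)) ≤ u i ∧ (u i : ℝ) ≤ 16 * P ^ (b * σ ^ (i : ℕ)) := by
  unfold U
  rw [Fintype.mem_piFinset]
  exact forall_congr' fun i => mem_blk (Real.rpow_nonneg hP _)

private theorem Blk_exp (s : ℕ) {σ b P : ℝ} (hσ1 : σ < 1) (hP : 1 ≤ P) :
    ∏ i : Fin s, P ^ (b * σ ^ (i : ℕ)) = P ^ (b * ((1 - σ ^ s) / (1 - σ))) := by
  have h0 : 0 < P := lt_of_lt_of_le one_pos hP
  rw [← Real.rpow_sum_of_pos h0, ← Finset.mul_sum, Fin.sum_univ_eq_sum_range (fun i => σ ^ i) s,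
    geom_sum_eq hσ1.ne s]
  have h1 : (σ ^ s - 1) / (σ - 1) = (1 - σ ^ s) / (1 - σ) := by
    rw [← neg_div_neg_eq, neg_sub, neg_sub]
  rw [h1]

private theorem Blk_one {σ b P : ℝ} (hσ : 0 < σ) (hb : 0 ≤ b) (hP : 1 ≤ P) (i : ℕ) :
    1 ≤ P ^ (b * σ ^ i) :=
  Real.one_le_rpow hP (mul_nonneg hb (pow_nonneg hσ.le i))

private theorem Blk_card (s : ℕ) (σ b P : ℝ) :
    ((U s σ b P).card : ℝ) = ∏ i : Fin s, ((blk (P ^ (b * σ ^ (i : ℕ)))).card : ℝ) := by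
  unfold U
  rw [Fintype.card_piFinset, Nat.cast_prod]

theorem U_card_ge (s : ℕ) {σ b P : ℝ} (hσ : 0 < σ) (hσ1 : σ < 1) (hb : 0 ≤ b) (hP : 1 ≤ P) :
    P ^ (b * ((1 - σ ^ s) / (1 - σ))) ≤ (U s σ b P).card := by
  rw [← Blk_exp s hσ1 hP, Blk_card]
  refine Finset.prod_le_prod (fun i _ => ?_) fun i _ => ?_
  · exact zero_le_one.trans (Blk_one hσ hb hP i)
  · exact blk_card_ge (Blk_one hσ hb hP i)

theorem U_card_le (s : ℕ) {σ b P : ℝ} (hσ : 0 < σ) (hσ1 : σ < 1) (hb : 0 ≤ b) (hP : 1 ≤ P) :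
    ((U s σ b P).card : ℝ) ≤ 16 ^ s * P ^ (b * ((1 - σ ^ s) / (1 - σ))) := by
  have h1 : (16 : ℝ) ^ s * P ^ (b * ((1 - σ ^ s) / (1 - σ))) =
      ∏ i : Fin s, (16 * P ^ (b * σ ^ (i : ℕ))) := by
    rw [Finset.prod_mul_distrib, Finset.prod_const, Finset.card_univ, Fintype.card_fin,
      Blk_exp s hσ1 hP]
  rw [h1, Blk_card]
  refine Finset.prod_le_prod (fun i _ => Nat.cast_nonneg _) fun i _ => ?_
  exact blk_card_le (Blk_one hσ hb hP i)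

private theorem Blk_mem {s : ℕ} {σ b P : ℝ} {n : ℕ} {w : Fin s → ℕ} :
    (Fin.cons n w : Fin (s + 1) → ℕ) ∈ U (s + 1) σ b P ↔ n ∈ blk (P ^ b) ∧ w ∈ U s σ (b * σ) P := by
  unfold U
  rw [Fintype.mem_piFinset, Fintype.mem_piFinset, Fin.forall_fin_succ]
  refine and_congr ?_ (forall_congr' fun i => ?_)
  · rw [Fin.cons_zero, Fin.val_zero, pow_zero, mul_one]
  · rw [Fin.cons_succ, Fin.val_succ, pow_succ', mul_assoc]

theorem sum_U_succ (s : ℕ) (σ b P : ℝ) (F : (Fin (s + 1) → ℕ) → ℝ) :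
    ∑ u ∈ U (s + 1) σ b P, F u =
      ∑ n ∈ blk (P ^ b), ∑ w ∈ U s σ (b * σ) P, F (Fin.cons n w : Fin (s + 1) → ℕ) := by
  have h0 : ∀ u : Fin (s + 1) → ℕ, (Fin.cons (u 0) (Fin.tail u) : Fin (s + 1) → ℕ) = u :=
    fun u => Fin.cons_self_tail u
  rw [← Finset.sum_product' (blk (P ^ b)) (U s σ (b * σ) P)
    (fun n w => F (Fin.cons n w : Fin (s + 1) → ℕ))]
  refine Finset.sum_bij' (fun u _ => (u 0, (Fin.tail u : Fin s → ℕ)))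
    (fun v _ => (Fin.cons v.1 v.2 : Fin (s + 1) → ℕ)) ?_ ?_ ?_ ?_ ?_
  · intro u hu
    rw [← h0 u] at hu
    exact Finset.mem_product.mpr (Blk_mem.mp hu)
  · intro v hv
    exact Blk_mem.mpr (Finset.mem_product.mp hv)
  · intro u _
    exact h0 u
  · intro v _
    rfl
  · intro u _
    exact (congrArg F (h0 u)).symm

theorem mem_U_cons {s : ℕ} {σ b P : ℝ} {n : ℕ} {w : Fin s → ℕ} :
    (Fin.cons n w : Fin (s + 1) → ℕ) ∈ U (s + 1) σ b P ↔ n ∈ blk (P ^ b) ∧ w ∈ U s σ (b * σ) P := by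
  exact Blk_mem

theorem S_cons {s : ℕ} (n : ℕ) (w : Fin s → ℕ) (c : ℝ) :
    S (Fin.cons n w : Fin (s + 1) → ℕ) c = (n : ℝ) ^ c + S w c := by
  unfold S
  rw [Fin.sum_univ_succ]
  rfl

private theorem Blk_top {X c : ℝ} (hX : 1 ≤ X) (hc : 1 ≤ c) {n m : ℝ} (hn : X ≤ n) (hnm : n ≤ m) :
    X ^ (c - 1) * (m - n) ≤ m ^ c - n ^ c := by
  have hn0 : 0 < n := by linarith
  have hm0 : 0 < m := by linarith
  have h1 : m ^ c = m ^ (c - 1) * m := by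
    rw [← Real.rpow_add_one hm0.ne', sub_add_cancel]
  have h2 : n ^ c = n ^ (c - 1) * n := by
    rw [← Real.rpow_add_one hn0.ne', sub_add_cancel]
  have h3 : X ^ (c - 1) ≤ n ^ (c - 1) :=
    Real.rpow_le_rpow (by linarith) hn (by linarith)
  have h4 : n ^ (c - 1) ≤ m ^ (c - 1) :=
    Real.rpow_le_rpow hn0.le hnm (by linarith)
  rw [h1, h2]
  have h5 : X ^ (c - 1) * (m - n) ≤ n ^ (c - 1) * (m - n) :=
    mul_le_mul_of_nonneg_right h3 (by linarith)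
  have h6 : n ^ (c - 1) * m ≤ m ^ (c - 1) * m := mul_le_mul_of_nonneg_right h4 hm0.le
  nlinarith [h5, h6]

theorem top_diff {X c : ℝ} (hX : 1 ≤ X) (hc : 1 ≤ c) {n m : ℕ} (hn : X ≤ n) (hm : X ≤ m) :
    X ^ (c - 1) * |(n : ℝ) - m| ≤ |(n : ℝ) ^ c - (m : ℝ) ^ c| := by
  rcases le_total (n : ℝ) (m : ℝ) with h | h
  · have h1 := Blk_top hX hc hn h
    rw [abs_sub_comm, abs_of_nonneg (sub_nonneg.mpr h), abs_sub_comm]
    exact h1.trans (le_abs_self _)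
  · have h1 := Blk_top hX hc hm h
    rw [abs_of_nonneg (sub_nonneg.mpr h)]
    exact h1.trans (le_abs_self _)

theorem S_nonneg {s : ℕ} (u : Fin s → ℕ) (c : ℝ) : 0 ≤ S u c := by
  exact Finset.sum_nonneg fun i _ => Real.rpow_nonneg (Nat.cast_nonneg _) _

theorem S_le {s : ℕ} {σ b P c : ℝ} (hσ : 0 < σ) (hσ1 : σ < 1) (hb : 0 ≤ b) (hP : 1 ≤ P)
    (hc : 0 ≤ c) {u : Fin s → ℕ} (hu : u ∈ U s σ b P) : S u c ≤ s * (16 * P ^ b) ^ c := by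
  have h0 : 0 < P := lt_of_lt_of_le one_pos hP
  have h1 : S u c ≤ ∑ _i : Fin s, (16 * P ^ b) ^ c := by
    refine Finset.sum_le_sum fun i _ => ?_
    have h2 := ((mem_U h0.le).mp hu i).2
    refine Real.rpow_le_rpow (Nat.cast_nonneg _) (h2.trans ?_) hc
    refine mul_le_mul_of_nonneg_left (Real.rpow_le_rpow_of_exponent_le hP ?_) (by norm_num)
    have h3 : σ ^ (i : ℕ) ≤ 1 := pow_le_one₀ hσ.le hσ1.le
    calc b * σ ^ (i : ℕ) ≤ b * 1 := mul_le_mul_of_nonneg_left h3 hb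
      _ = b := mul_one b
  refine h1.trans (le_of_eq ?_)
  rw [Finset.sum_const, Finset.card_univ, Fintype.card_fin, nsmul_eq_mul]

end Pool.Agent.Lib.MP_570bef_ntRE
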