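import Mathlib
import Pool.Agent.Lib.MP_570bef_ntRE.Defs

/-!
# The threshold and the one-parameter families
-/

namespace Pool.Agent.Lib.MP_570bef_ntRE

open Finset

/-- the threshold for the energy -/
noncomputable def thr (s : ℕ) (σ b q P : ℝ) : ℝ :=
  ((XX s σ b P).card : ℝ) ^ 2 / (8 * q ^ 2 * 16 ^ (2 * q) * P ^ q)

/-- normalised energy at scale `P` for the parameters `c`, `lam` -/
noncomputable def GG (s : ℕ) (σ b q l ε P c lam : ℝ) : ℝ :=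
  En ε (P ^ l) (XX s σ b P) (fun x => val x c lam) / thr s σ b q P

/-- one-parameter family `t ↦ (c t, lam t)` on `[t1, t2]` with the pair bounds, at all scales `P ≥ P1` -/
structure Fam (s : ℕ) (p q σ b l t1 t2 Λ ε K P1 : ℝ) (c lam : ℝ → ℝ) : Prop where
  hK : 0 ≤ K
  hc : ∀ t ∈ Set.Icc t1 t2, p ≤ c t ∧ c t ≤ q
  hlam : ∀ t ∈ Set.Icc t1 t2, 0 < lam t ∧ lam t ≤ Λ
  lip : ∀ P ≥ P1, ∀ x ∈ XX s σ b P, ∀ t ∈ Set.Icc t1 t2, ∀ t' ∈ Set.Icc t1 t2,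
    |val x (c t) (lam t) - val x (c t') (lam t')| ≤ P ^ (q + 2) * |t - t'|
  one : ∀ P ≥ P1, ∀ u ∈ U s σ 1 P, ∀ u' ∈ U s σ 1 P, ∀ v ∈ U s σ b P, u ≠ u' →
    |∫ t in t1..t2, om t1 t2 t *
      kap ε (P ^ l) (val (u, v) (c t) (lam t) - val (u', v) (c t) (lam t))| ≤
      K * (1 / |S u p - S u' p|)
  two : ∀ P ≥ P1, ∀ u ∈ U s σ 1 P, ∀ v ∈ U s σ b P, ∀ v' ∈ U s σ b P, v ≠ v' →
    |∫ t in t1..t2, om t1 t2 t *
      kap ε (P ^ l) (val (u, v) (c t) (lam t) - val (u, v') (c t) (lam t))| ≤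
      K * (1 / |S v p - S v' p|)
  three : ∀ P ≥ P1, ∀ u ∈ U s σ 1 P, ∀ u' ∈ U s σ 1 P, ∀ v ∈ U s σ b P, ∀ v' ∈ U s σ b P,
    u ≠ u' → v ≠ v' →
    |∫ t in t1..t2, om t1 t2 t *
      kap ε (P ^ l) (val (u, v) (c t) (lam t) - val (u', v') (c t) (lam t))| ≤
      K * P ^ (q - p) * P ^ l * (1 / |S u p - S u' p| * (1 / |S v p - S v' p|))

end Pool.Agent.Lib.MP_570bef_ntRE
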