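import Mathlib
import Pool.Agent.Lib.MP_570bef_ntRE.Defs

/-!
# JOB L2: the energy is the square integral (about 130 lines)

`psi ε L` is a bounded measurable function with bounded support, so all products are integrable.
`psi_corr`: `∫ (ind w (y - a)) g y dy = (1/w) ∫_a^(a+w) g` for `w > 0`, and `∫_a^(a+w) psi ε L (y - b) dy = Psi ε L (a + w - b) - Psi ε L (a - b)`: indeed `∫_x^z ind w = cl (z/w) - cl (x/w)` for all `x ≤ z` (`0 < w`; the integral of `1/w` over `[x, z] ∩ [0, w)`; for instance the measure of an intersection of two intervals).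
`energy`: expand the square of the sum.
-/

namespace Pool.Agent.Lib.MP_570bef_ntRE

open Finset MeasureTheory

private theorem L2_ind_eq {w : ℝ} (a y : ℝ) :
    ind w (y - a) = (Set.Ico a (a + w)).indicator (fun _ => 1 / w) y := by
  unfold ind
  by_cases h : 0 ≤ y - a ∧ y - a < w
  · rw [if_pos h, Set.indicator_of_mem]
    exact ⟨by linarith [h.1], by linarith [h.2]⟩
  · rw [if_neg h, Set.indicator_of_notMem]
    rintro ⟨h1, h2⟩
    exact h ⟨by linarith, by linarith⟩

private theorem L2_int_mul {w : ℝ} (hw : 0 < w) (a : ℝ) {g : ℝ → ℝ} (hg : Integrable g) :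
    Integrable (fun y => ind w (y - a) * g y) := by
  have h1 : (fun y => ind w (y - a) * g y) =
      (Set.Ico a (a + w)).indicator (fun y => (1 / w) * g y) := by
    funext y
    rw [L2_ind_eq]
    by_cases h : y ∈ Set.Ico a (a + w)
    · rw [Set.indicator_of_mem h, Set.indicator_of_mem h]
    · rw [Set.indicator_of_notMem h, Set.indicator_of_notMem h, zero_mul]
  rw [h1]
  exact (hg.const_mul _).indicator measurableSet_Ico

private theorem L2_int_ind {w : ℝ} (hw : 0 < w) (a : ℝ) :
    Integrable (fun y => ind w (y - a)) := by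
  have h1 : (fun y => ind w (y - a)) = (Set.Ico a (a + w)).indicator (fun _ => 1 / w) := by
    funext y
    exact L2_ind_eq a y
  rw [h1, integrable_indicator_iff measurableSet_Ico]
  exact integrableOn_const (by simp)

private theorem L2_int_psi {ε L : ℝ} (hε : 0 < ε) (hL : 0 < L) (a : ℝ) :
    Integrable (fun y => psi ε L (y - a)) :=
  (L2_int_ind hε a).sub (L2_int_ind hL a)

private theorem L2_int_psi_mul {ε L : ℝ} (hε : 0 < ε) (hL : 0 < L) (a b : ℝ) :
    Integrable (fun y => psi ε L (y - a) * psi ε L (y - b)) := by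
  have h1 : (fun y => psi ε L (y - a) * psi ε L (y - b)) =
      fun y => ind ε (y - a) * psi ε L (y - b) - ind L (y - a) * psi ε L (y - b) := by
    funext y
    rw [psi]
    ring
  rw [h1]
  exact (L2_int_mul hε a (L2_int_psi hε hL b)).sub (L2_int_mul hL a (L2_int_psi hε hL b))

private theorem L2_ind_mul {w : ℝ} (hw : 0 < w) (a : ℝ) {g : ℝ → ℝ} :
    ∫ y, ind w (y - a) * g y = (1 / w) * ∫ y in a..(a + w), g y := by
  have h1 : (fun y => ind w (y - a) * g y) =
      (Set.Ico a (a + w)).indicator (fun y => (1 / w) * g y) := by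
    funext y
    rw [L2_ind_eq]
    by_cases h : y ∈ Set.Ico a (a + w)
    · rw [Set.indicator_of_mem h, Set.indicator_of_mem h]
    · rw [Set.indicator_of_notMem h, Set.indicator_of_notMem h, zero_mul]
  rw [h1, integral_indicator measurableSet_Ico, integral_Ico_eq_integral_Ioc,
    intervalIntegral.integral_of_le (by linarith), integral_const_mul]

private theorem L2_ind_int {w : ℝ} (hw : 0 < w) {x z : ℝ} (hxz : x ≤ z) :
    ∫ y in x..z, ind w y = cl (z / w) - cl (x / w) := by
  have h1 : ∀ y, ind w y = (Set.Ico 0 w).indicator (fun _ => 1 / w) y := by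
    intro y
    have h := L2_ind_eq (w := w) 0 y
    rw [sub_zero, zero_add] at h
    exact h
  have h2 : (Set.Ioc x z ∩ Set.Ico 0 w : Set ℝ) =ᵐ[volume] (Set.Ioc x z ∩ Set.Ioc 0 w : Set ℝ) :=
    Filter.EventuallyEq.inter (Filter.EventuallyEq.refl _ _) Ico_ae_eq_Ioc
  rw [intervalIntegral.integral_of_le hxz]
  simp_rw [h1]
  rw [setIntegral_indicator measurableSet_Ico, setIntegral_congr_set h2, Set.Ioc_inter_Ioc,
    setIntegral_const, Real.volume_real_Ioc, smul_eq_mul]
  have h3 : ∀ t : ℝ, cl (t / w) = max 0 (min w t) / w := by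
    intro t
    unfold cl
    rw [eq_div_iff hw.ne', max_mul_of_nonneg _ _ hw.le, min_mul_of_nonneg _ _ hw.le, zero_mul,
      one_mul, div_mul_cancel₀ _ hw.ne']
  rw [h3, h3, ← sub_div, mul_one_div]
  congr 1
  rcases le_total z w with h4 | h4 <;> rcases le_total x w with h5 | h5 <;>
    rcases le_total 0 x with h6 | h6 <;> rcases le_total 0 z with h7 | h7 <;>
    simp only [max_def, min_def] <;> split_ifs <;> linarith

private theorem L2_psi_int {ε L : ℝ} (hε : 0 < ε) (hL : 0 < L) (a b : ℝ) {w : ℝ} (hw : 0 < w) :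
    ∫ y in a..(a + w), psi ε L (y - b) = Psi ε L (a + w - b) - Psi ε L (a - b) := by
  rw [intervalIntegral.integral_comp_sub_right (fun y => psi ε L y) b]
  have hi : ∀ w', 0 < w' → IntervalIntegrable (fun y => ind w' y) volume (a - b) (a + w - b) := by
    intro w' hw'
    have h := L2_int_ind hw' 0
    simp only [sub_zero] at h
    exact h.intervalIntegrable
  unfold psi
  rw [intervalIntegral.integral_sub (hi ε hε) (hi L hL), L2_ind_int hε (by linarith),
    L2_ind_int hL (by linarith)]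
  unfold Psi
  ring

theorem psi_corr {ε L : ℝ} (hε : 0 < ε) (hL : ε ≤ L) (a b : ℝ) :
    ∫ y, psi ε L (y - a) * psi ε L (y - b) = kap ε L (a - b) := by
  have hL0 : 0 < L := hε.trans_le hL
  have hg : Integrable (fun y : ℝ => psi ε L (y - b)) := L2_int_psi hε hL0 b
  have h1 : ∀ y, psi ε L (y - a) * psi ε L (y - b) =
      ind ε (y - a) * psi ε L (y - b) - ind L (y - a) * psi ε L (y - b) := by
    intro y
    rw [psi]
    ring
  have h2 : ∀ w, 0 < w → ∫ y, ind w (y - a) * psi ε L (y - b) =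
      (Psi ε L (a - b + w) - Psi ε L (a - b)) / w := by
    intro w hw
    rw [L2_ind_mul hw a, L2_psi_int hε hL0 a b hw]
    rw [show a + w - b = a - b + w by ring]
    ring
  simp_rw [h1]
  rw [integral_sub (L2_int_mul hε a hg) (L2_int_mul hL0 a hg), h2 ε hε, h2 L hL0, kap]

theorem psi_sq_int {ε L : ℝ} (hε : 0 < ε) (hL : ε ≤ L) {ι : Type*} (X : Finset ι) (v : ι → ℝ) :
    Integrable (fun y : ℝ => (∑ x ∈ X, psi ε L (y - v x)) ^ 2) := by
  have hL0 : 0 < L := hε.trans_le hL
  have h1 : (fun y : ℝ => (∑ x ∈ X, psi ε L (y - v x)) ^ 2) =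
      fun y => ∑ x ∈ X, ∑ x' ∈ X, psi ε L (y - v x) * psi ε L (y - v x') := by
    funext y
    rw [sq, sum_mul_sum]
  rw [h1]
  exact integrable_finsetSum _ fun x _ => integrable_finsetSum _ fun x' _ =>
    L2_int_psi_mul hε hL0 _ _

theorem energy {ε L : ℝ} (hε : 0 < ε) (hL : ε ≤ L) {ι : Type*} (X : Finset ι) (v : ι → ℝ) :
    ∫ y : ℝ, (∑ x ∈ X, psi ε L (y - v x)) ^ 2 = En ε L X v := by
  have hL0 : 0 < L := hε.trans_le hL
  have h1 : (fun y : ℝ => (∑ x ∈ X, psi ε L (y - v x)) ^ 2) =
      fun y => ∑ x ∈ X, ∑ x' ∈ X, psi ε L (y - v x) * psi ε L (y - v x') := by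
    funext y
    rw [sq, sum_mul_sum]
  rw [h1, En, integral_finsetSum _ fun x _ => integrable_finsetSum _ fun x' _ =>
    L2_int_psi_mul hε hL0 _ _]
  refine sum_congr rfl fun x _ => ?_
  rw [integral_finsetSum _ fun x' _ => L2_int_psi_mul hε hL0 _ _]
  exact sum_congr rfl fun x' _ => psi_corr hε hL _ _

theorem En_nonneg {ε L : ℝ} (hε : 0 < ε) (hL : ε ≤ L) {ι : Type*} (X : Finset ι) (v : ι → ℝ) :
    0 ≤ En ε L X v := by
  rw [← energy hε hL]
  exact integral_nonneg fun y => sq_nonneg _

end Pool.Agent.Lib.MP_570bef_ntRE
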