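import Mathlib
import Pool.Agent.Lib.MP_570bef_ntRE.Defs

/-!
# JOB Kap: elementary facts on the kernels (about 150 lines)

All elementary: `cl` is `1`-Lipschitz with values in `[0, 1]`, `cl z = 0` for `z ≤ 0`, `cl z = 1` for `z ≥ 1`.  So (`0 < ε ≤ L`) `0 ≤ Psi ≤ 1` (`y / L ≤ y / ε` for `y ≥ 0`), `Psi y = 0` for `y ≤ 0` and for `y ≥ L`, `Psi` is `2/ε`-Lipschitz.
`kap`: `|kap t| ≤ 1/ε + 1/L ≤ 2/ε`; for `L ≤ |t|` all four values of `Psi` vanish (`t ≥ L`: clear; `t ≤ -L`: `t + ε ≤ t + L ≤ 0`).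
For `ε ≤ t ≤ L`: `Psi t = 1 - t/L`, `Psi (t + L) = 0`, `0 ≤ Psi t - Psi (t + ε) ≤ ε/L`, so `|kap t| ≤ 1/L`; for `-L ≤ t ≤ -ε`: `Psi t = Psi (t + ε) = 0`, `|kap t| = Psi (t + L)/L ≤ 1/L`.
`kap_inv`: if `|t| ≤ ε` use `2/ε`, otherwise `2/L` or `0`.
`Phi`: derivative by the fundamental theorem of calculus (`Psi` is continuous); it is a difference of two averages of `Psi`, each in `[0, 1]`; for `L ≤ |t|` both integrals vanish.
-/

namespace Pool.Agent.Lib.MP_570bef_ntRE

theorem cl_nonneg (z : ℝ) : 0 ≤ cl z := le_max_left _ _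

theorem cl_le_one (z : ℝ) : cl z ≤ 1 := max_le zero_le_one (min_le_left _ _)

private theorem Kap_mono {x y : ℝ} (h : x ≤ y) : cl x ≤ cl y :=
  max_le_max le_rfl (min_le_min le_rfl h)

private theorem Kap_lip1 {x y : ℝ} (h : x ≤ y) : cl y - cl x ≤ y - x := by
  unfold cl
  rcases le_total y 0 with hy | hy
  · have hx : x ≤ 0 := h.trans hy
    rw [max_eq_left ((min_le_right _ _).trans hy), max_eq_left ((min_le_right _ _).trans hx)]
    linarith
  · rcases le_total x 0 with hx | hx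
    · rw [max_eq_left ((min_le_right _ _).trans hx)]
      have : max 0 (min 1 y) ≤ y := max_le hy (min_le_right _ _)
      linarith
    · rcases le_total 1 x with hx1 | hx1
      · rw [min_eq_left hx1, min_eq_left (hx1.trans h)]
        linarith
      · rw [min_eq_right hx1, max_eq_right hx]
        have : max 0 (min 1 y) ≤ y := max_le hy (min_le_right _ _)
        linarith

theorem cl_lip (x y : ℝ) : |cl x - cl y| ≤ |x - y| := by
  rcases le_total x y with h | h
  · have h1 := Kap_mono h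
    have h2 := Kap_lip1 h
    rw [abs_of_nonpos (by linarith), abs_of_nonpos (by linarith)]
    linarith
  · have h1 := Kap_mono h
    have h2 := Kap_lip1 h
    rw [abs_of_nonneg (by linarith), abs_of_nonneg (by linarith)]
    linarith

theorem cl_cont : Continuous cl := by
  unfold cl
  fun_prop

theorem cl_zero {z : ℝ} (hz : z ≤ 0) : cl z = 0 := by
  unfold cl
  exact max_eq_left ((min_le_right _ _).trans hz)

theorem cl_one {z : ℝ} (hz : 1 ≤ z) : cl z = 1 := by
  unfold cl
  rw [min_eq_left hz]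
  exact max_eq_right zero_le_one

theorem Psi_zero_left {ε L y : ℝ} (hε : 0 < ε) (hL : ε ≤ L) (hy : y ≤ 0) : Psi ε L y = 0 := by
  have hL0 : 0 < L := lt_of_lt_of_le hε hL
  unfold Psi
  rw [cl_zero (div_nonpos_of_nonpos_of_nonneg hy hε.le), cl_zero (div_nonpos_of_nonpos_of_nonneg hy hL0.le),
    sub_self]

theorem Psi_nonneg {ε L : ℝ} (hε : 0 < ε) (hL : ε ≤ L) (y : ℝ) : 0 ≤ Psi ε L y := by
  have hL0 : 0 < L := lt_of_lt_of_le hε hL
  rcases le_total y 0 with hy | hy
  · rw [Psi_zero_left hε hL hy]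
  · unfold Psi
    have h : y / L ≤ y / ε := div_le_div_of_nonneg_left hy hε hL
    have := Kap_mono h
    linarith

theorem Psi_le_one {ε L : ℝ} (hε : 0 < ε) (hL : ε ≤ L) (y : ℝ) : Psi ε L y ≤ 1 := by
  unfold Psi
  have h1 := cl_le_one (y / ε)
  have h2 := cl_nonneg (y / L)
  linarith

theorem Psi_zero_right {ε L y : ℝ} (hε : 0 < ε) (hL : ε ≤ L) (hy : L ≤ y) : Psi ε L y = 0 := by
  have hL0 : 0 < L := lt_of_lt_of_le hε hL
  unfold Psi
  rw [cl_one ((one_le_div hε).2 (hL.trans hy)), cl_one ((one_le_div hL0).2 hy), sub_self]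

theorem Psi_cont (ε L : ℝ) : Continuous (Psi ε L) := by
  unfold Psi
  exact (cl_cont.comp (continuous_id.div_const ε)).sub (cl_cont.comp (continuous_id.div_const L))

theorem Psi_lip {ε L : ℝ} (hε : 0 < ε) (hL : ε ≤ L) (x y : ℝ) :
    |Psi ε L x - Psi ε L y| ≤ 2 / ε * |x - y| := by
  have hL0 : 0 < L := lt_of_lt_of_le hε hL
  unfold Psi
  have h1 := cl_lip (x / ε) (y / ε)
  have h2 := cl_lip (x / L) (y / L)
  have e1 : |x / ε - y / ε| = |x - y| / ε := by rw [← sub_div, abs_div, abs_of_pos hε]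
  have e2 : |x / L - y / L| = |x - y| / L := by rw [← sub_div, abs_div, abs_of_pos hL0]
  rw [e1] at h1
  rw [e2] at h2
  have h3 : |x - y| / L ≤ |x - y| / ε := div_le_div_of_nonneg_left (abs_nonneg _) hε hL
  have e3 : cl (x / ε) - cl (x / L) - (cl (y / ε) - cl (y / L)) =
      (cl (x / ε) - cl (y / ε)) - (cl (x / L) - cl (y / L)) := by ring
  rw [e3]
  have h4 := abs_sub (cl (x / ε) - cl (y / ε)) (cl (x / L) - cl (y / L))
  have e4 : 2 / ε * |x - y| = |x - y| / ε + |x - y| / ε := by ring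
  rw [e4]
  linarith

theorem kap_cont (ε L : ℝ) : Continuous (kap ε L) := by
  unfold kap
  have h := Psi_cont ε L
  fun_prop

theorem kap_lip {ε L : ℝ} (hε : 0 < ε) (hL : ε ≤ L) (x y : ℝ) :
    |kap ε L x - kap ε L y| ≤ 8 / ε ^ 2 * |x - y| := by
  have hL0 : 0 < L := lt_of_lt_of_le hε hL
  unfold kap
  have a1 := abs_le.1 (Psi_lip hε hL (x + ε) (y + ε))
  have a2 := abs_le.1 (Psi_lip hε hL x y)
  have a3 := abs_le.1 (Psi_lip hε hL (x + L) (y + L))
  have e1 : x + ε - (y + ε) = x - y := by ring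
  have e3 : x + L - (y + L) = x - y := by ring
  rw [e1] at a1
  rw [e3] at a3
  obtain ⟨D, hD⟩ : ∃ D, D = 2 / ε * |x - y| := ⟨_, rfl⟩
  have hD0 : 0 ≤ D := by rw [hD]; positivity
  rw [← hD] at a1 a2 a3
  have b1 : |(Psi ε L (x + ε) - Psi ε L x) / ε - (Psi ε L (y + ε) - Psi ε L y) / ε| ≤ 2 * D / ε := by
    rw [← sub_div, abs_div, abs_of_pos hε]
    refine div_le_div_of_nonneg_right ?_ hε.le
    rw [abs_le]
    constructor <;> linarith [a1.1, a1.2, a2.1, a2.2]
  have b2 : |(Psi ε L (x + L) - Psi ε L x) / L - (Psi ε L (y + L) - Psi ε L y) / L| ≤ 2 * D / ε := by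
    rw [← sub_div, abs_div, abs_of_pos hL0]
    refine le_trans (div_le_div_of_nonneg_right (c := L) (b := 2 * D) ?_ hL0.le)
      (div_le_div_of_nonneg_left (by linarith) hε hL)
    rw [abs_le]
    constructor <;> linarith [a3.1, a3.2, a2.1, a2.2]
  have e4 : 8 / ε ^ 2 * |x - y| = 2 * D / ε + 2 * D / ε := by
    rw [hD]
    field_simp
    ring
  rw [e4]
  have b3 := abs_le.1 b1
  have b4 := abs_le.1 b2
  rw [abs_le]
  constructor <;> linarith [b3.1, b3.2, b4.1, b4.2]

theorem kap_zero {ε L t : ℝ} (hε : 0 < ε) (hL : ε ≤ L) (ht : L ≤ |t|) : kap ε L t = 0 := by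
  unfold kap
  rcases le_total 0 t with h | h
  · rw [abs_of_nonneg h] at ht
    rw [Psi_zero_right hε hL (by linarith : L ≤ t + ε), Psi_zero_right hε hL ht,
      Psi_zero_right hε hL (by linarith : L ≤ t + L)]
    simp
  · rw [abs_of_nonpos h] at ht
    rw [Psi_zero_left hε hL (by linarith : t + ε ≤ 0), Psi_zero_left hε hL h,
      Psi_zero_left hε hL (by linarith : t + L ≤ 0)]
    simp

theorem kap_le {ε L : ℝ} (hε : 0 < ε) (hL : ε ≤ L) (t : ℝ) : |kap ε L t| ≤ 2 / ε := by
  have hL0 : 0 < L := lt_of_lt_of_le hε hL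
  unfold kap
  have p1 := Psi_nonneg hε hL (t + ε)
  have p2 := Psi_le_one hε hL (t + ε)
  have p3 := Psi_nonneg hε hL t
  have p4 := Psi_le_one hε hL t
  have p5 := Psi_nonneg hε hL (t + L)
  have p6 := Psi_le_one hε hL (t + L)
  have b1 : |(Psi ε L (t + ε) - Psi ε L t) / ε| ≤ 1 / ε := by
    rw [abs_div, abs_of_pos hε]
    refine div_le_div_of_nonneg_right ?_ hε.le
    rw [abs_le]
    constructor <;> linarith
  have b2 : |(Psi ε L (t + L) - Psi ε L t) / L| ≤ 1 / ε := by
    rw [abs_div, abs_of_pos hL0]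
    refine le_trans (div_le_div_of_nonneg_right (c := L) (b := 1) ?_ hL0.le)
      (div_le_div_of_nonneg_left zero_le_one hε hL)
    rw [abs_le]
    constructor <;> linarith
  have h := abs_sub ((Psi ε L (t + ε) - Psi ε L t) / ε) ((Psi ε L (t + L) - Psi ε L t) / L)
  have e : 2 / ε = 1 / ε + 1 / ε := by ring
  rw [e]
  linarith

theorem kap_le_far {ε L t : ℝ} (hε : 0 < ε) (hL : ε ≤ L) (ht : ε ≤ |t|) :
    |kap ε L t| ≤ 2 / L := by
  have hL0 : 0 < L := lt_of_lt_of_le hε hL
  rcases le_total L |t| with h1 | h1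
  · rw [kap_zero hε hL h1, abs_zero]
    positivity
  have e2 : (2:ℝ) / L = 1 / L + 1 / L := by ring
  rcases le_total 0 t with h | h
  · rw [abs_of_nonneg h] at ht h1
    have c1 : Psi ε L t = 1 - t / L := by
      unfold Psi
      rw [cl_one ((one_le_div hε).2 ht)]
      congr 1
      unfold cl
      rw [min_eq_right ((div_le_one hL0).2 h1), max_eq_right (by positivity)]
    have c2 : Psi ε L (t + L) = 0 := Psi_zero_right hε hL (by linarith)
    have c3 : Psi ε L (t + ε) ≤ Psi ε L t := by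
      unfold Psi
      rw [cl_one ((one_le_div hε).2 ht), cl_one ((one_le_div hε).2 (by linarith : ε ≤ t + ε))]
      have : t / L ≤ (t + ε) / L := div_le_div_of_nonneg_right (by linarith) hL0.le
      have := Kap_mono this
      linarith
    have c4 : Psi ε L t - Psi ε L (t + ε) ≤ ε / L := by
      unfold Psi
      rw [cl_one ((one_le_div hε).2 ht), cl_one ((one_le_div hε).2 (by linarith : ε ≤ t + ε))]
      have h3 : t / L ≤ (t + ε) / L := div_le_div_of_nonneg_right (by linarith) hL0.le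
      have h4 := Kap_lip1 h3
      have e : (t + ε) / L - t / L = ε / L := by ring
      rw [e] at h4
      linarith
    unfold kap
    rw [c2]
    have b1 : |(Psi ε L (t + ε) - Psi ε L t) / ε| ≤ 1 / L := by
      rw [abs_div, abs_of_pos hε, div_le_iff₀ hε]
      rw [abs_le]
      have e : 1 / L * ε = ε / L := by ring
      rw [e]
      have : 0 ≤ ε / L := by positivity
      constructor <;> linarith
    have b2 : |(0 - Psi ε L t) / L| ≤ 1 / L := by
      rw [abs_div, abs_of_pos hL0]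
      refine div_le_div_of_nonneg_right ?_ hL0.le
      have p3 := Psi_nonneg hε hL t
      have p4 := Psi_le_one hε hL t
      rw [abs_le]
      constructor <;> linarith
    have h := abs_sub ((Psi ε L (t + ε) - Psi ε L t) / ε) ((0 - Psi ε L t) / L)
    rw [e2]
    linarith
  · rw [abs_of_nonpos h] at ht h1
    have c1 : Psi ε L t = 0 := Psi_zero_left hε hL h
    have c2 : Psi ε L (t + ε) = 0 := Psi_zero_left hε hL (by linarith)
    unfold kap
    rw [c1, c2]
    have b2 : |(Psi ε L (t + L) - 0) / L| ≤ 1 / L := by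
      rw [abs_div, abs_of_pos hL0]
      refine div_le_div_of_nonneg_right ?_ hL0.le
      have p3 := Psi_nonneg hε hL (t + L)
      have p4 := Psi_le_one hε hL (t + L)
      rw [abs_le]
      constructor <;> linarith
    have e : ((0:ℝ) - 0) / ε - (Psi ε L (t + L) - 0) / L = -((Psi ε L (t + L) - 0) / L) := by
      rw [sub_self, zero_div, zero_sub]
    rw [e, abs_neg, e2]
    have : 0 ≤ 1 / L := by positivity
    linarith

theorem kap_inv {ε L t : ℝ} (hε : 0 < ε) (hL : ε ≤ L) (ht : t ≠ 0) :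
    |kap ε L t| ≤ 2 / |t| := by
  have hL0 : 0 < L := lt_of_lt_of_le hε hL
  have h0 : 0 < |t| := abs_pos.2 ht
  rcases le_total |t| ε with h | h
  · exact (kap_le hε hL t).trans (div_le_div_of_nonneg_left (by norm_num) h0 h)
  · rcases le_total L |t| with h1 | h1
    · rw [kap_zero hε hL h1, abs_zero]
      positivity
    · exact (kap_le_far hε hL h).trans (div_le_div_of_nonneg_left (by norm_num) h0 h1)

private theorem Kap_ftc (ε L w t : ℝ) :
    HasDerivAt (fun t => ∫ y in t..(t + w), Psi ε L y) (Psi ε L (t + w) - Psi ε L t) t := by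
  have hc := Psi_cont ε L
  have hi : ∀ a b, IntervalIntegrable (Psi ε L) MeasureTheory.volume a b := fun a b => hc.intervalIntegrable a b
  have e : (fun t => ∫ y in t..(t + w), Psi ε L y) =
      fun t => (∫ y in (0:ℝ)..(t + w), Psi ε L y) - ∫ y in (0:ℝ)..t, Psi ε L y := by
    funext t
    rw [intervalIntegral.integral_interval_sub_left (hi _ _) (hi _ _)]
  rw [e]
  have h1 : HasDerivAt (fun u => ∫ y in (0:ℝ)..u, Psi ε L y) (Psi ε L t) t :=
    intervalIntegral.integral_hasDerivAt_right (hi _ _) (hc.stronglyMeasurableAtFilter _ _) hc.continuousAt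
  have h2 : HasDerivAt (fun u => ∫ y in (0:ℝ)..u, Psi ε L y) (Psi ε L (t + w)) (t + w) :=
    intervalIntegral.integral_hasDerivAt_right (hi _ _) (hc.stronglyMeasurableAtFilter _ _) hc.continuousAt
  have h3 : HasDerivAt (fun u : ℝ => u + w) 1 t := (hasDerivAt_id t).add_const w
  have h4 : HasDerivAt (fun u => ∫ y in (0:ℝ)..(u + w), Psi ε L y) (Psi ε L (t + w) * 1) t :=
    HasDerivAt.comp (h₂ := fun u => ∫ y in (0:ℝ)..u, Psi ε L y) (h := fun u : ℝ => u + w) t h2 h3
  have h5 := h4.sub h1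
  rw [mul_one] at h5
  exact h5

theorem Phi_deriv {ε L : ℝ} (t : ℝ) : HasDerivAt (Phi ε L) (kap ε L t) t := by
  unfold kap
  have h1 := (Kap_ftc ε L ε t).div_const ε
  have h2 := (Kap_ftc ε L L t).div_const L
  exact h1.sub h2

theorem Phi_cont (ε L : ℝ) : Continuous (Phi ε L) :=
  continuous_iff_continuousAt.2 fun t => (Phi_deriv t).continuousAt

private theorem Kap_avg {ε L w : ℝ} (hε : 0 < ε) (hL : ε ≤ L) (hw : 0 < w) (t : ℝ) :
    0 ≤ (∫ y in t..(t + w), Psi ε L y) / w ∧ (∫ y in t..(t + w), Psi ε L y) / w ≤ 1 := by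
  have hi : IntervalIntegrable (Psi ε L) MeasureTheory.volume t (t + w) :=
    (Psi_cont ε L).intervalIntegrable _ _
  have h1 : 0 ≤ ∫ y in t..(t + w), Psi ε L y :=
    intervalIntegral.integral_nonneg (by linarith) fun y _ => Psi_nonneg hε hL y
  have h2 : ∫ y in t..(t + w), Psi ε L y ≤ ∫ _y in t..(t + w), (1:ℝ) :=
    intervalIntegral.integral_mono_on (by linarith) hi (by simp) fun y _ => Psi_le_one hε hL y
  have h3 : ∫ _y in t..(t + w), (1:ℝ) = w := by simp
  rw [h3] at h2
  exact ⟨div_nonneg h1 hw.le, (div_le_one hw).2 h2⟩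

theorem Phi_le {ε L : ℝ} (hε : 0 < ε) (hL : ε ≤ L) (t : ℝ) : |Phi ε L t| ≤ 1 := by
  have hL0 : 0 < L := lt_of_lt_of_le hε hL
  have h1 := Kap_avg hε hL hε t
  have h2 := Kap_avg hε hL hL0 t
  unfold Phi
  rw [abs_le]
  constructor <;> linarith [h1.1, h1.2, h2.1, h2.2]

theorem Phi_zero {ε L t : ℝ} (hε : 0 < ε) (hL : ε ≤ L) (ht : L ≤ |t|) : Phi ε L t = 0 := by
  have hL0 : 0 < L := lt_of_lt_of_le hε hL
  have key : ∀ w, 0 < w → w ≤ L → ∫ y in t..(t + w), Psi ε L y = 0 := by
    intro w hw hwL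
    have h0 : ∫ y in t..(t + w), Psi ε L y = ∫ _y in t..(t + w), (0:ℝ) := by
      refine intervalIntegral.integral_congr fun y hy => ?_
      rw [Set.uIcc_of_le (by linarith)] at hy
      rcases le_total 0 t with h | h
      · rw [abs_of_nonneg h] at ht
        exact Psi_zero_right hε hL (by linarith [hy.1])
      · rw [abs_of_nonpos h] at ht
        exact Psi_zero_left hε hL (by linarith [hy.2])
    rw [h0]
    simp
  unfold Phi
  rw [key ε hε hL, key L hL0 le_rfl]
  simp

end Pool.Agent.Lib.MP_570bef_ntRE
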