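import Mathlib
import Pool.Agent.Lib.MP_570bef_ntRE.Defs

/-!
# JOB Count: covering the set where `g ≥ 1` by few short intervals (about 110 lines)

`I m = [a + m r, a + (m+1) r]`, `M` = the set of `m ≤ (b - a)/r` for which `I m` meets `{t ∈ [a, b] | 1 ≤ g t}`.  Every `t ∈ [a, b]` lies in `I m` with `m = ⌊(t - a)/r⌋`.
For `m ∈ M`: `I m ⊆ [a, b + r] ⊆ [t1, t2]` and `g ≥ 1/2` on `I m`, `om t1 t2 t = (t - t1)(t2 - t) ≥ (a - t1)(t2 - b)/2` on it; so `∫_(I m) om g ≥ r (a - t1)(t2 - b)/4`.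
The intervals `[a + m r, a + (m+1) r)` are disjoint and `om g ≥ 0` on `[t1, t2]`, so the sum over `m ∈ M` is at most `∫_(t1)^(t2) om g`.
-/

namespace Pool.Agent.Lib.MP_570bef_ntRE

theorem count_lemma {t1 t2 a b r : ℝ} (h1 : t1 < a) (hab : a ≤ b) (h2 : b < t2) (hr : 0 < r)
    (hr2 : r ≤ (t2 - b) / 2) (g : ℝ → ℝ) (hgc : ContinuousOn g (Set.Icc t1 t2))
    (hg0 : ∀ t ∈ Set.Icc t1 t2, 0 ≤ g t)
    (hgL : ∀ t ∈ Set.Icc t1 t2, ∀ t' ∈ Set.Icc t1 t2, |t - t'| ≤ r → |g t - g t'| ≤ 1 / 2) :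
    ∃ M : Finset ℕ,
      {t | t ∈ Set.Icc a b ∧ 1 ≤ g t} ⊆ ⋃ m ∈ M, Set.Icc (a + m * r) (a + (m + 1) * r) ∧
      (M.card : ℝ) * r * ((a - t1) * (t2 - b) / 4) ≤ ∫ t in t1..t2, om t1 t2 t * g t := by
  classical
  obtain ⟨n, hn⟩ : ∃ n : ℕ, n = ⌊(b - a) / r⌋₊ := ⟨_, rfl⟩
  have hba : 0 ≤ (b - a) / r := div_nonneg (by linarith) hr.le
  have hnr : (n : ℝ) * r ≤ b - a := by
    have h3 := Nat.floor_le hba
    rw [← hn, le_div_iff₀ hr] at h3
    exact h3
  obtain ⟨s, hs⟩ : ∃ s : ℕ → ℝ, ∀ m : ℕ, s m = a + m * r := ⟨_, fun _ => rfl⟩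
  have hs1 : ∀ m : ℕ, s (m + 1) = a + (m + 1) * r := by
    intro m
    rw [hs]
    push_cast
    ring
  have hle : ∀ m : ℕ, s m ≤ s (m + 1) := by
    intro m
    rw [hs, hs1]
    linarith
  have hlo : ∀ m : ℕ, a ≤ s m := by
    intro m
    rw [hs]
    have : 0 ≤ (m : ℝ) * r := by positivity
    linarith
  have hup : ∀ m : ℕ, m < n + 1 → s (m + 1) ≤ b + r := by
    intro m hm
    rw [hs1]
    have h3 : (m : ℝ) ≤ n := by exact_mod_cast Nat.lt_succ_iff.1 hm
    have h4 : (m : ℝ) * r ≤ n * r := mul_le_mul_of_nonneg_right h3 hr.le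
    linarith
  have hin : ∀ m : ℕ, m < n + 1 → Set.Icc (s m) (s (m + 1)) ⊆ Set.Icc t1 t2 := by
    intro m hm t ht
    have h3 := hlo m
    have h4 := hup m hm
    exact ⟨by linarith [ht.1], by linarith [ht.2]⟩
  have hf : ContinuousOn (fun t => om t1 t2 t * g t) (Set.Icc t1 t2) := by
    refine ContinuousOn.mul ?_ hgc
    unfold om
    fun_prop
  have hint : ∀ m : ℕ, m < n + 1 →
      IntervalIntegrable (fun t => om t1 t2 t * g t) MeasureTheory.volume (s m) (s (m + 1)) :=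
    fun m hm => (hf.mono (hin m hm)).intervalIntegrable_of_Icc (hle m)
  have hpos : ∀ t ∈ Set.Icc t1 t2, 0 ≤ om t1 t2 t * g t := by
    intro t ht
    refine mul_nonneg ?_ (hg0 t ht)
    unfold om
    exact mul_nonneg (by linarith [ht.1]) (by linarith [ht.2])
  refine ⟨(Finset.range (n + 1)).filter fun m => ∃ t ∈ Set.Icc (s m) (s (m + 1)), 1 ≤ g t, ?_, ?_⟩
  · rintro t ⟨ht, hgt⟩
    have h3 : 0 ≤ (t - a) / r := div_nonneg (by linarith [ht.1]) hr.le
    have h4 := Nat.floor_le h3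
    have h5 := Nat.lt_floor_add_one ((t - a) / r)
    obtain ⟨m, hm⟩ : ∃ m : ℕ, m = ⌊(t - a) / r⌋₊ := ⟨_, rfl⟩
    rw [← hm] at h4 h5
    rw [le_div_iff₀ hr] at h4
    rw [div_lt_iff₀ hr] at h5
    have h6 : t ∈ Set.Icc (a + m * r) (a + (m + 1) * r) := ⟨by linarith, by linarith⟩
    have h7 : m ≤ n := by
      rw [hm, hn]
      exact Nat.floor_le_floor (div_le_div_of_nonneg_right (by linarith [ht.2]) hr.le)
    refine Set.mem_iUnion₂.2 ⟨m, ?_, h6⟩
    rw [Finset.mem_filter, Finset.mem_range]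
    refine ⟨by omega, t, ?_, hgt⟩
    rw [hs, hs1]
    exact h6
  · obtain ⟨c, hc⟩ : ∃ c : ℝ, c = (a - t1) * (t2 - b) / 4 := ⟨_, rfl⟩
    rw [← hc]
    have h3 : ∑ m ∈ Finset.range (n + 1), ∫ t in (s m)..(s (m + 1)), om t1 t2 t * g t =
        ∫ t in (s 0)..(s (n + 1)), om t1 t2 t * g t :=
      intervalIntegral.sum_integral_adjacent_intervals hint
    have h4 : ∫ t in (s 0)..(s (n + 1)), om t1 t2 t * g t ≤
        ∫ t in t1..t2, om t1 t2 t * g t := by
      refine intervalIntegral.integral_mono_interval (by linarith [hlo 0])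
        ((hlo (n + 1)).trans' ?_) (by linarith [hup n (by omega)]) ?_
        (hf.intervalIntegrable_of_Icc (by linarith))
      · rw [hs]
        simp
      · refine (MeasureTheory.ae_restrict_iff' measurableSet_Ioc).2
          (MeasureTheory.ae_of_all _ fun t ht => ?_)
        exact hpos t ⟨ht.1.le, ht.2⟩
    have h5 : ∀ m ∈ (Finset.range (n + 1)).filter
        (fun m => ∃ t ∈ Set.Icc (s m) (s (m + 1)), 1 ≤ g t),
        r * c ≤ ∫ t in (s m)..(s (m + 1)), om t1 t2 t * g t := by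
      intro m hm
      rw [Finset.mem_filter, Finset.mem_range] at hm
      obtain ⟨hm, t0, ht0, hg1⟩ := hm
      have h6 : ∫ _ in (s m)..(s (m + 1)), c = r * c := by
        rw [intervalIntegral.integral_const, smul_eq_mul, hs1, hs]
        ring
      rw [← h6]
      refine intervalIntegral.integral_mono_on (hle m) intervalIntegrable_const (hint m hm)
        fun t ht => ?_
      have h7 := hs m
      have h8 := hs1 m
      have h9 := hlo m
      have h10 := hup m hm
      have h11 : |t - t0| ≤ r := by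
        rw [abs_le]
        constructor
        · linarith [ht.1, ht0.2]
        · linarith [ht.2, ht0.1]
      have h12 := (abs_le.1 (hgL t (hin m hm ht) t0 (hin m hm ht0) h11)).1
      have h13 : 1 / 2 ≤ g t := by linarith
      have h14 : (a - t1) * (t2 - b) / 2 ≤ om t1 t2 t := by
        unfold om
        have h15 : a - t1 ≤ t - t1 := by linarith [ht.1]
        have h16 : (t2 - b) / 2 ≤ t2 - t := by linarith [ht.2]
        have h17 : 0 ≤ (t2 - b) / 2 := by linarith
        have h18 : 0 ≤ t - t1 := by linarith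
        calc (a - t1) * (t2 - b) / 2 = (a - t1) * ((t2 - b) / 2) := by ring
          _ ≤ (t - t1) * (t2 - t) := mul_le_mul h15 h16 h17 h18
      have h19 : 0 ≤ (a - t1) * (t2 - b) / 2 :=
        div_nonneg (mul_nonneg (by linarith) (by linarith)) (by norm_num)
      calc c = (a - t1) * (t2 - b) / 2 * (1 / 2) := by
            rw [hc]
            ring
        _ ≤ om t1 t2 t * g t := mul_le_mul h14 h13 (by norm_num) (h19.trans h14)
    have h20 : ∑ m ∈ (Finset.range (n + 1)).filter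
        (fun m => ∃ t ∈ Set.Icc (s m) (s (m + 1)), 1 ≤ g t),
        ∫ t in (s m)..(s (m + 1)), om t1 t2 t * g t ≤
        ∑ m ∈ Finset.range (n + 1), ∫ t in (s m)..(s (m + 1)), om t1 t2 t * g t := by
      refine Finset.sum_le_sum_of_subset_of_nonneg (Finset.filter_subset _ _) fun m hm _ => ?_
      exact intervalIntegral.integral_nonneg (hle m) fun t ht =>
        hpos t (hin m (Finset.mem_range.1 hm) ht)
    have h21 := Finset.card_nsmul_le_sum _ _ _ h5
    rw [nsmul_eq_mul] at h21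
    rw [mul_assoc]
    linarith

end Pool.Agent.Lib.MP_570bef_ntRE
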