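import Mathlib

/-!
# JOB HDim: Hausdorff dimension of a limsup set (about 130 lines)

`r j = (2^j)^(-ρ)/2`, `d = 1 - η/(2ρ) ∈ [1/2, 1)`.  For `J ≥ j0` the set is covered by the intervals `Icc (a j m)(a j m + r j)`, `j ≥ J`, `m ∈ M j`, of diameter `r j`, and
`∑_(j ≥ J) card (M j) (r j)^d = ∑ (card (M j) r j) (r j)^(d-1) ≤ ∑ C (2^j)^(-η) * 2^(1-d) (2^j)^(ρ (1-d)) ≤ 2 C ∑_(j ≥ J) (2^j)^(-η/2) → 0` as `J → ∞` (`ρ (1 - d) = η/2`, geometric series).
`MeasureTheory.Measure.hausdorffMeasure_le_liminf_tsum` (index type for instance `ℕ × ℕ`, empty sets for the other indices; in dimension `d > 0` the empty set contributes `0`) gives `μH[d] = 0`, and `dimH_le_of_hausdorffMeasure_ne_top`.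
-/

namespace Pool.Agent.Lib.MP_570bef_ntRE

open MeasureTheory

theorem hdim_lemma (E : ℕ → Set ℝ) {C η ρ : ℝ} (hη : 0 < η) (hρ : η ≤ ρ) (hC : 0 ≤ C) (j0 : ℕ)
    (M : ℕ → Finset ℕ) (a : ℝ)
    (hcov : ∀ j ≥ j0, E j ⊆ ⋃ m ∈ M j, Set.Icc (a + m * (((2 : ℝ) ^ j) ^ (-ρ) / 2))
      (a + (m + 1) * (((2 : ℝ) ^ j) ^ (-ρ) / 2)))
    (hcard : ∀ j ≥ j0, ((M j).card : ℝ) * (((2 : ℝ) ^ j) ^ (-ρ) / 2) ≤ C * ((2 : ℝ) ^ j) ^ (-η)) :
    dimH {t | ∀ J : ℕ, ∃ j ≥ J, t ∈ E j} ≤ ENNReal.ofReal (1 - η / (2 * ρ)) := by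
  have hρ0 : 0 < ρ := lt_of_lt_of_le hη hρ
  set d : ℝ := 1 - η / (2 * ρ) with hd
  have hq1 : η / (2 * ρ) ≤ 1 / 2 := by
    rw [div_le_div_iff₀ (by positivity) (by norm_num)]
    linarith
  have hq0 : 0 < η / (2 * ρ) := by positivity
  have hd0 : 0 < d := by linarith
  have hd1 : d < 1 := by linarith
  have hρd : ρ * (1 - d) = η / 2 := by
    rw [hd]
    field_simp
    ring
  set r : ℕ → ℝ := fun j => ((2 : ℝ) ^ j) ^ (-ρ) / 2 with hr
  have hrpos : ∀ j, 0 < r j := fun j => by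
    simp only [hr]
    positivity
  have hr2 : ∀ j, r j = (2 : ℝ) ^ (-ρ * j) / 2 := fun j => by
    simp only [hr]
    rw [← Real.rpow_natCast, ← Real.rpow_mul (by norm_num)]
    congr 2
    ring
  set q : ℝ := (2 : ℝ) ^ (-(η / 2)) with hqdef
  have hq0' : 0 < q := by positivity
  have hq1' : q < 1 := Real.rpow_lt_one_of_one_lt_of_neg (by norm_num) (by linarith)
  set C' : ℝ := C * 2 ^ (1 - d) with hC'
  have hC'0 : 0 ≤ C' := by positivity
  -- the bound of one level
  have hlev : ∀ j ≥ j0, ((M j).card : ℝ) * r j ^ d ≤ C' * q ^ j := by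
    intro j hj
    have h1 := hcard j hj
    change ((M j).card : ℝ) * r j ≤ _ at h1
    have e1 : r j ^ d = r j * r j ^ (d - 1) := by
      rw [← Real.rpow_one_add' (hrpos j).le (by linarith)]
      congr 1
      ring
    have e2 : r j ^ (d - 1) = 2 ^ (1 - d) * (2 : ℝ) ^ ((η / 2) * j) := by
      rw [hr2 j, Real.div_rpow (by positivity) (by norm_num), ← Real.rpow_mul (by norm_num),
        div_eq_mul_inv, ← Real.rpow_neg (by norm_num), mul_comm]
      congr 1
      · congr 1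
        ring
      · congr 1
        rw [← hρd]
        ring
    have e3 : ((2 : ℝ) ^ j) ^ (-η) = (2 : ℝ) ^ (-η * j) := by
      rw [← Real.rpow_natCast, ← Real.rpow_mul (by norm_num)]
      congr 1
      ring
    have e4 : q ^ j = (2 : ℝ) ^ (-η * j) * (2 : ℝ) ^ ((η / 2) * j) := by
      rw [← Real.rpow_add (by norm_num), hqdef, ← Real.rpow_natCast, ← Real.rpow_mul (by norm_num)]
      congr 1
      ring
    calc ((M j).card : ℝ) * r j ^ d = (((M j).card : ℝ) * r j) * r j ^ (d - 1) := by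
          rw [e1]
          ring
      _ ≤ (C * ((2 : ℝ) ^ j) ^ (-η)) * r j ^ (d - 1) :=
          mul_le_mul_of_nonneg_right h1 (Real.rpow_nonneg (hrpos j).le _)
      _ = C' * q ^ j := by
          rw [e2, e3, e4, hC']
          ring
  have hdn : ((Real.toNNReal d : NNReal) : ℝ) = d := Real.coe_toNNReal d hd0.le
  have hmain : Measure.hausdorffMeasure (X := ℝ) d {t | ∀ J : ℕ, ∃ j ≥ J, t ∈ E j} = 0 := by
    let ι : ℕ → Type := fun J => Σ k : ℕ, {m : ℕ // m ∈ M (k + J)}
    let t : ∀ J : ℕ, ι J → Set ℝ := fun J i =>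
      Set.Icc (a + (i.2 : ℕ) * r (i.1 + J)) (a + ((i.2 : ℕ) + 1) * r (i.1 + J))
    have hdiam : ∀ (J : ℕ) (i : ι J), Metric.ediam (t J i) = ENNReal.ofReal (r (i.1 + J)) := by
      intro J i
      simp only [t]
      rw [Real.ediam_Icc]
      congr 1
      ring
    let R : ℕ → ENNReal := fun J => ENNReal.ofReal (r J)
    have hR : Filter.Tendsto R Filter.atTop (nhds 0) := by
      have h1 : Filter.Tendsto r Filter.atTop (nhds 0) := by
        have h2 : r = fun j : ℕ => ((2 : ℝ) ^ (-ρ)) ^ j / 2 := by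
          funext j
          rw [hr2 j, ← Real.rpow_natCast, ← Real.rpow_mul (by norm_num)]
        rw [h2]
        have h3 : Filter.Tendsto (fun j : ℕ => ((2 : ℝ) ^ (-ρ)) ^ j) Filter.atTop (nhds 0) :=
          tendsto_pow_atTop_nhds_zero_of_lt_one (by positivity)
            (Real.rpow_lt_one_of_one_lt_of_neg (by norm_num) (by linarith))
        have h4 := h3.div_const 2
        rwa [zero_div] at h4
      have h5 := ENNReal.tendsto_ofReal h1
      rwa [ENNReal.ofReal_zero] at h5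
    have hanti : ∀ J k : ℕ, r (k + J) ≤ r J := by
      intro J k
      rw [hr2, hr2]
      refine div_le_div_of_nonneg_right ?_ (by norm_num)
      refine Real.rpow_le_rpow_of_exponent_le (by norm_num) ?_
      have h1 : (J : ℝ) ≤ ((k + J : ℕ) : ℝ) := by exact_mod_cast Nat.le_add_left J k
      nlinarith
    have hle := Measure.hausdorffMeasure_le_liminf_tsum (X := ℝ) d
      {t | ∀ J : ℕ, ∃ j ≥ J, t ∈ E j} (l := Filter.atTop) R hR t
      (Filter.Eventually.of_forall fun J i => by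
        rw [hdiam]
        exact ENNReal.ofReal_le_ofReal (hanti J i.1))
      (by
        filter_upwards [Filter.eventually_ge_atTop j0] with J hJ x hx
        obtain ⟨j, hj, hxj⟩ := hx J
        have h1 := hcov j (le_trans hJ hj) hxj
        rw [Set.mem_iUnion₂] at h1
        obtain ⟨m, hm, hxm⟩ := h1
        obtain ⟨k, rfl⟩ : ∃ k, j = k + J := ⟨j - J, (Nat.sub_add_cancel hj).symm⟩
        exact Set.mem_iUnion.2 ⟨⟨k, ⟨m, hm⟩⟩, hxm⟩)
    have hsum : ∀ J, ∑' i : ι J, Metric.ediam (t J i) ^ d =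
        ∑' k : ℕ, ((M (k + J)).card : ENNReal) * ENNReal.ofReal (r (k + J)) ^ d := by
      intro J
      refine (ENNReal.tsum_sigma' (fun i : ι J => Metric.ediam (t J i) ^ d)).trans ?_
      refine tsum_congr fun k => ?_
      simp only [hdiam]
      rw [tsum_fintype, Finset.sum_const, Finset.card_univ, Fintype.card_coe, nsmul_eq_mul]
    let g : ℕ → ENNReal := fun j => ENNReal.ofReal (C' * q ^ j)
    have hg : ∑' j, g j ≠ ⊤ := by
      have h1 : Summable fun j : ℕ => C' * q ^ j :=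
        (summable_geometric_of_lt_one hq0'.le hq1').mul_left C'
      exact h1.tsum_ofReal_ne_top
    have hg0 := ENNReal.tendsto_sum_nat_add g hg
    have hterm : ∀ J ≥ j0, ∑' i : ι J, Metric.ediam (t J i) ^ d ≤ ∑' k : ℕ, g (k + J) := by
      intro J hJ
      rw [hsum]
      refine ENNReal.tsum_le_tsum fun k => ?_
      rw [ENNReal.ofReal_rpow_of_pos (hrpos _), ← ENNReal.ofReal_natCast,
        ← ENNReal.ofReal_mul (Nat.cast_nonneg _)]
      exact ENNReal.ofReal_le_ofReal (hlev (k + J) (le_trans hJ (Nat.le_add_left _ _)))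
    have hlim : Filter.Tendsto (fun J => ∑' i : ι J, Metric.ediam (t J i) ^ d) Filter.atTop
        (nhds 0) := by
      refine tendsto_of_tendsto_of_tendsto_of_le_of_le' tendsto_const_nhds hg0
        (Filter.Eventually.of_forall fun J => zero_le) ?_
      filter_upwards [Filter.eventually_ge_atTop j0] with J hJ
      exact hterm J hJ
    rw [hlim.liminf_eq] at hle
    exact le_antisymm hle zero_le
  refine dimH_le_of_hausdorffMeasure_ne_top ?_
  rw [hdn, hmain]
  exact ENNReal.zero_ne_top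

end Pool.Agent.Lib.MP_570bef_ntRE
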