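import Mathlib
import Pool.Agent.Lib.MP_570bef_ntRE.Count
import Pool.Agent.Lib.MP_570bef_ntRE.HDim

/-!
# JOB Dim: the set where `G j ≥ 1` infinitely often (about 70 lines)

If `b < a` the set is empty.  Otherwise, for `j ≥ j1` (`(2^j)^(-ρ)/2 ≤ (t2 - b)/2`), `count_lemma` with `r = (2^j)^(-ρ)/2`, `g = G j` (`|G j t - G j t'| ≤ (2^j)^ρ r = 1/2`) gives `M j` with `card (M j) r (a - t1)(t2 - b)/4 ≤ (2^j)^(-η)`.
`hdim_lemma` with `E j = {t | t ∈ Icc a b ∧ 1 ≤ G j t}`, `C = 4/((a - t1)(t2 - b))`, `j0 := max j0 j1`.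
-/

namespace Pool.Agent.Lib.MP_570bef_ntRE

theorem dim_lemma {t1 t2 a b η ρ : ℝ} (h1 : t1 < a) (h2 : b < t2) (hη : 0 < η) (hρ : η ≤ ρ)
    (G : ℕ → ℝ → ℝ) (j0 : ℕ)
    (h0 : ∀ j ≥ j0, ∀ t ∈ Set.Icc t1 t2, 0 ≤ G j t)
    (hL : ∀ j ≥ j0, ∀ t ∈ Set.Icc t1 t2, ∀ t' ∈ Set.Icc t1 t2,
      |G j t - G j t'| ≤ ((2 : ℝ) ^ j) ^ ρ * |t - t'|)
    (hI : ∀ j ≥ j0, ∫ t in t1..t2, om t1 t2 t * G j t ≤ ((2 : ℝ) ^ j) ^ (-η)) :
    dimH {t | t ∈ Set.Icc a b ∧ ∀ J : ℕ, ∃ j ≥ J, 1 ≤ G j t} ≤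
      ENNReal.ofReal (1 - η / (2 * ρ)) := by
  have hρ0 : 0 < ρ := lt_of_lt_of_le hη hρ
  rcases lt_or_ge b a with hab | hab
  · have he : {t | t ∈ Set.Icc a b ∧ ∀ J : ℕ, ∃ j ≥ J, 1 ≤ G j t} = ∅ := by
      rw [Set.Icc_eq_empty (not_le.2 hab)]
      ext t
      simp
    rw [he, dimH_empty]
    exact zero_le
  have hpow : ∀ j : ℕ, ((2 : ℝ) ^ j) ^ (-ρ) = ((2 : ℝ) ^ (-ρ)) ^ j := by
    intro j
    rw [← Real.rpow_natCast, ← Real.rpow_natCast, ← Real.rpow_mul (by norm_num),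
      ← Real.rpow_mul (by norm_num), mul_comm]
  have hlim : Filter.Tendsto (fun j : ℕ => ((2 : ℝ) ^ j) ^ (-ρ)) Filter.atTop (nhds 0) := by
    have h3 : Filter.Tendsto (fun j : ℕ => ((2 : ℝ) ^ (-ρ)) ^ j) Filter.atTop (nhds 0) :=
      tendsto_pow_atTop_nhds_zero_of_lt_one (Real.rpow_nonneg (by norm_num) _)
        (Real.rpow_lt_one_of_one_lt_of_neg (by norm_num) (by linarith))
    exact h3.congr fun j => (hpow j).symm
  have hev : ∀ᶠ j : ℕ in Filter.atTop, ((2 : ℝ) ^ j) ^ (-ρ) < t2 - b :=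
    (tendsto_order.1 hlim).2 _ (by linarith)
  obtain ⟨j1, hj1⟩ := Filter.eventually_atTop.1 hev
  have hk : 0 < (a - t1) * (t2 - b) / 4 := by
    have h3 : 0 < a - t1 := by linarith
    have h4 : 0 < t2 - b := by linarith
    positivity
  have hM : ∀ j : ℕ, ∃ M : Finset ℕ, j ≥ max j0 j1 →
      ({t | t ∈ Set.Icc a b ∧ 1 ≤ G j t} ⊆ ⋃ m ∈ M,
        Set.Icc (a + m * (((2 : ℝ) ^ j) ^ (-ρ) / 2)) (a + (m + 1) * (((2 : ℝ) ^ j) ^ (-ρ) / 2)) ∧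
      (M.card : ℝ) * (((2 : ℝ) ^ j) ^ (-ρ) / 2) * ((a - t1) * (t2 - b) / 4) ≤
        ∫ t in t1..t2, om t1 t2 t * G j t) := by
    intro j
    by_cases hj : j ≥ max j0 j1
    · have hj0 : j ≥ j0 := le_trans (le_max_left _ _) hj
      have hjj : j ≥ j1 := le_trans (le_max_right _ _) hj
      have hpos : (0 : ℝ) < (2 : ℝ) ^ j := by positivity
      have hr : 0 < ((2 : ℝ) ^ j) ^ (-ρ) / 2 := by
        have := Real.rpow_pos_of_pos hpos (-ρ)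
        positivity
      have hr2 : ((2 : ℝ) ^ j) ^ (-ρ) / 2 ≤ (t2 - b) / 2 := by
        have := hj1 j hjj
        linarith
      have hmul : ((2 : ℝ) ^ j) ^ ρ * ((2 : ℝ) ^ j) ^ (-ρ) = 1 := by
        rw [← Real.rpow_add hpos, add_neg_cancel, Real.rpow_zero]
      have hρn : 0 ≤ ((2 : ℝ) ^ j) ^ ρ := Real.rpow_nonneg hpos.le _
      have hcont : ContinuousOn (G j) (Set.Icc t1 t2) := by
        have hlip : LipschitzOnWith (Real.toNNReal (((2 : ℝ) ^ j) ^ ρ)) (G j) (Set.Icc t1 t2) := by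
          refine LipschitzOnWith.of_dist_le_mul fun x hx y hy => ?_
          rw [Real.dist_eq, Real.dist_eq, Real.coe_toNNReal _ hρn]
          exact hL j hj0 x hx y hy
        exact hlip.continuousOn
      obtain ⟨M, hM1, hM2⟩ := count_lemma h1 hab h2 hr hr2 (G j) hcont (h0 j hj0)
        (fun t ht t' ht' htt => by
          refine (hL j hj0 t ht t' ht').trans ?_
          refine (mul_le_mul_of_nonneg_left htt hρn).trans (le_of_eq ?_)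
          rw [← mul_div_assoc, hmul])
      exact ⟨M, fun _ => ⟨hM1, hM2⟩⟩
    · exact ⟨∅, fun h => absurd h hj⟩
  choose M hM using hM
  have hfin := hdim_lemma (fun j => {t | t ∈ Set.Icc a b ∧ 1 ≤ G j t})
    (C := 1 / ((a - t1) * (t2 - b) / 4)) hη hρ (by positivity) (max j0 j1) M a
    (fun j hj => (hM j hj).1)
    (fun j hj => by
      have h3 := (hM j hj).2.trans (hI j (le_trans (le_max_left _ _) hj))
      rw [div_mul_eq_mul_div, one_mul, le_div_iff₀ hk]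
      exact h3)
  refine le_trans (dimH_mono ?_) hfin
  rintro t ⟨ht, hJ⟩ J
  obtain ⟨j, hj, hG⟩ := hJ J
  exact ⟨j, hj, ht, hG⟩

end Pool.Agent.Lib.MP_570bef_ntRE
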