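import Mathlib

/-!
# Tame functions: differences of sums of powers as functions of the exponent
-/

namespace Pool.Agent.Lib.MP_570bef_ntRE

/-- `E` with derivatives `E1`, `E2`: constant sign, size between `e/4` and `R e`, logarithmic derivative `a * ell + O(C)`,
second derivative `O(C ell^2 |E|)` on `[p, q]` -/
structure Tame (p q ell C R a e : ℝ) (E E1 E2 : ℝ → ℝ) : Prop where
  d1 : ∀ t, HasDerivAt E (E1 t) t
  d2 : ∀ t, HasDerivAt E1 (E2 t) t
  c2 : Continuous E2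
  sgn : (∀ t ∈ Set.Icc p q, e / 4 ≤ E t) ∨ (∀ t ∈ Set.Icc p q, E t ≤ -(e / 4))
  up : ∀ t ∈ Set.Icc p q, |E t| ≤ R * e
  b1 : ∀ t ∈ Set.Icc p q, |E1 t - a * ell * E t| ≤ C * |E t|
  b2 : ∀ t ∈ Set.Icc p q, |E2 t| ≤ C * ell ^ 2 * |E t|

end Pool.Agent.Lib.MP_570bef_ntRE
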