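import Mathlib
import Pool.Agent.Lib.MP_570bef_ntRE.Tame

/-!
# JOB Slope: `E + lam F` is steep where it is small (about 90 lines)

Let `f = E + lam F`, `f1 = E1 + lam F1`.  For `t ∈ [p, q]` with `|f t| ≤ r`: `|E t| ≥ e/4 ≥ 4 r/th`, so `r ≤ (th/4)|E| ≤ |E|` and `lam |F| ≤ |E| + r ≤ 2|E|`.
`f1 = a ell E + b ell lam F + rem`, `|rem| ≤ C|E| + C lam |F| ≤ 3C|E|`, and `lam F = f - E`, so `f1 = (a - b) ell E + b ell f + rem` and
`|f1 - (a - b) ell E| ≤ ell r + 3C|E| ≤ (th/4) ell |E| + (th/4) ell |E| = (th/2) ell |E|` (as `12 C/th ≤ ell`).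
Hence `|f1| ≥ (th/2) ell |E| ≥ (th/8) ell e`, with the sign of `(a - b) E`, which does not depend on `t` (`sgn` of `E`).
`|E2 + lam F2| ≤ C ell^2 (|E| + lam |F|) ≤ 3 C ell^2 |E|`.
-/

namespace Pool.Agent.Lib.MP_570bef_ntRE

theorem slope {p q ell C R R' a b e e' th lam r : ℝ} {E E1 E2 F F1 F2 : ℝ → ℝ}
    (hth : 0 < th) (hth1 : th ≤ 1) (hC : 1 ≤ C) (hlam : 0 < lam) (hb : 0 < b) (hb1 : b ≤ 1)
    (hab : th ≤ |a - b|) (hell : 12 * C / th ≤ ell) (hr : 0 ≤ r) (he : 0 < e)
    (her : 16 * r / th ≤ e) (hE : Tame p q ell C R a e E E1 E2)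
    (hF : Tame p q ell C R' b e' F F1 F2) :
    ((∀ t ∈ Set.Icc p q, |E t + lam * F t| ≤ r → th / 8 * ell * e ≤ E1 t + lam * F1 t) ∨
      (∀ t ∈ Set.Icc p q, |E t + lam * F t| ≤ r → E1 t + lam * F1 t ≤ -(th / 8 * ell * e))) ∧
    (∀ t ∈ Set.Icc p q, |E t + lam * F t| ≤ r →
      th / 2 * ell * |E t| ≤ |E1 t + lam * F1 t| ∧ lam * |F t| ≤ 2 * |E t| ∧
      |E2 t + lam * F2 t| ≤ 3 * C * ell ^ 2 * |E t|) := by
  have hell0 : 0 < ell := lt_of_lt_of_le (by positivity) hell
  have hC0 : 0 < C := by linarith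
  have hCl : 12 * C ≤ th * ell := by
    rw [div_le_iff₀ hth] at hell
    linarith
  have hr16 : 16 * r ≤ e * th := by
    rw [div_le_iff₀ hth] at her
    exact her
  have hEabs : ∀ t ∈ Set.Icc p q, e / 4 ≤ |E t| := by
    intro t ht
    rcases hE.sgn with h | h
    · exact (h t ht).trans (le_abs_self _)
    · have := h t ht
      have h2 := neg_le_abs (E t)
      linarith
  have key : ∀ t ∈ Set.Icc p q, |E t + lam * F t| ≤ r →
      |E1 t + lam * F1 t - (a - b) * ell * E t| ≤ th / 2 * ell * |E t| ∧ lam * |F t| ≤ 2 * |E t| := by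
    intro t ht hf
    have hA := hEabs t ht
    have hA0 : 0 < |E t| := by linarith
    have hrA : r ≤ th / 4 * |E t| := by nlinarith
    have hrA1 : r ≤ |E t| := by nlinarith
    have hF2 : lam * |F t| ≤ 2 * |E t| := by
      have h1 : lam * |F t| = |(E t + lam * F t) - E t| := by
        rw [add_sub_cancel_left, abs_mul, abs_of_pos hlam]
      have h2 : |(E t + lam * F t) - E t| ≤ |E t + lam * F t| + |E t| := abs_sub _ _
      linarith
    refine ⟨?_, hF2⟩
    have e1 : E1 t + lam * F1 t - (a - b) * ell * E t =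
        (E1 t - a * ell * E t) + lam * (F1 t - b * ell * F t) + b * ell * (E t + lam * F t) := by ring
    have h3 := hE.b1 t ht
    have h4 := hF.b1 t ht
    have h5 : |lam * (F1 t - b * ell * F t)| ≤ C * (2 * |E t|) := by
      rw [abs_mul, abs_of_pos hlam]
      calc lam * |F1 t - b * ell * F t| ≤ lam * (C * |F t|) := mul_le_mul_of_nonneg_left h4 hlam.le
        _ = C * (lam * |F t|) := by ring
        _ ≤ C * (2 * |E t|) := mul_le_mul_of_nonneg_left hF2 hC0.le
    have h6 : |b * ell * (E t + lam * F t)| ≤ ell * (th / 4 * |E t|) := by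
      rw [abs_mul, abs_of_pos (mul_pos hb hell0)]
      calc b * ell * |E t + lam * F t| ≤ b * ell * r := mul_le_mul_of_nonneg_left hf (by positivity)
        _ ≤ 1 * ell * r := by
            refine mul_le_mul_of_nonneg_right (mul_le_mul_of_nonneg_right hb1 hell0.le) hr
        _ = ell * r := by ring
        _ ≤ ell * (th / 4 * |E t|) := mul_le_mul_of_nonneg_left hrA hell0.le
    have h7 := abs_add_three (E1 t - a * ell * E t) (lam * (F1 t - b * ell * F t)) (b * ell * (E t + lam * F t))
    rw [e1]
    have h8 : 3 * C * |E t| ≤ th / 4 * ell * |E t| := by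
      refine mul_le_mul_of_nonneg_right ?_ hA0.le
      linarith
    nlinarith
  have hthl : 0 < th * ell := mul_pos hth hell0
  refine ⟨?_, ?_⟩
  · -- signs
    have hab' : th ≤ a - b ∨ a - b ≤ -th := by
      rcases le_total 0 (a - b) with h | h
      · rw [abs_of_nonneg h] at hab
        exact Or.inl hab
      · rw [abs_of_nonpos h] at hab
        exact Or.inr (by linarith)
    have low : ∀ x y : ℝ, th ≤ x → e / 4 ≤ y → th / 8 * ell * e ≤ x * ell * y - th / 2 * ell * y := by
      intro x y hx hy
      have hy0 : 0 < y := by linarith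
      have h1 : th * ell * y ≤ x * ell * y :=
        mul_le_mul_of_nonneg_right (mul_le_mul_of_nonneg_right hx hell0.le) hy0.le
      have h2 : th * ell * (e / 4) ≤ th * ell * y := mul_le_mul_of_nonneg_left hy hthl.le
      nlinarith
    rcases hab' with h | h <;> rcases hE.sgn with hs | hs
    · left
      intro t ht hf
      have h1 := (abs_le.1 (key t ht hf).1).1
      have h2 := hs t ht
      have h3 : |E t| = E t := abs_of_pos (by linarith)
      rw [h3] at h1
      have := low (a - b) (E t) h h2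
      linarith
    · right
      intro t ht hf
      have h1 := (abs_le.1 (key t ht hf).1).2
      have h2 := hs t ht
      have h3 : |E t| = -E t := abs_of_neg (by linarith)
      rw [h3] at h1
      have := low (a - b) (-E t) h (by linarith)
      nlinarith
    · right
      intro t ht hf
      have h1 := (abs_le.1 (key t ht hf).1).2
      have h2 := hs t ht
      have h3 : |E t| = E t := abs_of_pos (by linarith)
      rw [h3] at h1
      have := low (-(a - b)) (E t) (by linarith) h2
      nlinarith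
    · left
      intro t ht hf
      have h1 := (abs_le.1 (key t ht hf).1).1
      have h2 := hs t ht
      have h3 : |E t| = -E t := abs_of_neg (by linarith)
      rw [h3] at h1
      have := low (-(a - b)) (-E t) (by linarith) (by linarith)
      nlinarith
  · intro t ht hf
    obtain ⟨k1, k2⟩ := key t ht hf
    have hA := hEabs t ht
    have hA0 : 0 < |E t| := by linarith
    refine ⟨?_, k2, ?_⟩
    · have h1 : |(a - b) * ell * E t| = |a - b| * ell * |E t| := by
        rw [abs_mul, abs_mul, abs_of_pos hell0]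
      have h2 : th * ell * |E t| ≤ |a - b| * ell * |E t| :=
        mul_le_mul_of_nonneg_right (mul_le_mul_of_nonneg_right hab hell0.le) hA0.le
      have h3 : |(a - b) * ell * E t| ≤ |E1 t + lam * F1 t| + |E1 t + lam * F1 t - (a - b) * ell * E t| := by
        have := abs_sub (E1 t + lam * F1 t) (E1 t + lam * F1 t - (a - b) * ell * E t)
        have e2 : E1 t + lam * F1 t - (E1 t + lam * F1 t - (a - b) * ell * E t) = (a - b) * ell * E t := by ring
        rw [e2] at this
        exact this
      rw [h1] at h3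
      nlinarith
    · have h1 := hE.b2 t ht
      have h2 := hF.b2 t ht
      have h3 : |lam * F2 t| ≤ C * ell ^ 2 * (2 * |E t|) := by
        rw [abs_mul, abs_of_pos hlam]
        calc lam * |F2 t| ≤ lam * (C * ell ^ 2 * |F t|) := mul_le_mul_of_nonneg_left h2 hlam.le
          _ = C * ell ^ 2 * (lam * |F t|) := by ring
          _ ≤ C * ell ^ 2 * (2 * |E t|) := mul_le_mul_of_nonneg_left k2 (by positivity)
      have h4 := abs_add_le (E2 t) (lam * F2 t)
      nlinarith

end Pool.Agent.Lib.MP_570bef_ntRE
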