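import Mathlib

/-!
# JOB Sub: substitution bound (about 60 lines)

`T x = ∫_(-R)^x g` has derivative `g` and values in `[0, I]`, `I = ∫_(-R)^R g` (`g = 0` outside `[-R, R]`, also at the left of `-R`).  `T ∘ f` has derivative `g (f t) f1 t`, so `∫_p^q g (f t) f1 t dt = T (f q) - T (f p)` is at most `I` in absolute value.
In the first case `m g (f t) ≤ g (f t) f1 t` on `[p, q]` (`g (f t) = 0` unless `|f t| ≤ R`), so `m ∫ g (f t) ≤ I`; the second case is the same with `-f1`.
-/

namespace Pool.Agent.Lib.MP_570bef_ntRE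

private theorem Sub_T {R : ℝ} (hR : 0 ≤ R) (g : ℝ → ℝ) (hg : Continuous g) (hg0 : ∀ x, 0 ≤ g x)
    (hgR : ∀ x, R < |x| → g x = 0) (x : ℝ) :
    0 ≤ ∫ t in (-R)..x, g t ∧ ∫ t in (-R)..x, g t ≤ ∫ t in (-R)..R, g t := by
  have hi : ∀ a b, IntervalIntegrable g MeasureTheory.volume a b := fun a b => hg.intervalIntegrable a b
  have hpos : ∀ a b, a ≤ b → 0 ≤ ∫ t in a..b, g t := fun a b hab =>
    intervalIntegral.integral_nonneg hab fun t _ => hg0 t
  have hz : ∀ a b, (∀ t ∈ Set.uIoc a b, g t = 0) → ∫ t in a..b, g t = 0 := by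
    intro a b h
    have h0 : ∫ t in a..b, g t = ∫ _t in a..b, (0:ℝ) :=
      intervalIntegral.integral_congr_ae (Filter.Eventually.of_forall h)
    rw [h0]
    simp
  rcases le_total x (-R) with h | h
  · have h1 : ∫ t in (-R)..x, g t = 0 := by
      rw [intervalIntegral.integral_symm]
      have h2 : ∫ t in x..(-R), g t = 0 := by
        have h3 : ∫ t in x..(-R), g t = ∫ _t in x..(-R), (0:ℝ) := by
          refine intervalIntegral.integral_congr_Ioo_of_le h fun t ht => ?_
          refine hgR t ?_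
          rw [abs_of_neg (by linarith [ht.2])]
          linarith [ht.2]
        rw [h3]
        simp
      rw [h2, neg_zero]
    rw [h1]
    exact ⟨le_rfl, hpos _ _ (by linarith)⟩
  · refine ⟨hpos _ _ h, ?_⟩
    rcases le_total x R with h1 | h1
    · have h2 := intervalIntegral.integral_add_adjacent_intervals (hi (-R) x) (hi x R)
      have h3 := hpos x R h1
      linarith
    · have h2 := intervalIntegral.integral_add_adjacent_intervals (hi (-R) R) (hi R x)
      have h3 : ∫ t in R..x, g t = 0 := by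
        refine hz R x fun t ht => ?_
        rw [Set.uIoc_of_le h1] at ht
        refine hgR t ?_
        rw [abs_of_nonneg (by linarith [ht.1])]
        exact ht.1
      linarith

theorem sub_int {p q R m : ℝ} (hpq : p ≤ q) (hm : 0 < m) (hR : 0 ≤ R) (g : ℝ → ℝ)
    (hg : Continuous g) (hg0 : ∀ x, 0 ≤ g x) (hgR : ∀ x, R < |x| → g x = 0) (f f1 : ℝ → ℝ)
    (hf : ∀ t, HasDerivAt f (f1 t) t) (hf1 : Continuous f1)
    (h : (∀ t ∈ Set.Icc p q, |f t| ≤ R → m ≤ f1 t) ∨
      (∀ t ∈ Set.Icc p q, |f t| ≤ R → f1 t ≤ -m)) :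
    ∫ t in p..q, g (f t) ≤ (∫ x in (-R)..R, g x) / m := by
  have hfc : Continuous f := continuous_iff_continuousAt.2 fun t => (hf t).continuousAt
  have hi : ∀ a b, IntervalIntegrable g MeasureTheory.volume a b := fun a b => hg.intervalIntegrable a b
  have hT : ∀ x, HasDerivAt (fun u => ∫ t in (-R)..u, g t) (g x) x := fun x =>
    intervalIntegral.integral_hasDerivAt_right (hi _ _) (hg.stronglyMeasurableAtFilter _ _) hg.continuousAt
  have hTf : ∀ t, HasDerivAt (fun s => ∫ u in (-R)..(f s), g u) (g (f t) * f1 t) t := fun t =>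
    HasDerivAt.comp (h₂ := fun u => ∫ t in (-R)..u, g t) (h := f) t (hT (f t)) (hf t)
  have hint : ∫ t in p..q, g (f t) * f1 t = (∫ u in (-R)..(f q), g u) - ∫ u in (-R)..(f p), g u :=
    intervalIntegral.integral_eq_sub_of_hasDerivAt (fun t _ => hTf t)
      (((hg.comp hfc).mul hf1).intervalIntegrable _ _)
  obtain ⟨a1, a2⟩ := Sub_T hR g hg hg0 hgR (f q)
  obtain ⟨b1, b2⟩ := Sub_T hR g hg hg0 hgR (f p)
  rw [le_div_iff₀ hm, mul_comm, ← intervalIntegral.integral_const_mul]
  have i1 : IntervalIntegrable (fun t => m * g (f t)) MeasureTheory.volume p q :=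
    ((hg.comp hfc).const_mul m).intervalIntegrable _ _
  have i2 : IntervalIntegrable (fun t => g (f t) * f1 t) MeasureTheory.volume p q :=
    ((hg.comp hfc).mul hf1).intervalIntegrable _ _
  rcases h with h | h
  · have h1 : ∫ t in p..q, m * g (f t) ≤ ∫ t in p..q, g (f t) * f1 t := by
      refine intervalIntegral.integral_mono_on hpq i1 i2 fun t ht => ?_
      rcases le_or_gt |f t| R with h2 | h2
      · have := mul_le_mul_of_nonneg_left (h t ht h2) (hg0 (f t))
        linarith
      · rw [hgR _ h2]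
        simp
    linarith
  · have h1 : ∫ t in p..q, m * g (f t) ≤ ∫ t in p..q, -(g (f t) * f1 t) := by
      refine intervalIntegral.integral_mono_on hpq i1 i2.neg fun t ht => ?_
      rcases le_or_gt |f t| R with h2 | h2
      · have := mul_le_mul_of_nonneg_left (h t ht h2) (hg0 (f t))
        linarith
      · rw [hgR _ h2]
        simp
    rw [intervalIntegral.integral_neg] at h1
    linarith

end Pool.Agent.Lib.MP_570bef_ntRE
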