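import Mathlib
import Pool.Agent.Lib.MP_570bef_ntRE.Kap
import Pool.Agent.Lib.MP_570bef_ntRE.Sub

/-!
# JOB Stat: integration by parts (about 150 lines)

Let `W t = om p q t` (`W p = W q = 0`, derivative `p + q - 2t`, `0 ≤ W ≤ 1` and `|W'| ≤ 1` on `[p, q]` as `q - p ≤ 1`).
Put `g t = W t * Phi (f t) / f1 t` and `h t = ((p + q - 2t)/f1 t - W t * f2 t/(f1 t)^2) * Phi (f t)`.
Claim: for `t ∈ [p, q]`: `HasDerivAt g (W t * kap (f t) + h t) t`.  If `|f t| ≤ L`: `f1 t ≠ 0` (`m > 0`), quotient rule with `Phi_deriv`.  If `|f t| > L`: near `t` also `|f| > L`, so `Phi (f ·) = 0` and `kap (f ·) = 0` near `t`: `g = 0` near `t` and the claimed derivative is `0`.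
Also `h` is continuous on `[p, q]` (same two cases).  So by the fundamental theorem `∫ (W kap(f) + h) = g q - g p = 0`, `|∫ W kap (f)| = |∫ h|`.
On `[p, q]`: `|h t| ≤ (1/m + M) |Phi (f t)|` (`Phi (f t) = 0` unless `|f t| ≤ L`; `M` bounds `|f2|/f1^2` there), and `∫ |Phi (f t)| ≤ (∫_(-L)^L |Phi|)/m ≤ 2L/m` by `sub_int` with `R = L`, `g = |Phi|`.
-/

namespace Pool.Agent.Lib.MP_570bef_ntRE

private theorem Stat_om {p q t : ℝ} (hq : q ≤ p + 1) (ht : t ∈ Set.Icc p q) :
    0 ≤ om p q t ∧ om p q t ≤ 1 := by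
  obtain ⟨h1, h2⟩ := ht
  unfold om
  constructor
  · exact mul_nonneg (by linarith) (by linarith)
  · nlinarith [mul_nonneg (sub_nonneg.2 h1) (sub_nonneg.2 h2)]

private theorem Stat_omd (p q t : ℝ) : HasDerivAt (fun t => om p q t) (p + q - 2 * t) t := by
  unfold om
  have h1 : HasDerivAt (fun t : ℝ => t - p) 1 t := (hasDerivAt_id t).sub_const p
  have h2 : HasDerivAt (fun t : ℝ => q - t) (-1) t := (hasDerivAt_id t).const_sub q
  exact (h1.mul h2).congr_deriv (by ring)

private theorem Stat_omc (p q : ℝ) : Continuous (fun t => om p q t) := by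
  unfold om
  fun_prop

theorem stat {p q ε L m M : ℝ} (hpq : p < q) (hq : q ≤ p + 1) (hε : 0 < ε) (hL : ε ≤ L)
    (hm : 0 < m) (hM : 0 ≤ M) (f f1 f2 : ℝ → ℝ) (hf : ∀ t, HasDerivAt f (f1 t) t)
    (hf1 : ∀ t, HasDerivAt f1 (f2 t) t) (hf2 : Continuous f2)
    (h : (∀ t ∈ Set.Icc p q, |f t| ≤ L → m ≤ f1 t) ∨
      (∀ t ∈ Set.Icc p q, |f t| ≤ L → f1 t ≤ -m))
    (h2 : ∀ t ∈ Set.Icc p q, |f t| ≤ L → |f2 t| ≤ M * (f1 t) ^ 2) :
    |∫ t in p..q, om p q t * kap ε L (f t)| ≤ (1 / m + M) * (2 * L / m) := by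
  have hL0 : 0 < L := lt_of_lt_of_le hε hL
  have hfc : Continuous f := continuous_iff_continuousAt.2 fun t => (hf t).continuousAt
  have hf1c : Continuous f1 := continuous_iff_continuousAt.2 fun t => (hf1 t).continuousAt
  have hP0 : ∀ t, L ≤ |f t| → Phi ε L (f t) = 0 := fun t ht => Phi_zero hε hL ht
  have habs : ∀ t ∈ Set.Icc p q, |f t| ≤ L → m ≤ |f1 t| := by
    intro t ht htL
    rcases h with h | h
    · exact (h t ht htL).trans (le_abs_self _)
    · have h1 := h t ht htL
      have h2 := neg_le_abs (f1 t)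
      linarith
  let g : ℝ → ℝ := fun t => om p q t * Phi ε L (f t) / f1 t
  let h' : ℝ → ℝ := fun t =>
    ((p + q - 2 * t) / f1 t - om p q t * f2 t / (f1 t) ^ 2) * Phi ε L (f t)
  have hgd : ∀ t ∈ Set.Icc p q, HasDerivAt g (om p q t * kap ε L (f t) + h' t) t := by
    intro t ht
    by_cases htL : |f t| ≤ L
    · have hne : f1 t ≠ 0 := by
        intro h0
        have h1 := habs t ht htL
        rw [h0, abs_zero] at h1
        linarith
      have h1 : HasDerivAt (fun t => Phi ε L (f t)) (kap ε L (f t) * f1 t) t :=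
        (Phi_deriv (f t)).comp t (hf t)
      have h2 := ((Stat_omd p q t).mul h1).div (hf1 t) hne
      refine h2.congr_deriv ?_
      simp only [h', Pi.mul_apply]
      field_simp
      ring
    · push Not at htL
      have h1 : ∀ᶠ y in nhds t, L < |f y| :=
        (hfc.abs.continuousAt (x := t)).eventually_const_lt htL
      have h2 : g =ᶠ[nhds t] fun _ => 0 := by
        filter_upwards [h1] with y hy
        simp only [g]
        rw [hP0 y hy.le, mul_zero, zero_div]
      have h3 : om p q t * kap ε L (f t) + h' t = 0 := by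
        simp only [h']
        rw [hP0 t htL.le, kap_zero hε hL htL.le, mul_zero, mul_zero, add_zero]
      rw [h3]
      exact (hasDerivAt_const t (0 : ℝ)).congr_of_eventuallyEq h2
  have hPc : Continuous fun t => Phi ε L (f t) := (Phi_cont ε L).comp hfc
  have hkc : Continuous fun t => om p q t * kap ε L (f t) :=
    (Stat_omc p q).mul ((kap_cont ε L).comp hfc)
  have hh'c : ContinuousOn h' (Set.uIcc p q) := by
    rw [Set.uIcc_of_le hpq.le]
    intro t ht
    refine ContinuousAt.continuousWithinAt ?_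
    by_cases htL : |f t| ≤ L
    · have hne : f1 t ≠ 0 := by
        intro h0
        have h1 := habs t ht htL
        rw [h0, abs_zero] at h1
        linarith
      refine ContinuousAt.mul (ContinuousAt.sub ?_ ?_) hPc.continuousAt
      · exact ContinuousAt.div (by fun_prop) hf1c.continuousAt hne
      · exact ContinuousAt.div ((Stat_omc p q).continuousAt.mul hf2.continuousAt)
          (hf1c.continuousAt.pow 2) (pow_ne_zero 2 hne)
    · push Not at htL
      have h1 : ∀ᶠ y in nhds t, L < |f y| :=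
        (hfc.abs.continuousAt (x := t)).eventually_const_lt htL
      have h2 : h' =ᶠ[nhds t] fun _ => 0 := by
        filter_upwards [h1] with y hy
        simp only [h']
        rw [hP0 y hy.le, mul_zero]
      exact continuousAt_const.congr h2.symm
  have hki : IntervalIntegrable (fun t => om p q t * kap ε L (f t)) MeasureTheory.volume p q :=
    hkc.intervalIntegrable p q
  have hhi : IntervalIntegrable h' MeasureTheory.volume p q := hh'c.intervalIntegrable
  have hFTC := intervalIntegral.integral_eq_sub_of_hasDerivAt (a := p) (b := q) (f := g)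
    (f' := fun t => om p q t * kap ε L (f t) + h' t)
    (by rw [Set.uIcc_of_le hpq.le]; exact hgd) (hki.add hhi)
  have hgp : g p = 0 := by simp [g, om]
  have hgq : g q = 0 := by simp [g, om]
  rw [hgp, hgq, sub_zero, intervalIntegral.integral_add hki hhi] at hFTC
  have hkh : ∫ t in p..q, om p q t * kap ε L (f t) = -∫ t in p..q, h' t := by linarith
  have hbd : ∀ t ∈ Set.Icc p q, |h' t| ≤ (1 / m + M) * |Phi ε L (f t)| := by
    intro t ht
    simp only [h']
    rw [abs_mul]
    by_cases htL : |f t| ≤ L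
    · refine mul_le_mul_of_nonneg_right ?_ (abs_nonneg _)
      have h1 := habs t ht htL
      have h1' : 0 < |f1 t| := lt_of_lt_of_le hm h1
      refine (abs_sub _ _).trans (add_le_add ?_ ?_)
      · rw [abs_div]
        have h3 : |p + q - 2 * t| ≤ 1 := by
          rw [abs_le]
          constructor <;> linarith [ht.1, ht.2]
        exact div_le_div₀ zero_le_one h3 hm h1
      · rw [abs_div, abs_mul]
        obtain ⟨h3, h4⟩ := Stat_om hq ht
        have h5 := h2 t ht htL
        have h6 : |(f1 t) ^ 2| = (f1 t) ^ 2 := abs_of_nonneg (sq_nonneg _)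
        have h7 : 0 < (f1 t) ^ 2 := by
          have : f1 t ≠ 0 := abs_pos.1 h1'
          positivity
        rw [h6, div_le_iff₀ h7, abs_of_nonneg h3]
        calc om p q t * |f2 t| ≤ 1 * |f2 t| := mul_le_mul_of_nonneg_right h4 (abs_nonneg _)
          _ = |f2 t| := one_mul _
          _ ≤ M * (f1 t) ^ 2 := h5
    · push Not at htL
      rw [hP0 t htL.le, abs_zero, mul_zero, mul_zero]
  have hPhi : ∫ t in p..q, |Phi ε L (f t)| ≤ 2 * L / m := by
    refine (sub_int hpq.le hm hL0.le (fun x => |Phi ε L x|) (Phi_cont ε L).abs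
      (fun x => abs_nonneg _) (fun x hx => by rw [Phi_zero hε hL hx.le, abs_zero]) f f1 hf hf1c
      h).trans ?_
    refine div_le_div_of_nonneg_right ?_ hm.le
    have h1 : ‖∫ x in (-L)..L, |Phi ε L x|‖ ≤ 1 * |L - -L| := by
      refine intervalIntegral.norm_integral_le_of_norm_le_const fun x _ => ?_
      rw [Real.norm_eq_abs, abs_abs]
      exact Phi_le hε hL x
    have h2 := (le_abs_self _).trans h1
    rw [one_mul, abs_of_nonneg (by linarith)] at h2
    linarith
  rw [hkh, abs_neg]
  calc |∫ t in p..q, h' t| ≤ ∫ t in p..q, |h' t| := by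
        have := intervalIntegral.norm_integral_le_integral_norm (f := h')
          (μ := MeasureTheory.volume) hpq.le
        simpa only [Real.norm_eq_abs] using this
    _ ≤ ∫ t in p..q, (1 / m + M) * |Phi ε L (f t)| := by
        refine intervalIntegral.integral_mono_on hpq.le hhi.abs
          ((continuous_const.mul hPc.abs).intervalIntegrable p q) hbd
    _ = (1 / m + M) * ∫ t in p..q, |Phi ε L (f t)| := intervalIntegral.integral_const_mul _ _
    _ ≤ (1 / m + M) * (2 * L / m) := mul_le_mul_of_nonneg_left hPhi (by positivity)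

/-- trivial bound -/
theorem triv {p q K : ℝ} (hpq : p < q) (hq : q ≤ p + 1) (ε L : ℝ) (f : ℝ → ℝ)
    (h : ∀ t ∈ Set.Icc p q, |kap ε L (f t)| ≤ K) :
    |∫ t in p..q, om p q t * kap ε L (f t)| ≤ K := by
  have h1 : ‖∫ t in p..q, om p q t * kap ε L (f t)‖ ≤ K * |q - p| := by
    refine intervalIntegral.norm_integral_le_of_norm_le_const fun t ht => ?_
    rw [Set.uIoc_of_le hpq.le] at ht
    have ht' : t ∈ Set.Icc p q := Set.Ioc_subset_Icc_self ht
    obtain ⟨h3, h4⟩ := Stat_om hq ht'
    rw [Real.norm_eq_abs, abs_mul, abs_of_nonneg h3]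
    calc om p q t * |kap ε L (f t)| ≤ 1 * |kap ε L (f t)| :=
          mul_le_mul_of_nonneg_right h4 (abs_nonneg _)
      _ = |kap ε L (f t)| := one_mul _
      _ ≤ K := h t ht'
  have hK : 0 ≤ K := (abs_nonneg _).trans (h p ⟨le_rfl, hpq.le⟩)
  rw [Real.norm_eq_abs] at h1
  refine h1.trans ?_
  rw [abs_of_nonneg (by linarith)]
  nlinarith

end Pool.Agent.Lib.MP_570bef_ntRE
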