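import Mathlib
import Pool.Agent.Lib.MP_570bef_ntRE.Stat
import Pool.Agent.Lib.MP_570bef_ntRE.Slope

/-!
# JOB PairCA: the pair bound, large `e` (about 90 lines)

`f = E + lam F`.  If `L < |f t|` for all `t ∈ [p, q]` then `kap (f t) = 0` and the integral is `0`.  Otherwise there is `t0` with `|f t0| ≤ L` and `slope` (with `r = L`) gives `lam e'/4 ≤ lam |F t0| ≤ 2 |E t0| ≤ 2 R e`, so `e' ≤ 8 R e/lam`.
`stat` with `m = th/8 * ell * e` and `M = 48 C/(th^2 e)`: on `|f| ≤ L` `|f2| ≤ 3 C ell^2 |E|` and `f1^2 ≥ (th^2/4) ell^2 |E|^2`, so `|f2| ≤ (12 C/(th^2 |E|)) f1^2 ≤ (48 C/(th^2 e)) f1^2` (`|E| ≥ e/4`).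
So `|J| ≤ (8/(th ell e) + 48 C/(th^2 e)) * 16 L/(th ell e) ≤ 56 C/th^2 * 16/th * L/e^2 ≤ 900 C/th^3 * L/e^2` (`ell ≥ 1`, `th ≤ 1 ≤ C`), and `1/e ≤ 8 R/(lam e')`.
-/

namespace Pool.Agent.Lib.MP_570bef_ntRE

theorem pairCA {p q ell C R R' a b e e' th lam ε L : ℝ} {E E1 E2 F F1 F2 : ℝ → ℝ}
    (hpq : p < q) (hq : q ≤ p + 1) (hε : 0 < ε) (hL : ε ≤ L)
    (hth : 0 < th) (hth1 : th ≤ 1) (hC : 1 ≤ C) (hlam : 0 < lam) (hR : 1 ≤ R) (hb : 0 < b)
    (hb1 : b ≤ 1) (hab : th ≤ |a - b|) (hell : 12 * C / th ≤ ell) (hell1 : 1 ≤ ell)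
    (he' : 0 < e') (her : 16 * L / th ≤ e) (hE : Tame p q ell C R a e E E1 E2)
    (hF : Tame p q ell C R' b e' F F1 F2) :
    |∫ t in p..q, om p q t * kap ε L (E t + lam * F t)| ≤
      7200 * C / (th ^ 3 * lam) * R * L / (e * e') := by
  have hL0 : 0 < L := lt_of_lt_of_le hε hL
  have hC0 : 0 < C := by linarith
  have hR0 : 0 < R := by linarith
  have he : 0 < e := lt_of_lt_of_le (by positivity) her
  have hell0 : 0 < ell := by linarith
  have hRHS : 0 ≤ 7200 * C / (th ^ 3 * lam) * R * L / (e * e') := by positivity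
  obtain ⟨s1, s2⟩ := slope (R := R) (R' := R') hth hth1 hC hlam hb hb1 hab hell hL0.le he her hE hF
  by_cases hall : ∀ t ∈ Set.Icc p q, L < |E t + lam * F t|
  · have h0 : ∫ t in p..q, om p q t * kap ε L (E t + lam * F t) = 0 := by
      have h1 : ∫ t in p..q, om p q t * kap ε L (E t + lam * F t) = ∫ _t in p..q, (0 : ℝ) := by
        refine intervalIntegral.integral_congr fun t ht => ?_
        rw [Set.uIcc_of_le hpq.le] at ht
        rw [kap_zero hε hL (hall t ht).le, mul_zero]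
      rw [h1, intervalIntegral.integral_zero]
    rw [h0, abs_zero]
    exact hRHS
  push Not at hall
  obtain ⟨t0, ht0, hf0⟩ := hall
  have hEabs : ∀ t ∈ Set.Icc p q, e / 4 ≤ |E t| := by
    intro t ht
    rcases hE.sgn with h | h
    · exact (h t ht).trans (le_abs_self _)
    · have := h t ht
      have h2 := neg_le_abs (E t)
      linarith
  have hFabs : e' / 4 ≤ |F t0| := by
    rcases hF.sgn with h | h
    · exact (h t0 ht0).trans (le_abs_self _)
    · have := h t0 ht0
      have h2 := neg_le_abs (F t0)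
      linarith
  have hle : lam * e' ≤ 8 * R * e := by
    have h1 := (s2 t0 ht0 hf0).2.1
    have h2 := hE.up t0 ht0
    have h3 : lam * (e' / 4) ≤ lam * |F t0| := mul_le_mul_of_nonneg_left hFabs hlam.le
    linarith
  -- the bound of `stat`
  have hm : 0 < th / 8 * ell * e := by positivity
  have hM : 0 ≤ 48 * C / (th ^ 2 * e) := by positivity
  have hst := stat hpq hq hε hL hm hM (fun t => E t + lam * F t) (fun t => E1 t + lam * F1 t)
    (fun t => E2 t + lam * F2 t) (fun t => (hE.d1 t).add ((hF.d1 t).const_mul lam))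
    (fun t => (hE.d2 t).add ((hF.d2 t).const_mul lam)) (hE.c2.add (continuous_const.mul hF.c2)) s1 (by
      intro t ht hft
      obtain ⟨k1, _, k3⟩ := s2 t ht hft
      have hA := hEabs t ht
      have hA0 : 0 < |E t| := by linarith
      have h1 : (th / 2 * ell * |E t|) ^ 2 ≤ (E1 t + lam * F1 t) ^ 2 := by
        rw [← sq_abs (E1 t + lam * F1 t)]
        exact pow_le_pow_left₀ (by positivity) k1 2
      have h2 : 48 * C / (th ^ 2 * e) * (th / 2 * ell * |E t|) ^ 2 ≤
          48 * C / (th ^ 2 * e) * (E1 t + lam * F1 t) ^ 2 := mul_le_mul_of_nonneg_left h1 hM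
      have h3 : 48 * C / (th ^ 2 * e) * (th / 2 * ell * |E t|) ^ 2 = 12 * C * ell ^ 2 * |E t| * (|E t| / e) := by
        field_simp
        ring
      have h4 : 1 / 4 ≤ |E t| / e := by
        rw [le_div_iff₀ he]
        linarith
      have h5 : 12 * C * ell ^ 2 * |E t| * (1 / 4) ≤ 12 * C * ell ^ 2 * |E t| * (|E t| / e) :=
        mul_le_mul_of_nonneg_left h4 (by positivity)
      linarith)
  refine hst.trans ?_
  have hm1 : th * e / 8 ≤ th / 8 * ell * e := by
    have : th * e / 8 * 1 ≤ th * e / 8 * ell := mul_le_mul_of_nonneg_left hell1 (by positivity)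
    linarith
  have hm2 : 1 / (th / 8 * ell * e) ≤ 8 * C / (th ^ 2 * e) := by
    have h1 : 1 / (th / 8 * ell * e) ≤ 1 / (th * e / 8) := one_div_le_one_div_of_le (by positivity) hm1
    have h2 : 1 / (th * e / 8) = 8 * th / (th ^ 2 * e) := by
      field_simp
    have h3 : 8 * th / (th ^ 2 * e) ≤ 8 * C / (th ^ 2 * e) :=
      div_le_div_of_nonneg_right (by linarith) (by positivity)
    linarith
  have hm3 : 2 * L / (th / 8 * ell * e) ≤ 16 * L / (th * e) := by
    have h1 : 2 * L / (th / 8 * ell * e) ≤ 2 * L / (th * e / 8) :=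
      div_le_div_of_nonneg_left (by positivity) (by positivity) hm1
    have h2 : 2 * L / (th * e / 8) = 16 * L / (th * e) := by
      field_simp
      ring
    linarith
  have h56 : 1 / (th / 8 * ell * e) + 48 * C / (th ^ 2 * e) ≤ 56 * C / (th ^ 2 * e) := by
    have : 8 * C / (th ^ 2 * e) + 48 * C / (th ^ 2 * e) = 56 * C / (th ^ 2 * e) := by ring
    linarith
  calc (1 / (th / 8 * ell * e) + 48 * C / (th ^ 2 * e)) * (2 * L / (th / 8 * ell * e)) ≤
      56 * C / (th ^ 2 * e) * (16 * L / (th * e)) :=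
        mul_le_mul h56 hm3 (by positivity) (by positivity)
    _ = 896 * C * L / (th ^ 3 * e ^ 2) := by
        field_simp
        ring
    _ ≤ 7200 * C * R * L / (th ^ 3 * lam * e * e') := by
        rw [div_le_div_iff₀ (by positivity) (by positivity)]
        have h1 : 896 * (lam * e') ≤ 7200 * R * e := by nlinarith [mul_pos hR0 he]
        have h2 : C * L * th ^ 3 * e * (896 * (lam * e')) ≤ C * L * th ^ 3 * e * (7200 * R * e) :=
          mul_le_mul_of_nonneg_left h1 (by positivity)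
        linarith
    _ = 7200 * C / (th ^ 3 * lam) * R * L / (e * e') := by
        field_simp

end Pool.Agent.Lib.MP_570bef_ntRE
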