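import Mathlib
import Pool.Agent.Lib.MP_570bef_ntRE.Stat
import Pool.Agent.Lib.MP_570bef_ntRE.Slope

/-!
# JOB PairCB: the pair bound, small `e` (about 110 lines)

`f = E + lam F`.  If `L < |f t|` for all `t ∈ [p, q]` the integral is `0`.  Otherwise there is `t0` with `|f t0| ≤ L`, and `lam e'/4 ≤ lam |F t0| ≤ |E t0| + L ≤ R e + L ≤ 17 R L/th` (`e < 16 L/th`, `R ≥ 1`, `th ≤ 1`), so `e' ≤ 68 R L/(th lam)`.
`|J| ≤ ∫ |kap (f t)| dt` (`|om| ≤ 1`).  Pointwise `|kap x| ≤ (2/ε) g x + 2/L` with `g x = cl (2 - |x|/ε)` (for `|x| ≤ ε`: `g x = 1`, `kap_le`; otherwise `kap_le_far`).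
`slope` with `r = 2 ε` (`e ≥ 32 ε/th`) and `sub_int` with `R = 2 ε`, `m = th/8 * ell * e`: `∫ g (f t) ≤ 4 ε/m` (`0 ≤ g ≤ 1` on `[-2ε, 2ε]`, `g = 0` outside).
So `|J| ≤ 8/m + 2/L ≤ 64/(th e) + 32/(th e) = 96/(th e)` (`ell ≥ 1`, `q - p ≤ 1`, `2/L ≤ 32/(th e)`), and `1 ≤ 68 R L/(th lam e')`.
-/

namespace Pool.Agent.Lib.MP_570bef_ntRE

private noncomputable def pairCB_g (ε x : ℝ) : ℝ := cl (2 - |x| / ε)

private theorem pairCB_g_cont (ε : ℝ) : Continuous (pairCB_g ε) := by
  unfold pairCB_g
  exact cl_cont.comp (continuous_const.sub (continuous_abs.div_const ε))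

private theorem pairCB_point {ε L : ℝ} (hε : 0 < ε) (hL : ε ≤ L) (x : ℝ) :
    |kap ε L x| ≤ 2 / ε * pairCB_g ε x + 2 / L := by
  have hL0 : 0 < L := hε.trans_le hL
  have h0 : 0 ≤ pairCB_g ε x := cl_nonneg _
  by_cases hx : |x| ≤ ε
  · have h1 : pairCB_g ε x = 1 := by
      unfold pairCB_g
      refine cl_one ?_
      have h2 : |x| / ε ≤ 1 := (div_le_one hε).2 hx
      linarith
    rw [h1, mul_one]
    have h2 := kap_le hε hL x
    have h3 : 0 < 2 / L := by positivity
    linarith
  · push Not at hx
    have h2 := kap_le_far hε hL hx.le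
    have h3 : 0 ≤ 2 / ε * pairCB_g ε x := by positivity
    linarith

private theorem pairCB_om {p q t : ℝ} (hq : q ≤ p + 1) (ht : t ∈ Set.Icc p q) :
    |om p q t| ≤ 1 := by
  obtain ⟨h1, h2⟩ := ht
  unfold om
  have h3 : 0 ≤ t - p := by linarith
  have h4 : 0 ≤ q - t := by linarith
  rw [abs_of_nonneg (mul_nonneg h3 h4)]
  have h5 : t - p ≤ 1 := by linarith
  have h6 : q - t ≤ 1 := by linarith
  exact mul_le_one₀ h5 h4 h6

private theorem pairCB_int {p q ε L I : ℝ} (hpq : p < q) (hq : q ≤ p + 1) (hε : 0 < ε)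
    (hL : ε ≤ L) {f : ℝ → ℝ} (hf : Continuous f)
    (hI : ∫ t in p..q, pairCB_g ε (f t) ≤ I) :
    |∫ t in p..q, om p q t * kap ε L (f t)| ≤ 2 / ε * I + 2 / L := by
  have hL0 : 0 < L := hε.trans_le hL
  have homc : Continuous fun t => om p q t := by
    unfold om
    fun_prop
  have hkc : Continuous fun t => kap ε L (f t) := (kap_cont ε L).comp hf
  have hgc : Continuous fun t => pairCB_g ε (f t) := (pairCB_g_cont ε).comp hf
  refine (intervalIntegral.abs_integral_le_integral_abs hpq.le).trans ?_
  have h1 : ∫ t in p..q, |om p q t * kap ε L (f t)| ≤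
      ∫ t in p..q, (2 / ε * pairCB_g ε (f t) + 2 / L) := by
    refine intervalIntegral.integral_mono_on hpq.le
      ((homc.mul hkc).abs.intervalIntegrable _ _)
      (((continuous_const.mul hgc).add continuous_const).intervalIntegrable _ _) fun t ht => ?_
    rw [abs_mul]
    have h2 := pairCB_om hq ht
    have h3 := pairCB_point hε hL (f t)
    have h4 : |om p q t| * |kap ε L (f t)| ≤ 1 * |kap ε L (f t)| :=
      mul_le_mul_of_nonneg_right h2 (abs_nonneg _)
    linarith
  refine h1.trans ?_
  have hgc2 : Continuous fun t => 2 / ε * pairCB_g ε (f t) := continuous_const.mul hgc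
  rw [intervalIntegral.integral_add (hgc2.intervalIntegrable _ _)
    (continuous_const.intervalIntegrable _ _), intervalIntegral.integral_const_mul,
    intervalIntegral.integral_const, smul_eq_mul]
  have h2 : 2 / ε * ∫ t in p..q, pairCB_g ε (f t) ≤ 2 / ε * I :=
    mul_le_mul_of_nonneg_left hI (by positivity)
  have h3 : (q - p) * (2 / L) ≤ 1 * (2 / L) :=
    mul_le_mul_of_nonneg_right (by linarith) (by positivity)
  linarith

theorem pairCB {p q ell C R R' a b e e' th lam ε L : ℝ} {E E1 E2 F F1 F2 : ℝ → ℝ}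
    (hpq : p < q) (hq : q ≤ p + 1) (hε : 0 < ε) (hL : ε ≤ L)
    (hth : 0 < th) (hth1 : th ≤ 1) (hC : 1 ≤ C) (hlam : 0 < lam) (hR : 1 ≤ R) (hb : 0 < b)
    (hb1 : b ≤ 1) (hab : th ≤ |a - b|) (hell : 12 * C / th ≤ ell) (hell1 : 1 ≤ ell)
    (he : 32 * ε / th ≤ e) (he' : 0 < e') (her : e < 16 * L / th)
    (hE : Tame p q ell C R a e E E1 E2) (hF : Tame p q ell C R' b e' F F1 F2) :
    |∫ t in p..q, om p q t * kap ε L (E t + lam * F t)| ≤
      6528 / (th ^ 2 * lam) * R * L / (e * e') := by
  have he0 : 0 < e := lt_of_lt_of_le (by positivity) he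
  have hL0 : 0 < L := hε.trans_le hL
  have hEc : Continuous E := continuous_iff_continuousAt.2 fun t => (hE.d1 t).continuousAt
  have hE1c : Continuous E1 := continuous_iff_continuousAt.2 fun t => (hE.d2 t).continuousAt
  have hFc : Continuous F := continuous_iff_continuousAt.2 fun t => (hF.d1 t).continuousAt
  have hF1c : Continuous F1 := continuous_iff_continuousAt.2 fun t => (hF.d2 t).continuousAt
  have hfc : Continuous fun t => E t + lam * F t := hEc.add (continuous_const.mul hFc)
  have hR0 : 0 < R := by linarith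
  by_cases hfar : ∀ t ∈ Set.Icc p q, L < |E t + lam * F t|
  · have h1 := triv hpq hq ε L (fun t => E t + lam * F t) (K := 0) (fun t ht => by
      rw [kap_zero hε hL (hfar t ht).le, abs_zero])
    refine h1.trans ?_
    positivity
  · push Not at hfar
    obtain ⟨t0, ht0, hft0⟩ := hfar
    have hF0 : e' / 4 ≤ |F t0| := by
      rcases hF.sgn with h | h
      · exact (h t0 ht0).trans (le_abs_self _)
      · have h1 := h t0 ht0
        have h2 := neg_abs_le (F t0)
        have h3 := neg_le_abs (F t0)
        linarith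
    have hlF : lam * |F t0| ≤ |E t0| + L := by
      have h1 : lam * F t0 = (E t0 + lam * F t0) - E t0 := by ring
      calc lam * |F t0| = |lam * F t0| := by rw [abs_mul, abs_of_pos hlam]
        _ = |(E t0 + lam * F t0) - E t0| := by rw [← h1]
        _ ≤ |E t0 + lam * F t0| + |E t0| := abs_sub _ _
        _ ≤ |E t0| + L := by linarith
    have hup := hE.up t0 ht0
    have hthe : th * e < 16 * L := by
      rw [lt_div_iff₀ hth] at her
      linarith
    have he1 : th * (lam * e') ≤ 68 * R * L := by
      have h1 : lam * (e' / 4) ≤ R * e + L := by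
        have h2 := mul_le_mul_of_nonneg_left hF0 hlam.le
        linarith
      have h3 : th * (lam * (e' / 4)) ≤ th * (R * e + L) := mul_le_mul_of_nonneg_left h1 hth.le
      have h4 : th * (R * e + L) = R * (th * e) + th * L := by ring
      have h5 : R * (th * e) ≤ R * (16 * L) := mul_le_mul_of_nonneg_left hthe.le hR0.le
      have h6 : th * L ≤ R * L := mul_le_mul_of_nonneg_right (hth1.trans hR) hL0.le
      linarith
    -- the main bound
    have hell0 : 0 < ell := by linarith
    have hm : 0 < th / 8 * ell * e := by positivity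
    have hsl := (slope (r := 2 * ε) hth hth1 hC hlam hb hb1 hab hell (by positivity) he0 (by
      have h1 : 16 * (2 * ε) / th = 32 * ε / th := by ring
      rw [h1]
      exact he) hE hF).1
    have hgint : ∫ t in p..q, pairCB_g ε (E t + lam * F t) ≤
        (∫ x in (-(2 * ε))..(2 * ε), pairCB_g ε x) / (th / 8 * ell * e) :=
      sub_int hpq.le hm (by positivity) (pairCB_g ε) (pairCB_g_cont ε) (fun x => cl_nonneg _)
        (fun x hx => by
          unfold pairCB_g
          refine cl_zero ?_
          have h1 : 2 < |x| / ε := by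
            rw [lt_div_iff₀ hε]
            exact hx
          linarith)
        (fun t => E t + lam * F t) (fun t => E1 t + lam * F1 t)
        (fun t => (hE.d1 t).add ((hF.d1 t).const_mul lam))
        (hE1c.add (continuous_const.mul hF1c)) hsl
    have hg4 : ∫ x in (-(2 * ε))..(2 * ε), pairCB_g ε x ≤ 4 * ε := by
      have h1 : ∫ x in (-(2 * ε))..(2 * ε), pairCB_g ε x ≤
          ∫ x in (-(2 * ε))..(2 * ε), (1 : ℝ) :=
        intervalIntegral.integral_mono_on (by linarith)
          ((pairCB_g_cont ε).intervalIntegrable _ _)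
          (continuous_const.intervalIntegrable _ _) fun x _ => cl_le_one _
      rw [intervalIntegral.integral_const, smul_eq_mul] at h1
      linarith
    have hI : ∫ t in p..q, pairCB_g ε (E t + lam * F t) ≤ 4 * ε / (th / 8 * ell * e) :=
      hgint.trans (div_le_div_of_nonneg_right hg4 hm.le)
    have hJ := pairCB_int hpq hq hε hL hfc hI
    have h8 : 2 / ε * (4 * ε / (th / 8 * ell * e)) ≤ 64 / (th * e) := by
      have h9 : 2 / ε * (4 * ε / (th / 8 * ell * e)) = 64 / (th * e) / ell := by
        field_simp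
        ring
      rw [h9]
      exact div_le_self (by positivity) hell1
    have h10 : 2 / L ≤ 32 / (th * e) := by
      rw [div_le_div_iff₀ hL0 (by positivity)]
      linarith
    have h11 : |∫ t in p..q, om p q t * kap ε L (E t + lam * F t)| ≤ 96 / (th * e) := by
      have h12 : 64 / (th * e) + 32 / (th * e) = 96 / (th * e) := by ring
      linarith
    refine h11.trans ?_
    rw [div_le_div_iff₀ (by positivity) (by positivity)]
    have h13 : 6528 / (th ^ 2 * lam) * R * L * (th * e) =
        96 * e * (68 * R * L) / (th * lam) := by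
      field_simp
      ring
    rw [h13, le_div_iff₀ (by positivity)]
    have h14 := mul_le_mul_of_nonneg_left he1 (by positivity : 0 ≤ 96 * e)
    linarith

end Pool.Agent.Lib.MP_570bef_ntRE
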