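import Mathlib
import Pool.Agent.Lib.MP_570bef_ntRE.PairCA
import Pool.Agent.Lib.MP_570bef_ntRE.PairCB

/-!
# JOB PairC: the pair bound in all cases (about 30 lines)

`16 L/th ≤ e`: `pairCA`; otherwise `pairCB`.  `K = 7200 C/(th^3 lam)` bounds both constants (`th ≤ 1 ≤ C`).
-/

namespace Pool.Agent.Lib.MP_570bef_ntRE

theorem pairC {p q ell C R R' a b e e' th lam ε L : ℝ} {E E1 E2 F F1 F2 : ℝ → ℝ}
    (hpq : p < q) (hq : q ≤ p + 1) (hε : 0 < ε) (hL : ε ≤ L)
    (hth : 0 < th) (hth1 : th ≤ 1) (hC : 1 ≤ C) (hlam : 0 < lam) (hR : 1 ≤ R) (hb : 0 < b)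
    (hb1 : b ≤ 1) (hab : th ≤ |a - b|) (hell : 12 * C / th ≤ ell) (hell1 : 1 ≤ ell)
    (he : 32 * ε / th ≤ e) (he' : 0 < e')
    (hE : Tame p q ell C R a e E E1 E2) (hF : Tame p q ell C R' b e' F F1 F2) :
    |∫ t in p..q, om p q t * kap ε L (E t + lam * F t)| ≤
      7200 * C / (th ^ 3 * lam) * R * L / (e * e') := by
  rcases le_or_gt (16 * L / th) e with h | h
  · exact pairCA hpq hq hε hL hth hth1 hC hlam hR hb hb1 hab hell hell1 he' h hE hF
  · have h0 : 0 < e := lt_of_lt_of_le (by positivity) he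
    have hL0 : 0 < L := hε.trans_le hL
    refine (pairCB hpq hq hε hL hth hth1 hC hlam hR hb hb1 hab hell hell1 he he' h hE hF).trans ?_
    have h1 : 6528 / (th ^ 2 * lam) ≤ 7200 * C / (th ^ 3 * lam) := by
      rw [div_le_div_iff₀ (by positivity) (by positivity)]
      have h2 : th ^ 3 * lam ≤ th ^ 2 * lam * C := by
        have : th ^ 3 ≤ th ^ 2 * C := by nlinarith [pow_pos hth 2]
        nlinarith
      have h3 : 0 < th ^ 2 * lam * C := by positivity
      nlinarith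
    gcongr

end Pool.Agent.Lib.MP_570bef_ntRE
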