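import Mathlib
import Pool.Agent.Lib.MP_570bef_ntRE.Blk

/-!
# JOB SumK: the spacing sum (about 200 lines)

Induction on `s`, `b` and `δ` general.  `s = 0`: `U` has one element, the sum is empty.
`s + 1`: let `δ1 = p - 1 - σ p > 0`.  For `n ≠ n'` in `blk (P^b)` and `w, w' ∈ U s σ (b σ) P`: by `top_diff`, `S_le`, `S_cons`
`|S (n::w) p - S (n'::w') p| ≥ P^(b(p-1)) |n - n'| - s (16 P^(bσ))^p ≥ (1/2) P^(b(p-1)) |n - n'|` for `P ≥ P0`, as `b σ p < b (p - 1)` and `|n - n'| ≥ 1`.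
For `u = n::w` split the sum over `u' = n'::w' ≠ u` (`sum_U_succ`, or `Finset.sum_erase`/`if`) in `n' ≠ n` and `n' = n, w' ≠ w`.
First part `≤ |U s σ (bσ) P| * (2 P^(-b(p-1))) * ∑_(n' ∈ blk, n' ≠ n) 1/|n - n'|`, with `∑_(n' ∈ blk X, n' ≠ n) 1/|n - n'| ≤ 2 (1 + log (16 X))` (harmonic sum; any bound `C (1 + log P)` or `C P^(δ/4)` will do), and `|U s σ (bσ) P| ≤ 16^s P^(b σ (1 - σ^s)/(1 - σ))`.
Exponent: `σ/(1 - σ) ≤ p - 1` (from `σ p < p - 1`), so `b σ (1 - σ^s)/(1 - σ) - b (p - 1) ≤ -b (p - 1) σ^s`.  The first part is `≤ (1/2) P^(δ - b (p-1) σ^s)` for `P ≥ P0`.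
Second part (`S_cons`: the difference is that of the tails): induction hypothesis with `b σ`, `δ/2`: `≤ P^(δ/2 - b σ (p-1) σ^s/σ) ≤ (1/2) P^(δ - b (p-1) σ^s)`.
And `b (p - 1) σ^(s+1)/σ = b (p-1) σ^s`.
`pos_diff` (same induction): two different tuples have different sums, with a growing lower bound; or directly from the first differing index.
-/

namespace Pool.Agent.Lib.MP_570bef_ntRE

open Finset

private theorem SumK_sigma {σ p : ℝ} (hσ : 0 < σ) (hp : 1 < p) (gap : σ * p < p - 1) : σ < 1 := by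
  by_contra h
  push Not at h
  nlinarith

/-- eventually `M ≤ P ^ e` -/
private theorem SumK_ev {e : ℝ} (he : 0 < e) (M : ℝ) : ∀ᶠ P : ℝ in Filter.atTop, M ≤ P ^ e :=
  (tendsto_rpow_atTop he).eventually_ge_atTop M

private theorem SumK_head (s : ℕ) {σ p : ℝ} (hσ : 0 < σ) (hp : 1 < p) (gap : σ * p < p - 1)
    {b : ℝ} (hb : 0 < b) :
    ∀ᶠ P : ℝ in Filter.atTop, ∀ n ∈ blk (P ^ b), ∀ n' ∈ blk (P ^ b), n ≠ n' →
      ∀ w ∈ U s σ (b * σ) P, ∀ w' ∈ U s σ (b * σ) P,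
        1 / 2 * P ^ (b * (p - 1)) * |(n : ℝ) - n'| ≤
          |S (Fin.cons n w : Fin (s + 1) → ℕ) p - S (Fin.cons n' w' : Fin (s + 1) → ℕ) p| := by
  have hσ1 := SumK_sigma hσ hp gap
  have he : 0 < b * (p - 1 - σ * p) := mul_pos hb (by linarith)
  filter_upwards [SumK_ev he (2 * (s * (16 : ℝ) ^ p)), Filter.eventually_ge_atTop 1] with P hP hP1
  intro n hn n' hn' hne w hw w' hw'
  have hP0 : 0 < P := by linarith
  have hX : 1 ≤ P ^ b := Real.one_le_rpow hP1 hb.le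
  have h1 := (mem_blk (by linarith)).1 hn
  have h2 := (mem_blk (by linarith)).1 hn'
  have h3 := top_diff hX hp.le h1.1 h2.1
  have e1 : (P ^ b) ^ (p - 1) = P ^ (b * (p - 1)) := by rw [← Real.rpow_mul hP0.le]
  rw [e1] at h3
  have hbσ : 0 ≤ b * σ := by positivity
  have h4 := S_le hσ hσ1 hbσ hP1 (by linarith : (0 : ℝ) ≤ p) hw
  have h5 := S_le hσ hσ1 hbσ hP1 (by linarith : (0 : ℝ) ≤ p) hw'
  have h6 := S_nonneg w p
  have h7 := S_nonneg w' p
  have hdiff : |S w p - S w' p| ≤ s * (16 * P ^ (b * σ)) ^ p := by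
    rw [abs_le]
    constructor <;> linarith
  have hsmall : (s : ℝ) * (16 * P ^ (b * σ)) ^ p ≤ 1 / 2 * P ^ (b * (p - 1)) := by
    rw [Real.mul_rpow (by norm_num) (Real.rpow_nonneg hP0.le _), ← Real.rpow_mul hP0.le]
    have e2 : P ^ (b * (p - 1)) = P ^ (b * σ * p) * P ^ (b * (p - 1 - σ * p)) := by
      rw [← Real.rpow_add hP0]
      congr 1
      ring
    rw [e2]
    have h8 : 0 < P ^ (b * σ * p) := Real.rpow_pos_of_pos hP0 _
    have h9 := mul_le_mul_of_nonneg_left hP h8.le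
    linarith only [h9]
  have habs : 1 ≤ |(n : ℝ) - n'| := by
    have h10 : (1 : ℤ) ≤ |(n : ℤ) - n'| := Int.one_le_abs (sub_ne_zero.2 (by exact_mod_cast hne))
    have h11 : ((1 : ℤ) : ℝ) ≤ ((|(n : ℤ) - n'| : ℤ) : ℝ) := by exact_mod_cast h10
    push_cast at h11
    exact h11
  rw [S_cons, S_cons]
  have h12 : |(n : ℝ) ^ p - (n' : ℝ) ^ p| - |S w p - S w' p| ≤
      |(n : ℝ) ^ p + S w p - ((n' : ℝ) ^ p + S w' p)| := by
    have e3 : (n : ℝ) ^ p + S w p - ((n' : ℝ) ^ p + S w' p) =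
        ((n : ℝ) ^ p - (n' : ℝ) ^ p) - (S w' p - S w p) := by ring
    rw [e3, abs_sub_comm (S w p)]
    exact abs_sub_abs_le_abs_sub _ _
  have h13 : 0 < P ^ (b * (p - 1)) := Real.rpow_pos_of_pos hP0 _
  have h14 : 1 / 2 * P ^ (b * (p - 1)) ≤ 1 / 2 * P ^ (b * (p - 1)) * |(n : ℝ) - n'| := by
    have := mul_le_mul_of_nonneg_left habs (by positivity : 0 ≤ 1 / 2 * P ^ (b * (p - 1)))
    linarith only [this]
  linarith only [h3, h12, hdiff, hsmall, h14]

private theorem SumK_half (M : ℕ) (n : ℕ) (T : Finset ℕ) (f : ℕ → ℕ)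
    (hf : ∀ m ∈ T, 1 ≤ f m ∧ f m ≤ M) (hinj : Set.InjOn f T) :
    ∑ m ∈ T, 1 / (f m : ℝ) ≤ 1 + Real.log M := by
  have h1 : ∑ m ∈ T, 1 / (f m : ℝ) = ∑ k ∈ T.image f, 1 / (k : ℝ) := by
    rw [sum_image hinj]
  have h2 : ∑ k ∈ T.image f, 1 / (k : ℝ) ≤ ∑ k ∈ Icc 1 M, 1 / (k : ℝ) := by
    refine sum_le_sum_of_subset_of_nonneg ?_ fun _ _ _ => by positivity
    intro k hk
    obtain ⟨m, hm, rfl⟩ := mem_image.1 hk
    exact mem_Icc.2 (hf m hm)
  have h3 : ∑ k ∈ Icc 1 M, 1 / (k : ℝ) ≤ 1 + Real.log M := by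
    have h4 := harmonic_le_one_add_log M
    have h5 : ((harmonic M : ℚ) : ℝ) = ∑ k ∈ Icc 1 M, 1 / (k : ℝ) := by
      rw [harmonic_eq_sum_Icc]
      push_cast
      simp only [one_div]
    rwa [h5] at h4
  rw [h1]
  exact h2.trans h3

private theorem SumK_harm {X : ℝ} (hX : 1 ≤ X) {n : ℕ} (hn : n ∈ blk X) :
    ∑ n' ∈ (blk X).erase n, 1 / |(n : ℝ) - n'| ≤ 2 * (1 + Real.log (16 * X)) := by
  have hX0 : 0 ≤ X := by linarith
  have hn1 := (mem_blk hX0).1 hn
  have hM : (⌊16 * X⌋₊ : ℝ) ≤ 16 * X := Nat.floor_le (by linarith)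
  have hM1 : 1 ≤ ⌊16 * X⌋₊ := Nat.le_floor (by push_cast; linarith)
  have hle : ∀ m ∈ blk X, m ≤ ⌊16 * X⌋₊ := fun m hm => Nat.le_floor ((mem_blk hX0).1 hm).2
  have hlog : Real.log (⌊16 * X⌋₊ : ℝ) ≤ Real.log (16 * X) :=
    Real.log_le_log (by exact_mod_cast hM1) hM
  have hsplit : (blk X).erase n = (blk X).filter (fun m => m < n) ∪ (blk X).filter (fun m => n < m) := by
    ext m
    rw [mem_erase, mem_union, mem_filter, mem_filter]
    constructor
    · rintro ⟨h1, h2⟩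
      rcases lt_or_gt_of_ne h1 with h3 | h3
      · exact Or.inl ⟨h2, h3⟩
      · exact Or.inr ⟨h2, h3⟩
    · rintro (⟨h1, h2⟩ | ⟨h1, h2⟩)
      · exact ⟨h2.ne, h1⟩
      · exact ⟨h2.ne', h1⟩
  have hdisj : Disjoint ((blk X).filter (fun m => m < n)) ((blk X).filter (fun m => n < m)) := by
    rw [disjoint_left]
    intro m h1 h2
    have h3 := (mem_filter.1 h1).2
    have h4 := (mem_filter.1 h2).2
    omega
  rw [hsplit, sum_union hdisj]
  have p1 : ∑ m ∈ (blk X).filter (fun m => m < n), 1 / |(n : ℝ) - m| ≤ 1 + Real.log (16 * X) := by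
    have h1 : ∑ m ∈ (blk X).filter (fun m => m < n), 1 / |(n : ℝ) - m| =
        ∑ m ∈ (blk X).filter (fun m => m < n), 1 / (((n - m : ℕ) : ℕ) : ℝ) := by
      refine sum_congr rfl fun m hm => ?_
      have h2 := (mem_filter.1 hm).2
      have h3 : (m : ℝ) < n := by exact_mod_cast h2
      rw [abs_of_pos (by linarith), Nat.cast_sub h2.le]
    rw [h1]
    refine (SumK_half ⌊16 * X⌋₊ n _ (fun m => n - m) ?_ ?_).trans (by linarith)
    · intro m hm
      have h2 := (mem_filter.1 hm).2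
      have h3 := hle n hn
      exact ⟨by omega, by omega⟩
    · intro m hm m' hm' he
      have h2 := (mem_filter.1 hm).2
      have h3 := (mem_filter.1 hm').2
      change n - m = n - m' at he
      omega
  have p2 : ∑ m ∈ (blk X).filter (fun m => n < m), 1 / |(n : ℝ) - m| ≤ 1 + Real.log (16 * X) := by
    have h1 : ∑ m ∈ (blk X).filter (fun m => n < m), 1 / |(n : ℝ) - m| =
        ∑ m ∈ (blk X).filter (fun m => n < m), 1 / (((m - n : ℕ) : ℕ) : ℝ) := by
      refine sum_congr rfl fun m hm => ?_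
      have h2 := (mem_filter.1 hm).2
      have h3 : (n : ℝ) < m := by exact_mod_cast h2
      rw [abs_sub_comm, abs_of_pos (by linarith), Nat.cast_sub h2.le]
    rw [h1]
    refine (SumK_half ⌊16 * X⌋₊ n _ (fun m => m - n) ?_ ?_).trans (by linarith)
    · intro m hm
      have h2 := (mem_filter.1 hm).2
      have h3 := hle m (mem_filter.1 hm).1
      exact ⟨by omega, by omega⟩
    · intro m hm m' hm' he
      have h2 := (mem_filter.1 hm).2
      have h3 := (mem_filter.1 hm').2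
      change m - n = m' - n at he
      omega
  linarith

private theorem SumK_log {δ b : ℝ} (hδ : 0 < δ) (hb : 0 < b) :
    ∀ᶠ P : ℝ in Filter.atTop, 2 * (1 + Real.log (16 * P ^ b)) ≤ P ^ δ := by
  have h1 : ∀ᶠ x : ℝ in Filter.atTop, ‖Real.log x‖ ≤ 1 / (4 * b) * ‖x ^ δ‖ :=
    (isLittleO_log_rpow_atTop hδ).bound (by positivity)
  filter_upwards [h1, SumK_ev hδ (4 * (1 + Real.log 16)), Filter.eventually_ge_atTop 1] with P h2 h3 hP1
  have hP0 : 0 < P := by linarith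
  have h4 : 0 < P ^ δ := Real.rpow_pos_of_pos hP0 _
  rw [Real.norm_eq_abs, Real.norm_eq_abs, abs_of_pos h4] at h2
  have h5 := (le_abs_self _).trans h2
  have h6 : b * Real.log P ≤ 1 / 4 * P ^ δ := by
    have h7 := mul_le_mul_of_nonneg_left h5 hb.le
    have h8 : b * (1 / (4 * b) * P ^ δ) = 1 / 4 * P ^ δ := by
      field_simp
    rwa [h8] at h7
  rw [Real.log_mul (by norm_num) (Real.rpow_pos_of_pos hP0 _).ne', Real.log_rpow hP0]
  linarith only [h6, h3]

theorem sumK (s : ℕ) {σ p : ℝ} (hσ : 0 < σ) (hp : 1 < p) (gap : σ * p < p - 1) :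
    ∀ b : ℝ, 0 < b → b ≤ 1 → ∀ δ : ℝ, 0 < δ → ∃ P0 : ℝ, 1 ≤ P0 ∧ ∀ P ≥ P0, ∀ u ∈ U s σ b P,
      ∑ u' ∈ (U s σ b P).erase u, 1 / |S u p - S u' p| ≤
        P ^ (δ - b * (p - 1) * σ ^ s / σ) := by
  have hσ1 := SumK_sigma hσ hp gap
  induction s with
  | zero =>
    intro b _ _ δ _
    refine ⟨1, le_rfl, fun P hP u _ => ?_⟩
    have h1 : (U 0 σ b P).erase u = ∅ := by
      ext v
      simp only [mem_erase, notMem_empty, iff_false, not_and]
      intro hv
      exact absurd (Subsingleton.elim v u) hv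
    rw [h1, sum_empty]
    exact Real.rpow_nonneg (by linarith) _
  | succ s ih =>
    intro b hb hb1 δ hδ
    have hbσ : 0 < b * σ := mul_pos hb hσ
    have hbσ1 : b * σ ≤ 1 := by nlinarith
    obtain ⟨P1, -, hP1⟩ := ih (b * σ) hbσ hbσ1 (δ / 2) (by linarith)
    have hall := (SumK_head s hσ hp gap hb).and ((SumK_log (δ := δ / 4) (by linarith) hb).and
      ((SumK_ev (e := 3 * δ / 4) (by linarith) (4 * 16 ^ s)).and
        ((SumK_ev (e := δ / 2) (by linarith) 2).and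
          ((Filter.eventually_ge_atTop P1).and (Filter.eventually_ge_atTop 1)))))
    obtain ⟨P0, hP0⟩ := Filter.eventually_atTop.1 hall
    refine ⟨max P0 1, le_max_right _ _, fun P hP u hu => ?_⟩
    obtain ⟨hhead, hlog, h16, h2, hPP1, hPone⟩ := hP0 P ((le_max_left _ _).trans hP)
    have hPpos : 0 < P := by linarith
    obtain ⟨n, w, rfl⟩ : ∃ (n : ℕ) (w : Fin s → ℕ), u = (Fin.cons n w : Fin (s + 1) → ℕ) :=
      ⟨u 0, Fin.tail u, (Fin.cons_self_tail u).symm⟩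
    obtain ⟨hn, hw⟩ := mem_U_cons.1 hu
    have hX : 1 ≤ P ^ b := Real.one_le_rpow hPone hb.le
    -- rewriting the sum
    have e1 : ∑ u' ∈ (U (s + 1) σ b P).erase (Fin.cons n w : Fin (s + 1) → ℕ),
        1 / |S (Fin.cons n w : Fin (s + 1) → ℕ) p - S u' p| =
        ∑ u' ∈ U (s + 1) σ b P, if u' ≠ (Fin.cons n w : Fin (s + 1) → ℕ) then
          1 / |S (Fin.cons n w : Fin (s + 1) → ℕ) p - S u' p| else 0 := by
      rw [← sum_filter, filter_ne']
    rw [e1, sum_U_succ, ← add_sum_erase _ _ hn]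
    -- the part `n' = n`
    have q1 : ∑ w' ∈ U s σ (b * σ) P,
        (if (Fin.cons n w' : Fin (s + 1) → ℕ) ≠ (Fin.cons n w : Fin (s + 1) → ℕ) then
          1 / |S (Fin.cons n w : Fin (s + 1) → ℕ) p - S (Fin.cons n w' : Fin (s + 1) → ℕ) p|
          else 0) ≤ 1 / 2 * P ^ (δ - b * (p - 1) * σ ^ (s + 1) / σ) := by
      have f1 : ∑ w' ∈ U s σ (b * σ) P,
          (if (Fin.cons n w' : Fin (s + 1) → ℕ) ≠ (Fin.cons n w : Fin (s + 1) → ℕ) then
            1 / |S (Fin.cons n w : Fin (s + 1) → ℕ) p - S (Fin.cons n w' : Fin (s + 1) → ℕ) p|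
            else 0) = ∑ w' ∈ (U s σ (b * σ) P).erase w, 1 / |S w p - S w' p| := by
        rw [← filter_ne', sum_filter]
        refine sum_congr rfl fun w' _ => ?_
        have f2 : ((Fin.cons n w' : Fin (s + 1) → ℕ) ≠ (Fin.cons n w : Fin (s + 1) → ℕ)) ↔
            w' ≠ w := by
          rw [Ne, Fin.cons_right_injective (α := fun _ => ℕ) n |>.eq_iff]
        rw [S_cons, S_cons, add_sub_add_left_eq_sub]
        by_cases hww : w' = w
        · rw [if_neg (fun hc => (f2.1 hc) hww), if_neg (fun hc => hc hww)]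
        · rw [if_pos (f2.2 hww), if_pos hww]
      rw [f1]
      refine (hP1 P hPP1 w hw).trans ?_
      have e2 : δ - b * (p - 1) * σ ^ (s + 1) / σ = (δ / 2 - b * σ * (p - 1) * σ ^ s / σ) + δ / 2 := by
        rw [pow_succ]
        ring
      rw [e2, Real.rpow_add hPpos]
      have h3 : 0 < P ^ (δ / 2 - b * σ * (p - 1) * σ ^ s / σ) := Real.rpow_pos_of_pos hPpos _
      have h4 := mul_le_mul_of_nonneg_left h2 h3.le
      linarith only [h4]
    -- the part `n' ≠ n`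
    have q2 : ∑ n' ∈ (blk (P ^ b)).erase n, ∑ w' ∈ U s σ (b * σ) P,
        (if (Fin.cons n' w' : Fin (s + 1) → ℕ) ≠ (Fin.cons n w : Fin (s + 1) → ℕ) then
          1 / |S (Fin.cons n w : Fin (s + 1) → ℕ) p - S (Fin.cons n' w' : Fin (s + 1) → ℕ) p|
          else 0) ≤ 1 / 2 * P ^ (δ - b * (p - 1) * σ ^ (s + 1) / σ) := by
      have g1 : ∀ n' ∈ (blk (P ^ b)).erase n, ∑ w' ∈ U s σ (b * σ) P,
          (if (Fin.cons n' w' : Fin (s + 1) → ℕ) ≠ (Fin.cons n w : Fin (s + 1) → ℕ) then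
            1 / |S (Fin.cons n w : Fin (s + 1) → ℕ) p - S (Fin.cons n' w' : Fin (s + 1) → ℕ) p|
            else 0) ≤ ((U s σ (b * σ) P).card * (2 * P ^ (-(b * (p - 1))))) * (1 / |(n : ℝ) - n'|) := by
        intro n' hn'
        obtain ⟨hne, hn'2⟩ := mem_erase.1 hn'
        have g2 : ∀ w' ∈ U s σ (b * σ) P,
            (if (Fin.cons n' w' : Fin (s + 1) → ℕ) ≠ (Fin.cons n w : Fin (s + 1) → ℕ) then
              1 / |S (Fin.cons n w : Fin (s + 1) → ℕ) p - S (Fin.cons n' w' : Fin (s + 1) → ℕ) p|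
              else 0) ≤ (2 * P ^ (-(b * (p - 1)))) * (1 / |(n : ℝ) - n'|) := by
          intro w' hw'
          have g3 := hhead n hn n' hn'2 (Ne.symm hne) w hw w' hw'
          have g4 : 0 < |(n : ℝ) - n'| :=
            abs_pos.2 (sub_ne_zero.2 (by exact_mod_cast (Ne.symm hne)))
          have g5 : 0 < P ^ (b * (p - 1)) := Real.rpow_pos_of_pos hPpos _
          have g6 : 1 / |S (Fin.cons n w : Fin (s + 1) → ℕ) p -
              S (Fin.cons n' w' : Fin (s + 1) → ℕ) p| ≤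
              (2 * P ^ (-(b * (p - 1)))) * (1 / |(n : ℝ) - n'|) := by
            have g7 : (2 * P ^ (-(b * (p - 1)))) * (1 / |(n : ℝ) - n'|) =
                1 / (1 / 2 * P ^ (b * (p - 1)) * |(n : ℝ) - n'|) := by
              rw [Real.rpow_neg hPpos.le]
              field_simp
            rw [g7]
            exact one_div_le_one_div_of_le (by positivity) g3
          split_ifs
          · exact g6
          · positivity
        refine (sum_le_card_nsmul _ _ _ g2).trans ?_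
        rw [nsmul_eq_mul]
        exact le_of_eq (by ring)
      refine (sum_le_sum g1).trans ?_
      rw [← mul_sum]
      have g8 := SumK_harm hX hn
      have g9 := U_card_le s hσ hσ1 hbσ.le hPone
      have g10 : (((U s σ (b * σ) P).card : ℝ) * (2 * P ^ (-(b * (p - 1))))) *
          ∑ n' ∈ (blk (P ^ b)).erase n, 1 / |(n : ℝ) - n'| ≤
          ((16 ^ s * P ^ (b * σ * ((1 - σ ^ s) / (1 - σ)))) * (2 * P ^ (-(b * (p - 1))))) *
            P ^ (δ / 4) := by
        have g11 : 0 ≤ 2 * P ^ (-(b * (p - 1))) := by positivity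
        refine mul_le_mul (mul_le_mul_of_nonneg_right g9 g11) (g8.trans hlog) ?_ (by positivity)
        exact sum_nonneg fun _ _ => by positivity
      refine g10.trans ?_
      have g12 : b * σ * ((1 - σ ^ s) / (1 - σ)) - b * (p - 1) ≤
          -(b * (p - 1) * σ ^ (s + 1) / σ) := by
        have k1 : 0 < 1 - σ := by linarith
        have k2 : b * (p - 1) * σ ^ (s + 1) / σ = b * (p - 1) * σ ^ s := by
          rw [pow_succ]
          field_simp
        rw [k2]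
        have k3 : σ * ((1 - σ ^ s) / (1 - σ)) ≤ (p - 1) * (1 - σ ^ s) := by
          have k4 : 0 ≤ 1 - σ ^ s := by
            have := pow_le_one₀ (n := s) hσ.le hσ1.le
            linarith
          rw [mul_div_assoc', div_le_iff₀ k1]
          have k5 : 0 ≤ p - 1 - σ * p := by linarith
          nlinarith
        have k6 := mul_le_mul_of_nonneg_left k3 hb.le
        linarith only [k6]
      have g13 : P ^ (b * σ * ((1 - σ ^ s) / (1 - σ))) * P ^ (-(b * (p - 1))) ≤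
          P ^ (-(b * (p - 1) * σ ^ (s + 1) / σ)) := by
        rw [← Real.rpow_add hPpos]
        refine Real.rpow_le_rpow_of_exponent_le hPone ?_
        linarith only [g12]
      have e3 : P ^ (δ - b * (p - 1) * σ ^ (s + 1) / σ) =
          P ^ (-(b * (p - 1) * σ ^ (s + 1) / σ)) * (P ^ (δ / 4) * P ^ (3 * δ / 4)) := by
        rw [← Real.rpow_add hPpos, ← Real.rpow_add hPpos]
        congr 1
        ring
      rw [e3]
      have g14 : 0 < P ^ (δ / 4) := Real.rpow_pos_of_pos hPpos _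
      have g15 : 0 < P ^ (-(b * (p - 1) * σ ^ (s + 1) / σ)) := Real.rpow_pos_of_pos hPpos _
      calc ((16 ^ s * P ^ (b * σ * ((1 - σ ^ s) / (1 - σ)))) * (2 * P ^ (-(b * (p - 1))))) *
            P ^ (δ / 4)
          = (2 * 16 ^ s * P ^ (δ / 4)) *
            (P ^ (b * σ * ((1 - σ ^ s) / (1 - σ))) * P ^ (-(b * (p - 1)))) := by ring
        _ ≤ (2 * 16 ^ s * P ^ (δ / 4)) * P ^ (-(b * (p - 1) * σ ^ (s + 1) / σ)) :=
            mul_le_mul_of_nonneg_left g13 (by positivity)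
        _ = 1 / 2 * ((P ^ (-(b * (p - 1) * σ ^ (s + 1) / σ)) * P ^ (δ / 4)) * (4 * 16 ^ s)) := by
            ring
        _ ≤ 1 / 2 * ((P ^ (-(b * (p - 1) * σ ^ (s + 1) / σ)) * P ^ (δ / 4)) * P ^ (3 * δ / 4)) := by
            refine mul_le_mul_of_nonneg_left ?_ (by norm_num)
            exact mul_le_mul_of_nonneg_left h16 (by positivity)
        _ = 1 / 2 * (P ^ (-(b * (p - 1) * σ ^ (s + 1) / σ)) * (P ^ (δ / 4) * P ^ (3 * δ / 4))) := by
            ring
    linarith only [q1, q2]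

theorem pos_diff (s : ℕ) {σ p : ℝ} (hσ : 0 < σ) (hp : 1 < p) (gap : σ * p < p - 1) :
    ∀ b : ℝ, 0 < b → b ≤ 1 → ∀ M : ℝ, ∃ P0 : ℝ, 1 ≤ P0 ∧ ∀ P ≥ P0, ∀ u ∈ U s σ b P,
      ∀ u' ∈ U s σ b P, u ≠ u' → M ≤ |S u p - S u' p| := by
  have hσ1 := SumK_sigma hσ hp gap
  induction s with
  | zero =>
    intro b _ _ M
    exact ⟨1, le_rfl, fun P _ u _ u' _ hne => absurd (Subsingleton.elim u u') hne⟩
  | succ s ih =>
    intro b hb hb1 M
    have hbσ : 0 < b * σ := mul_pos hb hσ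
    have hbσ1 : b * σ ≤ 1 := by nlinarith
    obtain ⟨P1, -, hP1⟩ := ih (b * σ) hbσ hbσ1 M
    have hall := (SumK_head s hσ hp gap hb).and
      ((SumK_ev (e := b * (p - 1)) (mul_pos hb (by linarith)) (2 * M)).and
          ((Filter.eventually_ge_atTop P1).and (Filter.eventually_ge_atTop 1)))
    obtain ⟨P0, hP0⟩ := Filter.eventually_atTop.1 hall
    refine ⟨max P0 1, le_max_right _ _, fun P hP u hu u' hu' hne => ?_⟩
    obtain ⟨hhead, hM, hPP1, hPone⟩ := hP0 P ((le_max_left _ _).trans hP)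
    have hPpos : 0 < P := by linarith
    obtain ⟨n, w, rfl⟩ : ∃ (n : ℕ) (w : Fin s → ℕ), u = (Fin.cons n w : Fin (s + 1) → ℕ) :=
      ⟨u 0, Fin.tail u, (Fin.cons_self_tail u).symm⟩
    obtain ⟨n', w', rfl⟩ : ∃ (n : ℕ) (w : Fin s → ℕ), u' = (Fin.cons n w : Fin (s + 1) → ℕ) :=
      ⟨u' 0, Fin.tail u', (Fin.cons_self_tail u').symm⟩
    obtain ⟨hn, hw⟩ := mem_U_cons.1 hu
    obtain ⟨hn', hw'⟩ := mem_U_cons.1 hu'
    by_cases hnn : n = n'
    · subst hnn
      have hww : w ≠ w' := fun hc => hne (by rw [hc])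
      rw [S_cons, S_cons, add_sub_add_left_eq_sub]
      exact hP1 P hPP1 w hw w' hw' hww
    · have h1 := hhead n hn n' hn' hnn w hw w' hw'
      have habs : 1 ≤ |(n : ℝ) - n'| := by
        have h10 : (1 : ℤ) ≤ |(n : ℤ) - n'| := Int.one_le_abs (sub_ne_zero.2 (by exact_mod_cast hnn))
        have h11 : ((1 : ℤ) : ℝ) ≤ ((|(n : ℤ) - n'| : ℤ) : ℝ) := by exact_mod_cast h10
        push_cast at h11
        exact h11
      have h2 : 0 < P ^ (b * (p - 1)) := Real.rpow_pos_of_pos hPpos _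
      have h3 := mul_le_mul_of_nonneg_left habs (by positivity : 0 ≤ 1 / 2 * P ^ (b * (p - 1)))
      linarith only [h1, h3, hM]

end Pool.Agent.Lib.MP_570bef_ntRE
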