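import Mathlib
import Pool.Agent.Lib.MP_570bef_ntRE.Blk

/-!
# JOB Diff: one difference `n^t - m^t` (about 120 lines)

Let `1 ≤ X ≤ m < n ≤ 16 X`, `t ≥ 1`, `D = n^t - m^t > 0`.
`low`: `n^t - m^t ≥ X^(t-1) (n - m) ≥ X^(t-1)`.
`n^t (log n - log m) ≤ 16 D`: `log (n/m) ≤ (n - m)/m ≤ 16 (n - m)/n` (`n ≤ 16 m`) and `D = n^t (1 - (m/n)^t) ≥ n^t (1 - m/n) = n^t (n - m)/n`.
`der1`: `n^t log n - m^t log m = log m * D + n^t (log n - log m)` with `log X ≤ log m ≤ log X + log 16`, `log 16 ≤ 3`: the difference with `log X * D` is in `[0, 19 D]`.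
`der2`: `n^t log^2 n - m^t log^2 m = log^2 m * D + n^t (log n - log m)(log n + log m) ≤ log^2 (16 X) D + 32 log (16 X) D ≤ 33 log^2 (16 X) D` (`log (16 X) ≥ 1`).
`mono`: `t ↦ n^t - m^t` is increasing for `m < n` (`n^t' - m^t' = n^t n^(t'-t) - m^t m^(t'-t) ≥ n^(t'-t)(n^t - m^t)` for `t ≤ t'`).
`ratio`: `n^t - m^t ≤ t n^(t-1) (n - m) ≤ q (16 X)^(q-1) (n - m)` for `1 ≤ t ≤ q` (mean value; `one_add_mul_self_le_rpow_one_add` or convexity) and `n^p - m^p ≥ X^(p-1) (n - m)`; `(16 X)^(q-1)/X^(p-1) = 16^(q-1) X^(q-p)`.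
-/

namespace Pool.Agent.Lib.MP_570bef_ntRE

private theorem Diff_pow_sub {t : ℝ} {n m : ℝ} (ht : 1 ≤ t) (hm : 1 ≤ m) (hmn : m ≤ n) :
    n ^ (t - 1) * (n - m) ≤ n ^ t - m ^ t := by
  have hn : 0 < n := by linarith
  have hm0 : 0 < m := by linarith
  have h1 : n ^ t = n ^ (t - 1) * n := by
    rw [← Real.rpow_add_one hn.ne', sub_add_cancel]
  have h2 : m ^ t = m ^ (t - 1) * m := by
    rw [← Real.rpow_add_one hm0.ne', sub_add_cancel]
  have h3 : m ^ (t - 1) ≤ n ^ (t - 1) := Real.rpow_le_rpow hm0.le hmn (by linarith)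
  rw [h1, h2]
  nlinarith

private theorem Diff_log {X t : ℝ} {n m : ℝ} (hX : 1 ≤ X) (ht : 1 ≤ t) (hm : X ≤ m) (hmn : m ≤ n)
    (hn : n ≤ 16 * X) : n ^ t * (Real.log n - Real.log m) ≤ 16 * (n ^ t - m ^ t) := by
  have hm0 : 0 < m := by linarith
  have hn0 : 0 < n := by linarith
  have h1 : Real.log n - Real.log m ≤ (n - m) / m := by
    rw [← Real.log_div hn0.ne' hm0.ne']
    have h2 := Real.log_le_sub_one_of_pos (div_pos hn0 hm0)
    have h3 : (n - m) / m = n / m - 1 := by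
      field_simp
    rw [h3]
    exact h2
  have h4 : 0 < n ^ (t - 1) := Real.rpow_pos_of_pos hn0 _
  have h5 : n ^ t = n ^ (t - 1) * n := by
    rw [← Real.rpow_add_one hn0.ne', sub_add_cancel]
  have h6 := Diff_pow_sub ht (by linarith) hmn
  have h7 : n ^ t * (Real.log n - Real.log m) ≤ n ^ t * ((n - m) / m) :=
    mul_le_mul_of_nonneg_left h1 (Real.rpow_nonneg hn0.le _)
  have h8 : n ^ t * ((n - m) / m) ≤ 16 * (n ^ (t - 1) * (n - m)) := by
    have h9 : n ^ t * ((n - m) / m) = (n ^ (t - 1) * (n - m)) * (n / m) := by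
      rw [h5]
      field_simp
    have h10 : n / m ≤ 16 := by
      rw [div_le_iff₀ hm0]
      linarith
    rw [h9, mul_comm (16 : ℝ)]
    exact mul_le_mul_of_nonneg_left h10 (mul_nonneg h4.le (by linarith))
  linarith

private theorem Diff_log_nonneg {t : ℝ} {n m : ℝ} (hm : 1 ≤ m) (hmn : m ≤ n) :
    0 ≤ n ^ t * (Real.log n - Real.log m) := by
  have h1 : Real.log m ≤ Real.log n := Real.log_le_log (by linarith) hmn
  exact mul_nonneg (Real.rpow_nonneg (by linarith) _) (by linarith)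

private theorem Diff_nonneg {t : ℝ} {n m : ℝ} (ht : 0 ≤ t) (hm : 1 ≤ m) (hmn : m ≤ n) :
    0 ≤ n ^ t - m ^ t :=
  sub_nonneg.2 (Real.rpow_le_rpow (by linarith) hmn ht)

private theorem Diff_log16 : Real.log 16 ≤ 3 := by
  have h1 : (16 : ℝ) = 2 ^ (4 : ℕ) := by norm_num
  rw [h1, Real.log_pow]
  have := Real.log_two_lt_d9
  push_cast
  linarith

private theorem Diff_log16' : 1 ≤ Real.log 16 := by
  have h1 : (16 : ℝ) = 2 ^ (4 : ℕ) := by norm_num
  rw [h1, Real.log_pow]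
  have := Real.log_two_gt_d9
  push_cast
  linarith

theorem diff_low {X t : ℝ} {n m : ℕ} (hX : 1 ≤ X) (ht : 1 ≤ t) (hm : X ≤ m) (hmn : m < n) :
    X ^ (t - 1) ≤ (n : ℝ) ^ t - (m : ℝ) ^ t := by
  have h1 : (m : ℝ) + 1 ≤ n := by exact_mod_cast hmn
  have h2 := Diff_pow_sub (n := (n : ℝ)) (m := (m : ℝ)) ht (by linarith) (by linarith)
  have h3 : X ^ (t - 1) ≤ (n : ℝ) ^ (t - 1) :=
    Real.rpow_le_rpow (by linarith) (by linarith) (by linarith)
  have h4 : 0 ≤ X ^ (t - 1) := Real.rpow_nonneg (by linarith) _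
  nlinarith

theorem diff_der1 {X t : ℝ} {n m : ℕ} (hX : 1 ≤ X) (ht : 1 ≤ t) (hm : X ≤ m) (hmn : m < n)
    (hn : (n : ℝ) ≤ 16 * X) :
    |((n : ℝ) ^ t * Real.log n - (m : ℝ) ^ t * Real.log m) -
      Real.log X * ((n : ℝ) ^ t - (m : ℝ) ^ t)| ≤ 19 * ((n : ℝ) ^ t - (m : ℝ) ^ t) := by
  have h1 : (m : ℝ) + 1 ≤ n := by exact_mod_cast hmn
  have hD := Diff_nonneg (t := t) (n := (n : ℝ)) (m := (m : ℝ)) (by linarith) (by linarith)
    (by linarith)
  have hL := Diff_log (n := (n : ℝ)) (m := (m : ℝ)) hX ht hm (by linarith) hn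
  have hL0 := Diff_log_nonneg (t := t) (n := (n : ℝ)) (m := (m : ℝ)) (by linarith) (by linarith)
  have hl1 : Real.log X ≤ Real.log m := Real.log_le_log (by linarith) hm
  have hl2 : Real.log m ≤ Real.log X + 3 := by
    have h2 : Real.log m ≤ Real.log (16 * X) := Real.log_le_log (by linarith) (by linarith)
    rw [Real.log_mul (by norm_num) (by linarith)] at h2
    have := Diff_log16
    linarith
  have h3 : ((n : ℝ) ^ t * Real.log n - (m : ℝ) ^ t * Real.log m) -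
      Real.log X * ((n : ℝ) ^ t - (m : ℝ) ^ t) =
      (Real.log m - Real.log X) * ((n : ℝ) ^ t - (m : ℝ) ^ t) +
        (n : ℝ) ^ t * (Real.log n - Real.log m) := by ring
  rw [h3, abs_of_nonneg (add_nonneg (mul_nonneg (by linarith) hD) hL0)]
  have h4 : (Real.log m - Real.log X) * ((n : ℝ) ^ t - (m : ℝ) ^ t) ≤
      3 * ((n : ℝ) ^ t - (m : ℝ) ^ t) := mul_le_mul_of_nonneg_right (by linarith) hD
  linarith

theorem diff_der2 {X t : ℝ} {n m : ℕ} (hX : 1 ≤ X) (ht : 1 ≤ t) (hm : X ≤ m) (hmn : m < n)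
    (hn : (n : ℝ) ≤ 16 * X) :
    |(n : ℝ) ^ t * Real.log n ^ 2 - (m : ℝ) ^ t * Real.log m ^ 2| ≤
      33 * Real.log (16 * X) ^ 2 * ((n : ℝ) ^ t - (m : ℝ) ^ t) := by
  have h1 : (m : ℝ) + 1 ≤ n := by exact_mod_cast hmn
  have hD := Diff_nonneg (t := t) (n := (n : ℝ)) (m := (m : ℝ)) (by linarith) (by linarith)
    (by linarith)
  have hL := Diff_log (n := (n : ℝ)) (m := (m : ℝ)) hX ht hm (by linarith) hn
  have hL0 := Diff_log_nonneg (t := t) (n := (n : ℝ)) (m := (m : ℝ)) (by linarith) (by linarith)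
  have hm0 : 0 ≤ Real.log m := Real.log_nonneg (by linarith)
  have hn0 : 0 ≤ Real.log n := Real.log_nonneg (by linarith)
  have hm1 : Real.log m ≤ Real.log (16 * X) := Real.log_le_log (by linarith) (by linarith)
  have hn1 : Real.log n ≤ Real.log (16 * X) := Real.log_le_log (by linarith) (by linarith)
  have hT : 1 ≤ Real.log (16 * X) := by
    have h2 : Real.log 16 ≤ Real.log (16 * X) := Real.log_le_log (by norm_num) (by linarith)
    have := Diff_log16'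
    linarith
  set T := Real.log (16 * X) with hTdef
  set D := (n : ℝ) ^ t - (m : ℝ) ^ t with hDdef
  set E := (n : ℝ) ^ t * (Real.log n - Real.log m) with hEdef
  have h3 : (n : ℝ) ^ t * Real.log n ^ 2 - (m : ℝ) ^ t * Real.log m ^ 2 =
      Real.log m ^ 2 * D + E * (Real.log n + Real.log m) := by
    rw [hDdef, hEdef]
    ring
  rw [h3, abs_of_nonneg (add_nonneg (mul_nonneg (sq_nonneg _) hD)
    (mul_nonneg hL0 (by linarith)))]
  have h4 : Real.log m ^ 2 * D ≤ T ^ 2 * D :=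
    mul_le_mul_of_nonneg_right (pow_le_pow_left₀ hm0 hm1 2) hD
  have h5 : E * (Real.log n + Real.log m) ≤ (16 * D) * (2 * T) :=
    mul_le_mul hL (by linarith) (by linarith) (by linarith)
  have h6 : D * T ≤ D * T ^ 2 := by
    refine mul_le_mul_of_nonneg_left ?_ hD
    nlinarith
  nlinarith

theorem diff_mono {t t' : ℝ} {n m : ℕ} (ht : 0 ≤ t) (htt : t ≤ t') (hm : 1 ≤ m) (hmn : m < n) :
    (n : ℝ) ^ t - (m : ℝ) ^ t ≤ (n : ℝ) ^ t' - (m : ℝ) ^ t' := by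
  have hm1 : (1 : ℝ) ≤ m := by exact_mod_cast hm
  have h1 : (m : ℝ) + 1 ≤ n := by exact_mod_cast hmn
  have hD := Diff_nonneg (t := t) (n := (n : ℝ)) (m := (m : ℝ)) ht hm1 (by linarith)
  have e1 : (n : ℝ) ^ t' = (n : ℝ) ^ t * (n : ℝ) ^ (t' - t) := by
    rw [← Real.rpow_add (by linarith)]
    congr 1
    ring
  have e2 : (m : ℝ) ^ t' = (m : ℝ) ^ t * (m : ℝ) ^ (t' - t) := by
    rw [← Real.rpow_add (by linarith)]
    congr 1
    ring
  have h2 : (m : ℝ) ^ (t' - t) ≤ (n : ℝ) ^ (t' - t) :=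
    Real.rpow_le_rpow (by linarith) (by linarith) (by linarith)
  have h3 : 1 ≤ (n : ℝ) ^ (t' - t) := Real.one_le_rpow (by linarith) (by linarith)
  have h4 : 0 ≤ (m : ℝ) ^ t := Real.rpow_nonneg (by linarith) _
  rw [e1, e2]
  nlinarith

theorem diff_ratio {X p q t : ℝ} {n m : ℕ} (hX : 1 ≤ X) (hp : 1 ≤ p) (hpt : p ≤ t) (htq : t ≤ q)
    (hm : X ≤ m) (hmn : m < n) (hn : (n : ℝ) ≤ 16 * X) :
    (n : ℝ) ^ t - (m : ℝ) ^ t ≤ q * 16 ^ q * X ^ (q - p) * ((n : ℝ) ^ p - (m : ℝ) ^ p) := by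
  have h1 : (m : ℝ) + 1 ≤ n := by exact_mod_cast hmn
  have hn0 : (0 : ℝ) < n := by linarith
  have hX0 : (0 : ℝ) < X := by linarith
  have ht : 1 ≤ t := by linarith
  -- the upper bound
  have hb := one_add_mul_self_le_rpow_one_add (s := ((m : ℝ) - n) / n) (p := t) (by
    rw [le_div_iff₀ hn0]
    linarith) ht
  have e1 : (1 : ℝ) + ((m : ℝ) - n) / n = m / n := by
    field_simp
    ring
  rw [e1, Real.div_rpow (by linarith) hn0.le] at hb
  have hnt : 0 < (n : ℝ) ^ t := Real.rpow_pos_of_pos hn0 _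
  have h2 : (n : ℝ) ^ t + t * ((n : ℝ) ^ (t - 1) * ((m : ℝ) - n)) ≤ (m : ℝ) ^ t := by
    have h3 := mul_le_mul_of_nonneg_left hb hnt.le
    have e2 : (n : ℝ) ^ t * ((m : ℝ) ^ t / (n : ℝ) ^ t) = (m : ℝ) ^ t := by
      field_simp
    have e3 : (n : ℝ) ^ t * (1 + t * (((m : ℝ) - n) / n)) =
        (n : ℝ) ^ t + t * ((n : ℝ) ^ (t - 1) * ((m : ℝ) - n)) := by
      have e4 : (n : ℝ) ^ t = (n : ℝ) ^ (t - 1) * n := by
        rw [← Real.rpow_add_one hn0.ne', sub_add_cancel]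
      rw [e4]
      field_simp
    rw [e2, e3] at h3
    exact h3
  have h4 : (n : ℝ) ^ (t - 1) ≤ (16 * X) ^ (q - 1) := by
    calc (n : ℝ) ^ (t - 1) ≤ (16 * X) ^ (t - 1) :=
          Real.rpow_le_rpow hn0.le hn (by linarith)
      _ ≤ (16 * X) ^ (q - 1) :=
          Real.rpow_le_rpow_of_exponent_le (by linarith) (by linarith)
  have h5 : (16 * X) ^ (q - 1) ≤ 16 ^ q * (X ^ (q - p) * X ^ (p - 1)) := by
    rw [Real.mul_rpow (by norm_num) hX0.le, ← Real.rpow_add hX0]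
    have e5 : q - p + (p - 1) = q - 1 := by ring
    rw [e5]
    exact mul_le_mul_of_nonneg_right
      (Real.rpow_le_rpow_of_exponent_le (by norm_num) (by linarith)) (Real.rpow_nonneg hX0.le _)
  have h6 := Diff_pow_sub (n := (n : ℝ)) (m := (m : ℝ)) hp (by linarith) (by linarith)
  have h7 : X ^ (p - 1) ≤ (n : ℝ) ^ (p - 1) :=
    Real.rpow_le_rpow hX0.le (by linarith) (by linarith)
  have h8 : X ^ (p - 1) * ((n : ℝ) - m) ≤ (n : ℝ) ^ p - (m : ℝ) ^ p :=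
    le_trans (mul_le_mul_of_nonneg_right h7 (by linarith)) h6
  have hC : 0 ≤ q * 16 ^ q * X ^ (q - p) := by
    have : 0 ≤ q := by linarith
    positivity
  calc (n : ℝ) ^ t - (m : ℝ) ^ t ≤ t * ((n : ℝ) ^ (t - 1) * ((n : ℝ) - m)) := by nlinarith
    _ ≤ q * ((16 ^ q * (X ^ (q - p) * X ^ (p - 1))) * ((n : ℝ) - m)) := by
        refine mul_le_mul htq ?_ ?_ (by linarith)
        · exact mul_le_mul_of_nonneg_right (le_trans h4 h5) (by linarith)
        · exact mul_nonneg (Real.rpow_nonneg hn0.le _) (by linarith)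
    _ = q * 16 ^ q * X ^ (q - p) * (X ^ (p - 1) * ((n : ℝ) - m)) := by ring
    _ ≤ q * 16 ^ q * X ^ (q - p) * ((n : ℝ) ^ p - (m : ℝ) ^ p) :=
        mul_le_mul_of_nonneg_left h8 hC

end Pool.Agent.Lib.MP_570bef_ntRE
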