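import Mathlib
import Pool.Agent.Lib.MP_570bef_ntRE.Blk

/-!
# JOB Rest: the lower variables are negligible (about 90 lines)

`δ1 = p - 1 - σ p > 0`; for `t ∈ [p, q]`: `t - 1 - σ t = t (1 - σ) - 1 ≥ p (1 - σ) - 1 = δ1`.
For `k > i`: `1 ≤ u k ≤ 16 P^(b σ^k) ≤ 16 P^(b σ^(i+1))`, so `(u k)^t ≤ 16^q P^(b σ^i * σ t) ≤ 16^q P^(b σ^i (t - 1)) P^(-b σ^i δ1) ≤ 16^q (P^(b σ^i))^(t-1) P^(-κ)` with `κ = b σ^s δ1 > 0`, and `log (u k) ≤ log 16 + log P`.
So the left side is `≤ (1 + log P)^2 * 2 s * 16^q (1 + log 16 + log P)^2 P^(-κ) (P^(b σ^i))^(t-1)`, and `(1 + log P)^2 (4 + log P)^2 * 2 s 16^q P^(-κ) ≤ 1/100` for `P ≥ P0` (powers of the logarithm are `o(P^κ)`).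
-/

namespace Pool.Agent.Lib.MP_570bef_ntRE

open Finset

private theorem Rest_log {κ C : ℝ} (hκ : 0 < κ) (hC : 0 < C) :
    ∃ P0 : ℝ, 1 ≤ P0 ∧ ∀ P ≥ P0, C * (4 + Real.log P) ^ 4 ≤ P ^ κ := by
  set D : ℝ := C * (4 + 8 / κ) ^ 4 with hD
  have hD0 : 0 < D := by positivity
  refine ⟨max 1 (D ^ (2 / κ)), le_max_left _ _, ?_⟩
  intro P hP
  have hP1 : 1 ≤ P := (le_max_left _ _).trans hP
  have hP2 : D ^ (2 / κ) ≤ P := (le_max_right _ _).trans hP
  have hP0 : 0 < P := lt_of_lt_of_le one_pos hP1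
  have h1 : D ≤ P ^ (κ / 2) := by
    calc D = (D ^ (2 / κ)) ^ (κ / 2) := by
          rw [← Real.rpow_mul hD0.le]
          have : 2 / κ * (κ / 2) = 1 := by field_simp
          rw [this, Real.rpow_one]
      _ ≤ P ^ (κ / 2) := Real.rpow_le_rpow (by positivity) hP2 (by positivity)
  have h2 : Real.log P ≤ P ^ (κ / 8) / (κ / 8) := Real.log_le_rpow_div hP0.le (by positivity)
  have h3 : 1 ≤ P ^ (κ / 8) := Real.one_le_rpow hP1 (by positivity)
  have h4 : 0 ≤ Real.log P := Real.log_nonneg hP1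
  have h5 : 4 + Real.log P ≤ (4 + 8 / κ) * P ^ (κ / 8) := by
    have h6 : P ^ (κ / 8) / (κ / 8) = 8 / κ * P ^ (κ / 8) := by field_simp
    rw [h6] at h2
    nlinarith
  calc C * (4 + Real.log P) ^ 4 ≤ C * ((4 + 8 / κ) * P ^ (κ / 8)) ^ 4 :=
        mul_le_mul_of_nonneg_left (pow_le_pow_left₀ (by positivity) h5 4) hC.le
    _ = D * P ^ (κ / 2) := by
        rw [mul_pow, ← Real.rpow_natCast (P ^ (κ / 8)) 4, ← Real.rpow_mul hP0.le, hD]
        have : κ / 8 * ((4 : ℕ) : ℝ) = κ / 2 := by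
          push_cast
          ring
        rw [this]
        ring
    _ ≤ P ^ (κ / 2) * P ^ (κ / 2) := mul_le_mul_of_nonneg_right h1 (by positivity)
    _ = P ^ κ := by
        rw [← Real.rpow_add hP0]
        congr 1
        ring

private theorem Rest_term {s : ℕ} {σ p q b : ℝ} (hσ : 0 < σ) (hp : 1 < p)
    (gap : σ * p < p - 1) (hb : 0 < b) (hb1 : b ≤ 1) {P : ℝ} (hP : 1 ≤ P) {u : Fin s → ℕ}
    (hu : u ∈ U s σ b P) {i k : Fin s} (hik : i < k) {t : ℝ} (ht : t ∈ Set.Icc p q) :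
    (u k : ℝ) ^ t * (1 + Real.log (u k)) ^ 2 ≤
      16 ^ q * P ^ (-(b * σ ^ s * (p - 1 - σ * p))) * (P ^ (b * σ ^ (i : ℕ))) ^ (t - 1) *
        (4 + Real.log P) ^ 2 := by
  have hP0 : 0 < P := lt_of_lt_of_le one_pos hP
  have hσ1 : σ < 1 := by
    by_contra h
    push Not at h
    nlinarith
  obtain ⟨ht1, ht2⟩ := ht
  have ht0 : 0 < t := by linarith
  have hu1 := (mem_U hP0.le).1 hu k
  have hk0 : 0 ≤ b * σ ^ (k : ℕ) := by positivity
  have ha1 : 1 ≤ (u k : ℝ) := (Real.one_le_rpow hP hk0).trans hu1.1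
  have hσk : σ ^ (k : ℕ) ≤ σ ^ ((i : ℕ) + 1) := by
    apply pow_le_pow_of_le_one hσ.le hσ1.le
    have : (i : ℕ) < (k : ℕ) := hik
    omega
  have ha2 : (u k : ℝ) ≤ 16 * P ^ (b * σ ^ ((i : ℕ) + 1)) := by
    refine hu1.2.trans (mul_le_mul_of_nonneg_left ?_ (by norm_num))
    exact Real.rpow_le_rpow_of_exponent_le hP (mul_le_mul_of_nonneg_left hσk hb.le)
  have hδ : 0 < p - 1 - σ * p := by linarith
  have hσt : σ * t ≤ t - 1 - (p - 1 - σ * p) := by nlinarith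
  have his : σ ^ s ≤ σ ^ (i : ℕ) := pow_le_pow_of_le_one hσ.le hσ1.le (le_of_lt i.2)
  have hi0 : 0 < σ ^ (i : ℕ) := by positivity
  have h1 : (u k : ℝ) ^ t ≤ 16 ^ q * P ^ (-(b * σ ^ s * (p - 1 - σ * p))) *
      (P ^ (b * σ ^ (i : ℕ))) ^ (t - 1) := by
    calc (u k : ℝ) ^ t ≤ (16 * P ^ (b * σ ^ ((i : ℕ) + 1))) ^ t :=
          Real.rpow_le_rpow (by positivity) ha2 ht0.le
      _ = 16 ^ t * P ^ (b * σ ^ ((i : ℕ) + 1) * t) := by
          rw [Real.mul_rpow (by norm_num) (by positivity), ← Real.rpow_mul hP0.le]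
      _ ≤ 16 ^ q * P ^ (-(b * σ ^ s * (p - 1 - σ * p)) + b * σ ^ (i : ℕ) * (t - 1)) := by
          apply mul_le_mul
          · exact Real.rpow_le_rpow_of_exponent_le (by norm_num) ht2
          · apply Real.rpow_le_rpow_of_exponent_le hP
            have h2 : b * σ ^ ((i : ℕ) + 1) * t = b * σ ^ (i : ℕ) * (σ * t) := by
              rw [pow_succ]
              ring
            rw [h2]
            have h3 : b * σ ^ (i : ℕ) * (σ * t) ≤
                b * σ ^ (i : ℕ) * (t - 1 - (p - 1 - σ * p)) :=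
              mul_le_mul_of_nonneg_left hσt (by positivity)
            have h4 : b * σ ^ s * (p - 1 - σ * p) ≤ b * σ ^ (i : ℕ) * (p - 1 - σ * p) :=
              mul_le_mul_of_nonneg_right (mul_le_mul_of_nonneg_left his hb.le) hδ.le
            linarith
          · positivity
          · positivity
      _ = _ := by
          rw [Real.rpow_add hP0, Real.rpow_mul hP0.le]
          ring
  have h5 : Real.log (u k) ≤ 3 + Real.log P := by
    have h6 : Real.log (u k) ≤ Real.log (16 * P ^ (1 : ℝ)) := by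
      apply Real.log_le_log (by linarith)
      refine hu1.2.trans (mul_le_mul_of_nonneg_left ?_ (by norm_num))
      apply Real.rpow_le_rpow_of_exponent_le hP
      have h7 : σ ^ (k : ℕ) ≤ 1 := pow_le_one₀ hσ.le hσ1.le
      have h8 : 0 ≤ σ ^ (k : ℕ) := by positivity
      nlinarith
    rw [Real.rpow_one, Real.log_mul (by norm_num) hP0.ne'] at h6
    have h9 : Real.log 16 ≤ 3 := by
      have : (16 : ℝ) = 2 ^ (4 : ℕ) := by norm_num
      rw [this, Real.log_pow]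
      have := Real.log_two_lt_d9
      push_cast
      linarith
    linarith
  have h10 : 0 ≤ Real.log (u k) := Real.log_nonneg ha1
  have h11 : (1 + Real.log (u k)) ^ 2 ≤ (4 + Real.log P) ^ 2 :=
    pow_le_pow_left₀ (by linarith) (by linarith) 2
  exact mul_le_mul h1 h11 (by positivity) (by positivity)

theorem rest_bound (s : ℕ) {σ p q b : ℝ} (hσ : 0 < σ) (hp : 1 < p) (hpq : p ≤ q)
    (gap : σ * p < p - 1) (hb : 0 < b) (hb1 : b ≤ 1) :
    ∃ P0 : ℝ, 1 ≤ P0 ∧ ∀ P ≥ P0, ∀ u ∈ U s σ b P, ∀ i : Fin s, ∀ t ∈ Set.Icc p q,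
      (1 + Real.log P) ^ 2 * ∑ k ∈ univ.filter (fun k => i < k),
        (u k : ℝ) ^ t * (1 + Real.log (u k)) ^ 2 ≤ 1 / 200 * (P ^ (b * σ ^ (i : ℕ))) ^ (t - 1) := by
  have hσ1 : σ < 1 := by
    by_contra h
    push Not at h
    nlinarith
  have hδ : 0 < p - 1 - σ * p := by linarith
  have hκ : 0 < b * σ ^ s * (p - 1 - σ * p) := by positivity
  obtain ⟨P0, hP01, hP0⟩ := Rest_log hκ (C := 200 * ((s : ℝ) + 1) * 16 ^ q) (by positivity)
  refine ⟨P0, hP01, ?_⟩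
  intro P hP u hu i t ht
  have hP1 : 1 ≤ P := hP01.trans hP
  have hPp : 0 < P := lt_of_lt_of_le one_pos hP1
  have hL : 0 ≤ Real.log P := Real.log_nonneg hP1
  have hkey := hP0 P hP
  set κ := b * σ ^ s * (p - 1 - σ * p) with hκd
  set Z := (P ^ (b * σ ^ (i : ℕ))) ^ (t - 1) with hZ
  have hZ0 : 0 < Z := by positivity
  have h1 : ∑ k ∈ univ.filter (fun k => i < k), (u k : ℝ) ^ t * (1 + Real.log (u k)) ^ 2 ≤
      s * (16 ^ q * P ^ (-κ) * Z * (4 + Real.log P) ^ 2) := by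
    refine (sum_le_card_nsmul _ _ _ (fun k hk =>
      Rest_term hσ hp gap hb hb1 hP1 hu (mem_filter.1 hk).2 ht)).trans ?_
    rw [nsmul_eq_mul]
    apply mul_le_mul_of_nonneg_right _ (by positivity)
    have : (univ.filter (fun k : Fin s => i < k)).card ≤ s := by
      refine (card_filter_le _ _).trans ?_
      simp
    exact_mod_cast this
  have h2 : (1 + Real.log P) ^ 2 ≤ (4 + Real.log P) ^ 2 :=
    pow_le_pow_left₀ (by linarith) (by linarith) 2
  calc (1 + Real.log P) ^ 2 * ∑ k ∈ univ.filter (fun k => i < k),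
        (u k : ℝ) ^ t * (1 + Real.log (u k)) ^ 2
      ≤ (4 + Real.log P) ^ 2 * (s * (16 ^ q * P ^ (-κ) * Z * (4 + Real.log P) ^ 2)) := by
        apply mul_le_mul h2 h1 _ (by positivity)
        apply sum_nonneg
        intro k _
        positivity
    _ ≤ (4 + Real.log P) ^ 2 * (((s : ℝ) + 1) * (16 ^ q * P ^ (-κ) * Z * (4 + Real.log P) ^ 2)) := by
        apply mul_le_mul_of_nonneg_left _ (by positivity)
        apply mul_le_mul_of_nonneg_right _ (by positivity)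
        linarith
    _ = 1 / 200 * Z * P ^ (-κ) * (200 * ((s : ℝ) + 1) * 16 ^ q * (4 + Real.log P) ^ 4) := by ring
    _ ≤ 1 / 200 * Z * P ^ (-κ) * P ^ κ := mul_le_mul_of_nonneg_left hkey (by positivity)
    _ = 1 / 200 * Z := by
        rw [mul_assoc, ← Real.rpow_add hPp]
        simp

end Pool.Agent.Lib.MP_570bef_ntRE
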