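import Mathlib
import Pool.Agent.Lib.MP_570bef_ntRE.Blk

/-!
# Derivatives of `S u` with respect to the exponent
-/

namespace Pool.Agent.Lib.MP_570bef_ntRE

/-- first derivative of `S u` -/
noncomputable def SD1 {s : ℕ} (u : Fin s → ℕ) (c : ℝ) : ℝ := ∑ i, (u i : ℝ) ^ c * Real.log (u i)

/-- second derivative of `S u` -/
noncomputable def SD2 {s : ℕ} (u : Fin s → ℕ) (c : ℝ) : ℝ :=
  ∑ i, (u i : ℝ) ^ c * Real.log (u i) ^ 2

theorem S_der {s : ℕ} {u : Fin s → ℕ} (hu : ∀ i, 1 ≤ u i) (t : ℝ) :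
    HasDerivAt (S u) (SD1 u t) t := by
  have h : ∀ i ∈ (Finset.univ : Finset (Fin s)),
      HasDerivAt (fun c : ℝ => (u i : ℝ) ^ c) ((u i : ℝ) ^ t * Real.log (u i)) t := by
    intro i _
    have hpos : (0 : ℝ) < u i := by exact_mod_cast hu i
    have := (hasDerivAt_id t).const_rpow hpos
    simp only [id_eq, mul_one] at this
    exact this.congr_deriv (by ring)
  have := HasDerivAt.fun_sum h
  exact this

theorem SD1_der {s : ℕ} {u : Fin s → ℕ} (hu : ∀ i, 1 ≤ u i) (t : ℝ) :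
    HasDerivAt (SD1 u) (SD2 u t) t := by
  have h : ∀ i ∈ (Finset.univ : Finset (Fin s)),
      HasDerivAt (fun c : ℝ => (u i : ℝ) ^ c * Real.log (u i))
        ((u i : ℝ) ^ t * Real.log (u i) ^ 2) t := by
    intro i _
    have hpos : (0 : ℝ) < u i := by exact_mod_cast hu i
    have := ((hasDerivAt_id t).const_rpow hpos).mul_const (Real.log (u i))
    simp only [id_eq, mul_one] at this
    exact this.congr_deriv (by ring)
  exact HasDerivAt.fun_sum h

theorem SD2_cont {s : ℕ} {u : Fin s → ℕ} (hu : ∀ i, 1 ≤ u i) : Continuous (SD2 u) := by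
  refine continuous_finset_sum _ fun i _ => ?_
  have hpos : (0 : ℝ) < u i := by exact_mod_cast hu i
  exact (Real.continuous_const_rpow hpos.ne').mul continuous_const

theorem U_pos {s : ℕ} {σ b P : ℝ} (hσ : 0 < σ) (hb : 0 ≤ b) (hP : 1 ≤ P) {u : Fin s → ℕ}
    (hu : u ∈ U s σ b P) (i : Fin s) : 1 ≤ u i := by
  have h := ((mem_U (by linarith)).1 hu i).1
  have h1 : (1 : ℝ) ≤ P ^ (b * σ ^ (i : ℕ)) := Real.one_le_rpow hP (by positivity)
  exact_mod_cast h1.trans h

end Pool.Agent.Lib.MP_570bef_ntRE
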