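import Mathlib
import Pool.Agent.Lib.MP_570bef_ntRE.Tame
import Pool.Agent.Lib.MP_570bef_ntRE.SDer
import Pool.Agent.Lib.MP_570bef_ntRE.Rest
import Pool.Agent.Lib.MP_570bef_ntRE.Diff

/-!
# JOB TameU: differences of sums of powers are tame (about 180 lines)

`C = 1100`, `R0 = 4 q 16^q`, `P0` from `rest_bound`, and `P0 ≥ 3` (so `ell = log P ≥ 1`).
`i` = the first index with `u i ≠ u' i`, `X = P^(b σ^i)` (`log X = b σ^i ell`, `1 ≤ X ≤ P`), `n = max (u i) (u' i)`, `m = min`, `D t = n^t - m^t`.  Put `±` = the sign of `u i - u' i`.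
`E t = S u t - S u' t = ± D t + r0 t`, `E1 t = ± (n^t log n - m^t log m) + r1 t`, `E2 t = ± (n^t log^2 n - m^t log^2 m) + r2 t`, where the `r`'s are the sums over `k > i`; by `rest_bound` for `u` and `u'` and `diff_low`: `(1 + ell)^2 |r_j t| ≤ (1/100) X^(t-1) ≤ (1/100) D t`, `j = 0, 1, 2`, `t ∈ [p, q]`.
So `(99/100) D t ≤ ± E t` and `|E t| ≤ (101/100) D t`.
`sgn`: `± E t ≥ (99/100) D t ≥ (99/100) D p ≥ (99/101)|E p| ≥ |E p|/4` (`diff_mono`).
`up`: `|E t| ≤ (101/100) D t ≤ (101/100) q 16^q X^(q-p) D p ≤ 4 q 16^q P^(q-p) |E p|`.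
`b1`: `|E1 t - b σ^i ell E t| ≤ |D1 - log X D| + |r1| + ell |r0| ≤ 19 D + D/100 + D/100 ≤ 20 |E t|`.
`b2`: `|E2 t| ≤ 33 log(16 X)^2 D + |r2| ≤ 33 (3 + ell)^2 D + D/100 ≤ (528 + 1) ell^2 D ≤ 1100 ell^2 |E t|`.
Derivatives: `S_der`, `SD1_der`, `SD2_cont`, `U_pos`.
-/

namespace Pool.Agent.Lib.MP_570bef_ntRE

open Finset

private theorem TameU_split {s : ℕ} (F : ℕ → ℝ) {u u' : Fin s → ℕ} {i : Fin s}
    (h : ∀ k < i, u k = u' k) :
    ∑ k, F (u k) - ∑ k, F (u' k) = (F (u i) - F (u' i)) +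
      ∑ k ∈ univ.filter (fun k => i < k), (F (u k) - F (u' k)) := by
  rw [← Finset.sum_sub_distrib, ← Finset.sum_filter_add_sum_filter_not univ (fun k => i < k)
    (fun k => F (u k) - F (u' k)), add_comm]
  congr 1
  refine Finset.sum_eq_single i (fun k hk hki => ?_) (fun hi => ?_)
  · have h1 : ¬ i < k := (Finset.mem_filter.1 hk).2
    have h2 : k < i := lt_of_le_of_ne (not_lt.1 h1) hki
    rw [h k h2, sub_self]
  · exact absurd (Finset.mem_filter.2 ⟨Finset.mem_univ i, lt_irrefl i⟩) hi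

private theorem TameU_rest {s : ℕ} (F G : ℕ → ℝ) {u u' : Fin s → ℕ} {i : Fin s}
    (h : ∀ k < i, u k = u' k) (hF : ∀ k, |F (u k)| ≤ G (u k)) (hF' : ∀ k, |F (u' k)| ≤ G (u' k)) :
    |(∑ k, F (u k) - ∑ k, F (u' k)) - (F (u i) - F (u' i))| ≤
      ∑ k ∈ univ.filter (fun k => i < k), G (u k) +
        ∑ k ∈ univ.filter (fun k => i < k), G (u' k) := by
  rw [TameU_split F h, add_sub_cancel_left, ← Finset.sum_add_distrib]
  refine (Finset.abs_sum_le_sum_abs _ _).trans (Finset.sum_le_sum fun k _ => ?_)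
  exact (abs_sub _ _).trans (add_le_add (hF k) (hF' k))

private theorem TameU_neg {p q ell C R a e : ℝ} {E E1 E2 : ℝ → ℝ}
    (h : Tame p q ell C R a e E E1 E2) :
    Tame p q ell C R a e (fun t => -E t) (fun t => -E1 t) (fun t => -E2 t) where
  d1 := fun t => (h.d1 t).neg
  d2 := fun t => (h.d2 t).neg
  c2 := h.c2.neg
  sgn := by
    rcases h.sgn with h1 | h1
    · exact Or.inr fun t ht => neg_le_neg (h1 t ht)
    · exact Or.inl fun t ht => by have := h1 t ht; linarith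
  up := fun t ht => by rw [abs_neg]; exact h.up t ht
  b1 := fun t ht => by
    have h1 : -E1 t - a * ell * -E t = -(E1 t - a * ell * E t) := by ring
    rw [h1, abs_neg, abs_neg]
    exact h.b1 t ht
  b2 := fun t ht => by
    rw [abs_neg, abs_neg]
    exact h.b2 t ht

private theorem TameU_pos (s : ℕ) {σ p q b P : ℝ} (hσ : 0 < σ) (hσ1 : σ < 1) (hp : 1 < p)
    (hpq : p ≤ q) (hb : 0 < b) (hb1 : b ≤ 1) (hP : 3 ≤ P) {u u' : Fin s → ℕ}
    (hu : u ∈ U s σ b P) (hu' : u' ∈ U s σ b P) {i : Fin s} (hlt : ∀ k < i, u k = u' k)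
    (hi : u' i < u i)
    (hr : ∀ t ∈ Set.Icc p q, (1 + Real.log P) ^ 2 * ∑ k ∈ univ.filter (fun k => i < k),
        (u k : ℝ) ^ t * (1 + Real.log (u k)) ^ 2 ≤ 1 / 200 * (P ^ (b * σ ^ (i : ℕ))) ^ (t - 1))
    (hr' : ∀ t ∈ Set.Icc p q, (1 + Real.log P) ^ 2 * ∑ k ∈ univ.filter (fun k => i < k),
        (u' k : ℝ) ^ t * (1 + Real.log (u' k)) ^ 2 ≤ 1 / 200 * (P ^ (b * σ ^ (i : ℕ))) ^ (t - 1)) :
    Tame p q (Real.log P) 1100 (4 * q * 16 ^ q * P ^ (q - p)) (b * σ ^ (i : ℕ))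
        |S u p - S u' p| (fun t => S u t - S u' t) (fun t => SD1 u t - SD1 u' t)
        (fun t => SD2 u t - SD2 u' t) := by
  have hP1 : (1 : ℝ) ≤ P := by linarith
  have hP0 : (0 : ℝ) < P := by linarith
  have hpos : ∀ k, 1 ≤ u k := fun k => U_pos hσ hb.le hP1 hu k
  have hpos' : ∀ k, 1 ≤ u' k := fun k => U_pos hσ hb.le hP1 hu' k
  obtain ⟨ell, hell⟩ : ∃ ell, ell = Real.log P := ⟨_, rfl⟩
  have hell1 : 1 ≤ ell := by
    rw [hell, Real.le_log_iff_exp_le hP0]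
    have := Real.exp_one_lt_d9
    linarith
  obtain ⟨a, ha⟩ : ∃ a, a = b * σ ^ (i : ℕ) := ⟨_, rfl⟩
  have ha0 : 0 ≤ a := by rw [ha]; positivity
  have ha1 : a ≤ 1 := by
    rw [ha]
    have : σ ^ (i : ℕ) ≤ 1 := pow_le_one₀ hσ.le hσ1.le
    calc b * σ ^ (i : ℕ) ≤ 1 * 1 := mul_le_mul hb1 this (by positivity) (by norm_num)
      _ = 1 := by ring
  obtain ⟨X, hX⟩ : ∃ X, X = P ^ (b * σ ^ (i : ℕ)) := ⟨_, rfl⟩
  have hX1 : 1 ≤ X := by rw [hX]; exact Real.one_le_rpow hP1 (by positivity)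
  have hX0 : 0 < X := by linarith
  have hXP : X ≤ P := by
    rw [hX, ← ha]
    calc P ^ a ≤ P ^ (1 : ℝ) := Real.rpow_le_rpow_of_exponent_le hP1 ha1
      _ = P := Real.rpow_one P
  have hlogX : Real.log X = a * ell := by
    rw [hX, ← ha, hell, Real.log_rpow hP0]
  have hum := (mem_U hP0.le).1 hu i
  have hum' := (mem_U hP0.le).1 hu' i
  rw [← hX] at hum hum'
  rw [← hell] at hr hr'
  rw [← hX] at hr hr'
  rw [← hell, ← ha]
  -- the main term and the rest
  obtain ⟨D, hD⟩ : ∃ D : ℝ → ℝ, D = fun t => (u i : ℝ) ^ t - (u' i : ℝ) ^ t := ⟨_, rfl⟩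
  have hDlow : ∀ t ∈ Set.Icc p q, X ^ (t - 1) ≤ D t := by
    intro t ht
    rw [hD]
    exact diff_low hX1 (by linarith [ht.1]) hum'.1 hi
  have hDpos : ∀ t ∈ Set.Icc p q, 0 < D t := fun t ht =>
    lt_of_lt_of_le (Real.rpow_pos_of_pos hX0 _) (hDlow t ht)
  obtain ⟨K, hK⟩ : ∃ K : ℝ → ℝ, K = fun t => ∑ k ∈ univ.filter (fun k => i < k),
        (u k : ℝ) ^ t * (1 + Real.log (u k)) ^ 2 + ∑ k ∈ univ.filter (fun k => i < k),
        (u' k : ℝ) ^ t * (1 + Real.log (u' k)) ^ 2 := ⟨_, rfl⟩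
  have hK0 : ∀ t, 0 ≤ K t := by
    intro t
    rw [hK]
    exact add_nonneg (Finset.sum_nonneg fun k _ => by positivity)
      (Finset.sum_nonneg fun k _ => by positivity)
  have hKD : ∀ t ∈ Set.Icc p q, (1 + ell) ^ 2 * K t ≤ D t / 100 := by
    intro t ht
    have h1 := hr t ht
    have h2 := hr' t ht
    have h3 := hDlow t ht
    rw [hK]
    rw [mul_add]
    linarith
  have hlogn : ∀ n : ℕ, 1 ≤ n → 0 ≤ Real.log n := fun n hn =>
    Real.log_nonneg (by exact_mod_cast hn)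
  have g0 : ∀ (n : ℕ) (t : ℝ), 1 ≤ n →
      |(n : ℝ) ^ t| ≤ (n : ℝ) ^ t * (1 + Real.log n) ^ 2 := by
    intro n t hn
    have h1 := hlogn n hn
    have h2 : 0 ≤ (n : ℝ) ^ t := by positivity
    rw [abs_of_nonneg h2]
    nlinarith [mul_nonneg h2 h1, mul_nonneg h2 (mul_nonneg h1 h1)]
  have g1 : ∀ (n : ℕ) (t : ℝ), 1 ≤ n →
      |(n : ℝ) ^ t * Real.log n| ≤ (n : ℝ) ^ t * (1 + Real.log n) ^ 2 := by
    intro n t hn
    have h1 := hlogn n hn
    have h2 : 0 ≤ (n : ℝ) ^ t := by positivity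
    rw [abs_of_nonneg (mul_nonneg h2 h1)]
    nlinarith [mul_nonneg h2 h1, mul_nonneg h2 (mul_nonneg h1 h1)]
  have g2 : ∀ (n : ℕ) (t : ℝ), 1 ≤ n →
      |(n : ℝ) ^ t * Real.log n ^ 2| ≤ (n : ℝ) ^ t * (1 + Real.log n) ^ 2 := by
    intro n t hn
    have h1 := hlogn n hn
    have h2 : 0 ≤ (n : ℝ) ^ t := by positivity
    rw [abs_of_nonneg (by positivity)]
    nlinarith [mul_nonneg h2 h1, mul_nonneg h2 (mul_nonneg h1 h1)]
  have r0 : ∀ t, |(S u t - S u' t) - D t| ≤ K t := by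
    intro t
    rw [hD, hK]
    exact TameU_rest (fun n => (n : ℝ) ^ t) (fun n => (n : ℝ) ^ t * (1 + Real.log n) ^ 2) hlt
      (fun k => g0 _ t (hpos k)) (fun k => g0 _ t (hpos' k))
  obtain ⟨D1, hD1⟩ : ∃ D1 : ℝ → ℝ, D1 = fun t =>
      (u i : ℝ) ^ t * Real.log (u i) - (u' i : ℝ) ^ t * Real.log (u' i) := ⟨_, rfl⟩
  have r1 : ∀ t, |(SD1 u t - SD1 u' t) - D1 t| ≤ K t := by
    intro t
    rw [hD1, hK]
    exact TameU_rest (fun n => (n : ℝ) ^ t * Real.log n)
      (fun n => (n : ℝ) ^ t * (1 + Real.log n) ^ 2) hlt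
      (fun k => g1 _ t (hpos k)) (fun k => g1 _ t (hpos' k))
  obtain ⟨D2, hD2⟩ : ∃ D2 : ℝ → ℝ, D2 = fun t =>
      (u i : ℝ) ^ t * Real.log (u i) ^ 2 - (u' i : ℝ) ^ t * Real.log (u' i) ^ 2 := ⟨_, rfl⟩
  have r2 : ∀ t, |(SD2 u t - SD2 u' t) - D2 t| ≤ K t := by
    intro t
    rw [hD2, hK]
    exact TameU_rest (fun n => (n : ℝ) ^ t * Real.log n ^ 2)
      (fun n => (n : ℝ) ^ t * (1 + Real.log n) ^ 2) hlt
      (fun k => g2 _ t (hpos k)) (fun k => g2 _ t (hpos' k))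
  have e1 : ∀ t ∈ Set.Icc p q, |D1 t - Real.log X * D t| ≤ 19 * D t := by
    intro t ht
    rw [hD1, hD]
    exact diff_der1 hX1 (by linarith [ht.1]) hum'.1 hi hum.2
  have e2 : ∀ t ∈ Set.Icc p q, |D2 t| ≤ 33 * Real.log (16 * X) ^ 2 * D t := by
    intro t ht
    rw [hD2, hD]
    exact diff_der2 hX1 (by linarith [ht.1]) hum'.1 hi hum.2
  have hKs : ∀ t ∈ Set.Icc p q, K t ≤ D t / 100 ∧ ell * K t ≤ D t / 100 ∧
      (1 + ell) * K t ≤ D t / 100 := by
    intro t ht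
    have h1 := hKD t ht
    have h2 := hK0 t
    have h3 : 0 ≤ ell * K t := mul_nonneg (by linarith) h2
    have h4 : 0 ≤ ell * (ell * K t) := mul_nonneg (by linarith) h3
    have h5 : (1 + ell) ^ 2 * K t = K t + 2 * (ell * K t) + ell * (ell * K t) := by ring
    have h6 : (1 + ell) * K t = K t + ell * K t := by ring
    rw [h5] at h1
    rw [h6]
    exact ⟨by linarith, by linarith, by linarith⟩
  have hE : ∀ t ∈ Set.Icc p q, 99 / 100 * D t ≤ S u t - S u' t ∧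
      S u t - S u' t ≤ 101 / 100 * D t := by
    intro t ht
    have h1 := abs_le.1 (r0 t)
    have h2 := (hKs t ht).1
    exact ⟨by linarith [h1.1], by linarith [h1.2]⟩
  have hEa : ∀ t ∈ Set.Icc p q, |S u t - S u' t| = S u t - S u' t := by
    intro t ht
    refine abs_of_nonneg ?_
    have h1 := (hE t ht).1
    have h2 := hDpos t ht
    linarith
  have hpp : p ∈ Set.Icc p q := ⟨le_rfl, hpq⟩
  have hq0 : 0 < q := by linarith
  refine ⟨fun t => (S_der hpos t).sub (S_der hpos' t),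
    fun t => (SD1_der hpos t).sub (SD1_der hpos' t), (SD2_cont hpos).sub (SD2_cont hpos'),
    Or.inl ?_, ?_, ?_, ?_⟩
  · intro t ht
    rw [hEa p hpp]
    have h1 : D p ≤ D t := by
      rw [hD]
      exact diff_mono (by linarith) ht.1 (hpos' i) hi
    have h2 := (hE t ht).1
    have h3 := (hE p hpp).2
    have h4 := hDpos p hpp
    linarith
  · intro t ht
    have hEt := hEa t ht
    have hEp := hEa p hpp
    simp only [hEt, hEp]
    have h1 : D t ≤ q * 16 ^ q * X ^ (q - p) * D p := by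
      rw [hD]
      exact diff_ratio hX1 hp.le ht.1 ht.2 hum'.1 hi hum.2
    have h2 : X ^ (q - p) ≤ P ^ (q - p) := Real.rpow_le_rpow hX0.le hXP (by linarith)
    have h3 := (hE t ht).2
    have h4 := (hE p hpp).1
    have h5 := hDpos p hpp
    have h6 : 0 < q * 16 ^ q := by positivity
    have h7 : D t ≤ q * 16 ^ q * P ^ (q - p) * D p := by
      refine h1.trans ?_
      exact mul_le_mul_of_nonneg_right (mul_le_mul_of_nonneg_left h2 h6.le) h5.le
    have h8 : 0 ≤ q * 16 ^ q * P ^ (q - p) := by positivity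
    have h9 : q * 16 ^ q * P ^ (q - p) * D p ≤
        q * 16 ^ q * P ^ (q - p) * (100 / 99 * (S u p - S u' p)) :=
      mul_le_mul_of_nonneg_left (by linarith) h8
    have h10 : 0 ≤ q * 16 ^ q * P ^ (q - p) * (S u p - S u' p) :=
      mul_nonneg h8 (by linarith)
    have h11 : 4 * q * 16 ^ q * P ^ (q - p) * (S u p - S u' p) =
        4 * (q * 16 ^ q * P ^ (q - p) * (S u p - S u' p)) := by ring
    have h12 : q * 16 ^ q * P ^ (q - p) * (100 / 99 * (S u p - S u' p)) =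
        100 / 99 * (q * 16 ^ q * P ^ (q - p) * (S u p - S u' p)) := by ring
    rw [h11]
    rw [h12] at h9
    linarith
  · intro t ht
    have hEt := hEa t ht
    simp only [hEt]
    rw [← hlogX]
    have hlX0 : 0 ≤ Real.log X := Real.log_nonneg hX1
    have hlX1 : Real.log X ≤ ell := by
      rw [hlogX]
      calc a * ell ≤ 1 * ell := mul_le_mul_of_nonneg_right ha1 (by linarith)
        _ = ell := one_mul _
    have h1 := e1 t ht
    have h2 := r1 t
    have h3 := r0 t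
    have h4 := hKs t ht
    have h5 : |(SD1 u t - SD1 u' t) - Real.log X * (S u t - S u' t)| ≤
        |D1 t - Real.log X * D t| + K t + ell * K t := by
      have h6 : (SD1 u t - SD1 u' t) - Real.log X * (S u t - S u' t) =
          (D1 t - Real.log X * D t) + ((SD1 u t - SD1 u' t) - D1 t) +
            -(Real.log X * ((S u t - S u' t) - D t)) := by ring
      rw [h6]
      refine (abs_add_le _ _).trans (add_le_add ((abs_add_le _ _).trans
        (add_le_add le_rfl h2)) ?_)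
      rw [abs_neg, abs_mul, abs_of_nonneg hlX0]
      exact mul_le_mul hlX1 h3 (abs_nonneg _) (by linarith)
    have h7 := (hE t ht).1
    have h8 := hDpos t ht
    have h9 : K t + ell * K t ≤ D t / 100 := by
      have := h4.2.2
      linarith [this, (by ring : (1 + ell) * K t = K t + ell * K t)]
    linarith
  · intro t ht
    have hEt := hEa t ht
    simp only [hEt]
    have h1 := e2 t ht
    have h2 := r2 t
    have h4 := (hKs t ht).1
    have h5 : |SD2 u t - SD2 u' t| ≤ |D2 t| + K t := by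
      have h6 : SD2 u t - SD2 u' t = D2 t + ((SD2 u t - SD2 u' t) - D2 t) := by ring
      rw [h6]
      exact (abs_add_le _ _).trans (add_le_add le_rfl h2)
    have h7 := (hE t ht).1
    have h8 := hDpos t ht
    have hlog16 : Real.log 16 ≤ 3 := by
      have h9 : (16 : ℝ) = 2 ^ 4 := by norm_num
      rw [h9, Real.log_pow]
      have := Real.log_two_lt_d9
      push_cast
      linarith
    have h10 : Real.log (16 * X) ≤ 4 * ell := by
      rw [Real.log_mul (by norm_num) hX0.ne', hlogX]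
      have : a * ell ≤ 1 * ell := mul_le_mul_of_nonneg_right ha1 (by linarith)
      linarith
    have h11 : 0 ≤ Real.log (16 * X) := Real.log_nonneg (by linarith)
    have h12 : Real.log (16 * X) ^ 2 ≤ 16 * ell ^ 2 := by
      calc Real.log (16 * X) ^ 2 ≤ (4 * ell) ^ 2 := pow_le_pow_left₀ h11 h10 2
        _ = 16 * ell ^ 2 := by ring
    have h13 : 33 * Real.log (16 * X) ^ 2 * D t ≤ 528 * (ell ^ 2 * D t) := by
      calc 33 * Real.log (16 * X) ^ 2 * D t ≤ 33 * (16 * ell ^ 2) * D t :=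
            mul_le_mul_of_nonneg_right (mul_le_mul_of_nonneg_left h12 (by norm_num)) h8.le
        _ = 528 * (ell ^ 2 * D t) := by ring
    have h14 : D t ≤ ell ^ 2 * D t := by
      calc D t = 1 * D t := (one_mul _).symm
        _ ≤ ell ^ 2 * D t := mul_le_mul_of_nonneg_right (one_le_pow₀ hell1) h8.le
    have h15 : ell ^ 2 * (99 / 100 * D t) ≤ ell ^ 2 * (S u t - S u' t) :=
      mul_le_mul_of_nonneg_left h7 (by positivity)
    have h16 : ell ^ 2 * (99 / 100 * D t) = 99 / 100 * (ell ^ 2 * D t) := by ring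
    have h17 : 1100 * ell ^ 2 * (S u t - S u' t) = 1100 * (ell ^ 2 * (S u t - S u' t)) := by ring
    rw [h16] at h15
    rw [h17]
    linarith

theorem tame_U (s : ℕ) {σ p q b : ℝ} (hσ : 0 < σ) (hp : 1 < p) (hpq : p ≤ q)
    (gap : σ * p < p - 1) (hb : 0 < b) (hb1 : b ≤ 1) :
    ∃ P0 : ℝ, 3 ≤ P0 ∧ ∀ P ≥ P0, ∀ u ∈ U s σ b P, ∀ u' ∈ U s σ b P, u ≠ u' →
      ∃ i : Fin s, Tame p q (Real.log P) 1100 (4 * q * 16 ^ q * P ^ (q - p)) (b * σ ^ (i : ℕ))
        |S u p - S u' p| (fun t => S u t - S u' t) (fun t => SD1 u t - SD1 u' t)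
        (fun t => SD2 u t - SD2 u' t) := by
  obtain ⟨P0, _, hP0⟩ := rest_bound s hσ hp hpq gap hb hb1
  refine ⟨max 3 P0, le_max_left _ _, fun P hP u hu u' hu' hne => ?_⟩
  have hP3 : 3 ≤ P := (le_max_left _ _).trans hP
  have hPP : P ≥ P0 := (le_max_right _ _).trans hP
  have hσ1 : σ < 1 := by
    by_contra hcon
    have h1 : 1 * p ≤ σ * p := mul_le_mul_of_nonneg_right (not_lt.1 hcon) (by linarith)
    linarith
  have hT : (univ.filter fun k => u k ≠ u' k).Nonempty := by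
    by_contra hcon
    apply hne
    funext k
    by_contra hk
    exact hcon ⟨k, Finset.mem_filter.2 ⟨Finset.mem_univ k, hk⟩⟩
  obtain ⟨i, hi⟩ : ∃ i, i = (univ.filter fun k => u k ≠ u' k).min' hT := ⟨_, rfl⟩
  have hine : u i ≠ u' i := by
    have h1 := Finset.min'_mem _ hT
    rw [← hi] at h1
    exact (Finset.mem_filter.1 h1).2
  have hlt : ∀ k < i, u k = u' k := by
    intro k hk
    by_contra hcon
    have h1 := Finset.min'_le (univ.filter fun k => u k ≠ u' k) k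
      (Finset.mem_filter.2 ⟨Finset.mem_univ k, hcon⟩)
    rw [← hi] at h1
    exact absurd hk (not_lt.2 h1)
  refine ⟨i, ?_⟩
  rcases lt_or_gt_of_ne hine with h | h
  · have h1 := TameU_neg (TameU_pos s hσ hσ1 hp hpq hb hb1 hP3 hu' hu (fun k hk => (hlt k hk).symm) h
      (fun t ht => hP0 P hPP u' hu' i t ht) (fun t ht => hP0 P hPP u hu i t ht))
    simp only [neg_sub] at h1
    rw [abs_sub_comm] at h1
    exact h1
  · exact TameU_pos s hσ hσ1 hp hpq hb hb1 hP3 hu hu' hlt h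
      (fun t ht => hP0 P hPP u hu i t ht) (fun t ht => hP0 P hPP u' hu' i t ht)

end Pool.Agent.Lib.MP_570bef_ntRE
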