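import Mathlib
import Pool.Agent.Lib.MP_570bef_ntRE.Fam
import Pool.Agent.Lib.MP_570bef_ntRE.PairC
import Pool.Agent.Lib.MP_570bef_ntRE.TameU
import Pool.Agent.Lib.MP_570bef_ntRE.SumK

/-!
# JOB FamC: the family in the exponent (about 150 lines)

`th ∈ (0, 1]` with `th ≤ |1 * σ^i - b * σ^j|` for all `i, j < s`: the numbers are nonzero (`b = σ^(i-j)` is impossible as `σ < b < 1`: `σ^i = b σ^j`; if `i ≤ j` then `σ^i ≥ σ^j > b σ^j`, if `i ≥ j + 1` then `σ^i ≤ σ^(j+1) < b σ^j`); finitely many (`sep`).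
`three`: `val (u, v) t lam - val (u', v') t lam = E t + lam F t`, `E t = S u t - S u' t`, `F t = S v t - S v' t`; `tame_U` for the blocks with `1` and with `b` (`1 ≤ R := 4 q 16^q P^(q-p)`), `pairC` with `C = 1100`, `ell = log P` (large), `e = |S u p - S u' p|` (`≥ 32 ε/th` for large `P` by `pos_diff`), `e' = |S v p - S v' p| > 0` (`pos_diff`), `L = P^l ≥ ε`.
`one`: the difference is `E t`, `|E t| ≥ e/4`, so `|kap (E t)| ≤ 2/|E t| ≤ 8/e` (`kap_inv`, `triv`).  `two`: the difference is `lam F t`: `≤ 8/(lam e')`.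
`lip`: `|(u i)^t - (u i)^t'| ≤ (16 P)^q log (16 P) |t - t'|` (mean value; `1 ≤ u i ≤ 16 P`), so `val` changes by at most `(1 + lam) s (16 P)^q log (16 P) |t - t'| ≤ P^(q+2) |t - t'|` for large `P`.
`K` = the maximum of `8`, `8/lam` and `7200 * 1100/(th^3 lam) * 4 q 16^q`.
-/

namespace Pool.Agent.Lib.MP_570bef_ntRE

private theorem FamC_min {α : Type*} [Finite α] (f : α → ℝ) (h : ∀ a, 0 < f a) :
    ∃ κ, 0 < κ ∧ ∀ a, κ ≤ f a := by
  rcases isEmpty_or_nonempty α with h0 | h0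
  · exact ⟨1, one_pos, fun a => h0.elim a⟩
  · obtain ⟨a, ha⟩ := Finite.exists_min f
    exact ⟨f a, h a, ha⟩

theorem sep (s : ℕ) {σ b : ℝ} (hσ : 0 < σ) (hσb : σ < b) (hb : b < 1) :
    ∃ th : ℝ, 0 < th ∧ th ≤ 1 ∧ ∀ i j : Fin s, th ≤ |1 * σ ^ (i : ℕ) - b * σ ^ (j : ℕ)| := by
  have hσ1 : σ < 1 := hσb.trans hb
  have hpos : ∀ x : Fin s × Fin s, 0 < |1 * σ ^ (x.1 : ℕ) - b * σ ^ (x.2 : ℕ)| := by
    rintro ⟨i, j⟩
    rw [abs_pos, sub_ne_zero, one_mul]
    intro h0
    change σ ^ (i : ℕ) = b * σ ^ (j : ℕ) at h0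
    have hj : 0 < σ ^ (j : ℕ) := pow_pos hσ _
    rcases Nat.lt_or_ge (j : ℕ) (i : ℕ) with h | h
    · have h1 : σ ^ (i : ℕ) ≤ σ ^ ((j : ℕ) + 1) := pow_le_pow_of_le_one hσ.le hσ1.le h
      rw [pow_succ] at h1
      nlinarith
    · have h1 : σ ^ (j : ℕ) ≤ σ ^ (i : ℕ) := pow_le_pow_of_le_one hσ.le hσ1.le h
      nlinarith
  obtain ⟨κ, hκ, hκ'⟩ := FamC_min (fun x : Fin s × Fin s =>
    |1 * σ ^ (x.1 : ℕ) - b * σ ^ (x.2 : ℕ)|) hpos
  exact ⟨min κ 1, lt_min hκ one_pos, min_le_right _ _, fun i j => (min_le_left _ _).trans (hκ' (i, j))⟩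

private theorem FamC_one {s : ℕ} {p q P : ℝ} (hp : 1 < p) (hP : 1 ≤ P) {u : Fin s → ℕ}
    (h1 : ∀ i, 1 ≤ u i) (h2 : ∀ i, (u i : ℝ) ≤ 16 * P) {t t' : ℝ} (ht : t ∈ Set.Icc p q)
    (ht' : t' ∈ Set.Icc p q) :
    |S u t - S u t'| ≤ s * ((16 * P) ^ q * Real.log (16 * P)) * |t - t'| := by
  have hb : ∀ x ∈ Set.Icc p q, ‖SD1 u x‖ ≤ s * ((16 * P) ^ q * Real.log (16 * P)) := by
    intro x hx
    rw [Real.norm_eq_abs]
    unfold SD1
    refine (Finset.abs_sum_le_sum_abs _ _).trans ?_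
    have h3 : ∀ i : Fin s, |(u i : ℝ) ^ x * Real.log (u i)| ≤ (16 * P) ^ q * Real.log (16 * P) := by
      intro i
      have hu1 : (1 : ℝ) ≤ u i := by exact_mod_cast h1 i
      have hu0 : (0 : ℝ) < u i := by linarith
      have hl0 : 0 ≤ Real.log (u i) := Real.log_nonneg hu1
      rw [abs_of_nonneg (mul_nonneg (Real.rpow_nonneg hu0.le _) hl0)]
      have h4 : (u i : ℝ) ^ x ≤ (16 * P) ^ q :=
        (Real.rpow_le_rpow hu0.le (h2 i) (by linarith [hx.1])).trans
          (Real.rpow_le_rpow_of_exponent_le (by linarith) hx.2)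
      exact mul_le_mul h4 (Real.log_le_log hu0 (h2 i)) hl0 (by positivity)
    refine (Finset.sum_le_sum fun i _ => h3 i).trans (le_of_eq ?_)
    rw [Finset.sum_const, Finset.card_univ, Fintype.card_fin, nsmul_eq_mul]
  have h5 := Convex.norm_image_sub_le_of_norm_hasDerivWithin_le (f := S u) (f' := SD1 u)
    (fun x _ => (S_der h1 x).hasDerivWithinAt) hb (convex_Icc p q) ht' ht
  rw [Real.norm_eq_abs, Real.norm_eq_abs] at h5
  exact h5

private theorem FamC_le {s : ℕ} {σ b P : ℝ} (hσ : 0 < σ) (hσ1 : σ < 1) (hb : 0 < b) (hb1 : b ≤ 1)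
    (hP : 1 ≤ P) {u : Fin s → ℕ} (hu : u ∈ U s σ b P) (i : Fin s) : (u i : ℝ) ≤ 16 * P := by
  have h := ((mem_U (by linarith)).1 hu i).2
  have h1 : P ^ (b * σ ^ (i : ℕ)) ≤ P := by
    calc P ^ (b * σ ^ (i : ℕ)) ≤ P ^ (1 : ℝ) := by
          refine Real.rpow_le_rpow_of_exponent_le hP ?_
          have h2 : σ ^ (i : ℕ) ≤ 1 := pow_le_one₀ hσ.le hσ1.le
          have h3 : 0 ≤ σ ^ (i : ℕ) := by positivity
          nlinarith
      _ = P := Real.rpow_one P
  linarith

private theorem FamC_kap {p q ell C R a e ε L lam : ℝ} {E E1 E2 : ℝ → ℝ} (hpq : p < q)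
    (hq : q ≤ p + 1) (hε : 0 < ε) (hL : ε ≤ L) (he : 0 < e) (hlam : 0 < lam)
    (hE : Tame p q ell C R a e E E1 E2) :
    |∫ t in p..q, om p q t * kap ε L (lam * E t)| ≤ 8 / lam * (1 / e) := by
  refine triv hpq hq ε L (fun t => lam * E t) (fun t ht => ?_)
  have h1 : e / 4 ≤ |E t| := by
    rcases hE.sgn with h | h
    · exact (h t ht).trans (le_abs_self _)
    · have h2 := h t ht
      exact (by linarith : e / 4 ≤ -E t).trans (neg_le_abs _)
  have h2 : 0 < |E t| := lt_of_lt_of_le (by positivity) h1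
  have h3 : lam * E t ≠ 0 := mul_ne_zero hlam.ne' (abs_pos.1 h2)
  refine (kap_inv hε hL h3).trans ?_
  rw [abs_mul, abs_of_pos hlam]
  have h4 : 8 / lam * (1 / e) = 2 / (lam * (e / 4)) := by
    field_simp
    norm_num
  rw [h4]
  exact div_le_div_of_nonneg_left (by norm_num) (by positivity)
    (mul_le_mul_of_nonneg_left h1 hlam.le)

theorem fam_C {s : ℕ} {p q σ b l η : ℝ} (h : Par s p q σ b l η) (hpq : p < q) {lam ε : ℝ}
    (hlam : 0 < lam) (hε : 0 < ε) :
    ∃ K P1 : ℝ, Fam s p q σ b l p q lam ε K P1 (fun t => t) (fun _ => lam) := by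
  have hσ1 : σ < 1 := h.hσb.trans h.hb
  have hb0 : 0 < b := h.hσ.trans h.hσb
  have hl : 0 < l := by linarith [h.hl1, h.hp, h.hpq]
  have hq1 : 1 ≤ q := by linarith [h.hp, h.hpq]
  obtain ⟨th, hth, hth1, hsep⟩ := sep s h.hσ h.hσb h.hb
  obtain ⟨PT1, hPT1, hT1⟩ := tame_U s (b := 1) h.hσ h.hp h.hpq h.gap one_pos le_rfl
  obtain ⟨PTb, hPTb, hTb⟩ := tame_U s (b := b) h.hσ h.hp h.hpq h.gap hb0 h.hb.le
  obtain ⟨PD1, hPD1, hD1⟩ := pos_diff s h.hσ h.hp h.gap 1 one_pos le_rfl (max 1 (32 * ε / th))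
  obtain ⟨PDb, hPDb, hDb⟩ := pos_diff s h.hσ h.hp h.gap b hb0 h.hb.le 1
  set K0 : ℝ := 7200 * 1100 / (th ^ 3 * lam) * (4 * q * 16 ^ q) with hK0
  have hK0n : 0 ≤ K0 := by positivity
  set P1 : ℝ := max (max (max PT1 PTb) (max PD1 PDb)) (max (max (Real.exp (12 * 1100 / th))
    (ε ^ (1 / l))) ((1 + lam) * s * 16 ^ q * 16)) with hP1
  have a1 : ∀ P ≥ P1, PT1 ≤ P := fun P hP =>
    ((le_max_left _ _).trans ((le_max_left _ _).trans (le_max_left _ _))).trans hP
  have a2 : ∀ P ≥ P1, PTb ≤ P := fun P hP =>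
    ((le_max_right _ _).trans ((le_max_left _ _).trans (le_max_left _ _))).trans hP
  have a3 : ∀ P ≥ P1, PD1 ≤ P := fun P hP =>
    ((le_max_left _ _).trans ((le_max_right _ _).trans (le_max_left _ _))).trans hP
  have a4 : ∀ P ≥ P1, PDb ≤ P := fun P hP =>
    ((le_max_right _ _).trans ((le_max_right _ _).trans (le_max_left _ _))).trans hP
  have a5 : ∀ P ≥ P1, Real.exp (12 * 1100 / th) ≤ P := fun P hP =>
    ((le_max_left _ _).trans ((le_max_left _ _).trans (le_max_right _ _))).trans hP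
  have a6 : ∀ P ≥ P1, ε ^ (1 / l) ≤ P := fun P hP =>
    ((le_max_right _ _).trans ((le_max_left _ _).trans (le_max_right _ _))).trans hP
  have a7 : ∀ P ≥ P1, (1 + lam) * s * 16 ^ q * 16 ≤ P := fun P hP =>
    ((le_max_right _ _).trans (le_max_right _ _)).trans hP
  have a8 : ∀ P ≥ P1, 1 ≤ P := fun P hP => by linarith [a1 P hP]
  have a9 : ∀ P ≥ P1, ε ≤ P ^ l := by
    intro P hP
    calc ε = (ε ^ (1 / l)) ^ l := by
          rw [← Real.rpow_mul hε.le, one_div_mul_cancel hl.ne', Real.rpow_one]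
      _ ≤ P ^ l := Real.rpow_le_rpow (Real.rpow_nonneg hε.le _) (a6 P hP) hl.le
  have a10 : ∀ P ≥ P1, 12 * 1100 / th ≤ Real.log P := by
    intro P hP
    rw [Real.le_log_iff_exp_le (by linarith [a8 P hP])]
    exact a5 P hP
  refine ⟨max (max 8 (8 / lam)) K0, P1, ⟨?_, ?_, ?_, ?_, ?_, ?_, ?_⟩⟩
  · exact (by norm_num : (0 : ℝ) ≤ 8).trans ((le_max_left _ _).trans (le_max_left _ _))
  · exact fun t ht => ht
  · exact fun t _ => ⟨hlam, le_rfl⟩
  · intro P hP x hx t ht t' ht'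
    beta_reduce
    have hP1' := a8 P hP
    obtain ⟨hx1, hx2⟩ := Finset.mem_product.1 hx
    have b1 := FamC_one h.hp hP1' (fun i => U_pos h.hσ zero_le_one hP1' hx1 i)
      (fun i => FamC_le h.hσ hσ1 one_pos le_rfl hP1' hx1 i) ht ht'
    have b2 := FamC_one h.hp hP1' (fun i => U_pos h.hσ hb0.le hP1' hx2 i)
      (fun i => FamC_le h.hσ hσ1 hb0 h.hb.le hP1' hx2 i) ht ht'
    have b3 : |val x t lam - val x t' lam| ≤
        (1 + lam) * (s * ((16 * P) ^ q * Real.log (16 * P)) * |t - t'|) := by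
      have e1 : val x t lam - val x t' lam = (S x.1 t - S x.1 t') + lam * (S x.2 t - S x.2 t') := by
        unfold val
        ring
      rw [e1, add_mul, one_mul]
      refine (abs_add_le _ _).trans (add_le_add b1 ?_)
      rw [abs_mul, abs_of_pos hlam]
      exact mul_le_mul_of_nonneg_left b2 hlam.le
    refine b3.trans ?_
    have e2 : (1 + lam) * (s * ((16 * P) ^ q * Real.log (16 * P)) * |t - t'|) =
        (1 + lam) * s * ((16 * P) ^ q * Real.log (16 * P)) * |t - t'| := by ring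
    rw [e2]
    refine mul_le_mul_of_nonneg_right ?_ (abs_nonneg _)
    have hPpos : 0 < P := by linarith
    have e3 : (16 * P) ^ q = 16 ^ q * P ^ q := Real.mul_rpow (by norm_num) hPpos.le
    have e4 : P ^ (q + 2) = P ^ q * (P * P) := by
      rw [Real.rpow_add hPpos, Real.rpow_two, sq]
    have e5 : Real.log (16 * P) ≤ 16 * P := by
      have := Real.log_le_sub_one_of_pos (by positivity : 0 < 16 * P)
      linarith
    rw [e3, e4]
    have hs0 : (0 : ℝ) ≤ (1 + lam) * s * 16 ^ q := by positivity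
    calc (1 + lam) * s * (16 ^ q * P ^ q * Real.log (16 * P)) =
          P ^ q * ((1 + lam) * s * 16 ^ q * Real.log (16 * P)) := by ring
      _ ≤ P ^ q * ((1 + lam) * s * 16 ^ q * (16 * P)) :=
          mul_le_mul_of_nonneg_left (mul_le_mul_of_nonneg_left e5 hs0) (by positivity)
      _ = P ^ q * ((1 + lam) * s * 16 ^ q * 16 * P) := by ring
      _ ≤ P ^ q * (P * P) :=
          mul_le_mul_of_nonneg_left (mul_le_mul_of_nonneg_right (a7 P hP) hPpos.le) (by positivity)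
  · intro P hP u hu u' hu' v _ huu
    obtain ⟨i, hE⟩ := hT1 P (a1 P hP) u hu u' hu' huu
    have he : 0 < |S u p - S u' p| :=
      lt_of_lt_of_le (lt_of_lt_of_le one_pos (le_max_left _ _)) (hD1 P (a3 P hP) u hu u' hu' huu)
    have b1 := FamC_kap hpq h.hq hε (a9 P hP) he one_pos hE
    have e1 : (fun t => om p q t * kap ε (P ^ l) (val (u, v) t lam - val (u', v) t lam)) =
        fun t => om p q t * kap ε (P ^ l) (1 * (S u t - S u' t)) := by
      funext t
      have e2 : val (u, v) t lam - val (u', v) t lam = 1 * (S u t - S u' t) := by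
        unfold val
        ring
      rw [e2]
    beta_reduce
    rw [e1]
    refine b1.trans (mul_le_mul_of_nonneg_right ?_ (by positivity))
    rw [div_one]
    exact (le_max_left _ _).trans (le_max_left _ _)
  · intro P hP u _ v hv v' hv' hvv
    obtain ⟨i, hE⟩ := hTb P (a2 P hP) v hv v' hv' hvv
    have he : 0 < |S v p - S v' p| :=
      lt_of_lt_of_le one_pos (hDb P (a4 P hP) v hv v' hv' hvv)
    have b1 := FamC_kap hpq h.hq hε (a9 P hP) he hlam hE
    have e1 : (fun t => om p q t * kap ε (P ^ l) (val (u, v) t lam - val (u, v') t lam)) =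
        fun t => om p q t * kap ε (P ^ l) (lam * (S v t - S v' t)) := by
      funext t
      have e2 : val (u, v) t lam - val (u, v') t lam = lam * (S v t - S v' t) := by
        unfold val
        ring
      rw [e2]
    beta_reduce
    rw [e1]
    refine b1.trans (mul_le_mul_of_nonneg_right ?_ (by positivity))
    exact (le_max_right _ _).trans (le_max_left _ _)
  · intro P hP u hu u' hu' v hv v' hv' huu hvv
    obtain ⟨i, hE⟩ := hT1 P (a1 P hP) u hu u' hu' huu
    obtain ⟨j, hF⟩ := hTb P (a2 P hP) v hv v' hv' hvv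
    have he1 := hD1 P (a3 P hP) u hu u' hu' huu
    have he : 0 < |S u p - S u' p| := lt_of_lt_of_le (lt_of_lt_of_le one_pos (le_max_left _ _)) he1
    have he' : 0 < |S v p - S v' p| := lt_of_lt_of_le one_pos (hDb P (a4 P hP) v hv v' hv' hvv)
    have hPpos : 0 < P := by linarith [a8 P hP]
    have hσj : σ ^ (j : ℕ) ≤ 1 := pow_le_one₀ h.hσ.le hσ1.le
    have hσj0 : 0 < σ ^ (j : ℕ) := pow_pos h.hσ _
    have c1 : (1 : ℝ) ≤ 12 * 1100 / th := by
      rw [le_div_iff₀ hth]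
      linarith
    have c2 : (1 : ℝ) ≤ 16 ^ q := Real.one_le_rpow (by norm_num) (by linarith)
    have c3 : (1 : ℝ) ≤ P ^ (q - p) := Real.one_le_rpow (a8 P hP) (by linarith)
    have c4 : (1 : ℝ) ≤ 4 * q * 16 ^ q * P ^ (q - p) :=
      one_le_mul_of_one_le_of_one_le (one_le_mul_of_one_le_of_one_le (by linarith) c2) c3
    have b1 := pairC hpq h.hq hε (a9 P hP) hth hth1 (by norm_num : (1 : ℝ) ≤ 1100) hlam c4
      (mul_pos hb0 hσj0) (by nlinarith [h.hb]) (hsep i j) (a10 P hP) (c1.trans (a10 P hP))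
      ((le_max_right _ _).trans he1) he' hE hF
    have e1 : (fun t => om p q t * kap ε (P ^ l) (val (u, v) t lam - val (u', v') t lam)) =
        fun t => om p q t * kap ε (P ^ l) ((S u t - S u' t) + lam * (S v t - S v' t)) := by
      funext t
      have e2 : val (u, v) t lam - val (u', v') t lam =
          (S u t - S u' t) + lam * (S v t - S v' t) := by
        unfold val
        ring
      rw [e2]
    beta_reduce
    rw [e1]
    refine b1.trans ?_
    have e3 : 7200 * 1100 / (th ^ 3 * lam) * (4 * q * 16 ^ q * P ^ (q - p)) * P ^ l /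
        (|S u p - S u' p| * |S v p - S v' p|) =
        K0 * P ^ (q - p) * P ^ l * (1 / |S u p - S u' p| * (1 / |S v p - S v' p|)) := by
      rw [hK0]
      field_simp
    rw [e3]
    refine mul_le_mul_of_nonneg_right (mul_le_mul_of_nonneg_right
      (mul_le_mul_of_nonneg_right (le_max_right _ _) (by positivity)) (by positivity)) (by positivity)

end Pool.Agent.Lib.MP_570bef_ntRE
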