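import Mathlib

/-!
# JOB Avg: summing the pair bounds (about 70 lines)

For fixed `x = (u, v)` split the sum over `x' = (u', v')` into the four parts `u' = u, v' = v`; `u' ≠ u, v' = v`; `u' = u, v' ≠ v`; `u' ≠ u, v' ≠ v` (`Finset.sum_product`, `Finset.add_sum_erase`): at most `D + C K1 + C K2 + M K1 K2`.
-/

namespace Pool.Agent.Lib.MP_570bef_ntRE

open Finset

theorem avg {α β : Type*} [DecidableEq α] [DecidableEq β] (A : Finset α) (B : Finset β)
    (J : α × β → α × β → ℝ) (eA : α → α → ℝ) (eB : β → β → ℝ) {D C M K1 K2 : ℝ}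
    (hC : 0 ≤ C) (hM : 0 ≤ M) (hK1 : 0 ≤ K1) (heA : ∀ u u', 0 ≤ eA u u')
    (heB : ∀ v v', 0 ≤ eB v v')
    (h0 : ∀ u ∈ A, ∀ v ∈ B, |J (u, v) (u, v)| ≤ D)
    (h1 : ∀ u ∈ A, ∀ u' ∈ A, ∀ v ∈ B, u ≠ u' → |J (u, v) (u', v)| ≤ C * eA u u')
    (h2 : ∀ u ∈ A, ∀ v ∈ B, ∀ v' ∈ B, v ≠ v' → |J (u, v) (u, v')| ≤ C * eB v v')
    (h3 : ∀ u ∈ A, ∀ u' ∈ A, ∀ v ∈ B, ∀ v' ∈ B, u ≠ u' → v ≠ v' →
      |J (u, v) (u', v')| ≤ M * (eA u u' * eB v v'))
    (hA : ∀ u ∈ A, ∑ u' ∈ A.erase u, eA u u' ≤ K1)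
    (hB : ∀ v ∈ B, ∑ v' ∈ B.erase v, eB v v' ≤ K2) :
    ∑ x ∈ A ×ˢ B, ∑ x' ∈ A ×ˢ B, |J x x'| ≤
      ((A.card : ℝ) * B.card) * (D + C * K1 + C * K2 + M * (K1 * K2)) := by
  have key : ∀ x ∈ A ×ˢ B, ∑ x' ∈ A ×ˢ B, |J x x'| ≤ D + C * K1 + C * K2 + M * (K1 * K2) := by
    rintro ⟨u, v⟩ hx
    obtain ⟨hu, hv⟩ := Finset.mem_product.1 hx
    dsimp only at hu hv
    rw [Finset.sum_product]
    rw [← Finset.add_sum_erase A _ hu]
    have e1 : ∑ v' ∈ B, |J (u, v) (u, v')| ≤ D + C * K2 := by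
      rw [← Finset.add_sum_erase B _ hv]
      have e2 : ∑ v' ∈ B.erase v, |J (u, v) (u, v')| ≤ C * K2 := by
        refine (Finset.sum_le_sum fun v' hv' => ?_).trans
          ((Finset.mul_sum _ _ _).symm.le.trans (mul_le_mul_of_nonneg_left (hB v hv) hC))
        exact h2 u hu v hv v' (Finset.mem_of_mem_erase hv') (Finset.ne_of_mem_erase hv').symm
      linarith [h0 u hu v hv]
    have e3 : ∑ u' ∈ A.erase u, ∑ v' ∈ B, |J (u, v) (u', v')| ≤
        C * K1 + M * (K1 * K2) := by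
      have e4 : ∀ u' ∈ A.erase u, ∑ v' ∈ B, |J (u, v) (u', v')| ≤
          C * eA u u' + M * K2 * eA u u' := by
        intro u' hu'
        have hu1 := Finset.mem_of_mem_erase hu'
        have hu2 := (Finset.ne_of_mem_erase hu').symm
        rw [← Finset.add_sum_erase B _ hv]
        have e5 : ∑ v' ∈ B.erase v, |J (u, v) (u', v')| ≤ M * K2 * eA u u' := by
          have e6 : ∑ v' ∈ B.erase v, |J (u, v) (u', v')| ≤
              ∑ v' ∈ B.erase v, (M * eA u u') * eB v v' := by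
            refine Finset.sum_le_sum fun v' hv' => ?_
            have e7 := h3 u hu u' hu1 v hv v' (Finset.mem_of_mem_erase hv') hu2
              (Finset.ne_of_mem_erase hv').symm
            linarith
          rw [← Finset.mul_sum] at e6
          have e8 := mul_le_mul_of_nonneg_left (hB v hv) (mul_nonneg hM (heA u u'))
          linarith
        linarith [h1 u hu u' hu1 v hv hu2]
      refine (Finset.sum_le_sum e4).trans ?_
      rw [Finset.sum_add_distrib, ← Finset.mul_sum, ← Finset.mul_sum]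
      have hS := hA u hu
      have hK2 : 0 ≤ K2 := (Finset.sum_nonneg fun v' _ => heB v v').trans (hB v hv)
      have e9 := mul_le_mul_of_nonneg_left hS hC
      have e10 := mul_le_mul_of_nonneg_left hS (mul_nonneg hM hK2)
      linarith
    linarith
  refine (Finset.sum_le_sum key).trans ?_
  rw [Finset.sum_const, Finset.card_product, nsmul_eq_mul]
  push_cast
  exact le_refl _

end Pool.Agent.Lib.MP_570bef_ntRE
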