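import Mathlib
import Pool.Agent.Lib.MP_570bef_ntRE.Fam
import Pool.Agent.Lib.MP_570bef_ntRE.Kap
import Pool.Agent.Lib.MP_570bef_ntRE.SumK
import Pool.Agent.Lib.MP_570bef_ntRE.Avg
import Pool.Agent.Lib.MP_570bef_ntRE.Stat

/-!
# JOB IntB: the mean of the normalised energy (about 170 lines)

The integrand is a finite sum; every `t ↦ om t1 t2 t * kap ε (P^l) (val x - val x')` is continuous on `[t1, t2]` (`Fam.lip`), so the integral of `om * En` is `∑ x, ∑ x', J x x'` with `J x x' = ∫ om * kap(..)`; `≤ ∑ ∑ |J|`.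
`avg` with `eA u u' = 1/|S u p - S u' p|` etc., `D = 2/ε` (`triv`, `kap_le`; `ε ≤ P^l` for large `P` as `l > 0`), `C = K`, `M = K P^(q-p) P^l`, `K1 = P^(δ - (p-1) σ^s/σ)`, `K2 = P^(δ - b (p-1) σ^s/σ)` from `sumK` (`b = 1` and `b`), where `δ > 0` is so small that `δ ≤ b (p-1) σ^s/σ` (so `K1, K2 ≤ 1`) and `2 δ < (1 + b)(A + (p-1) σ^s/σ) - (q + (q - p) + l + η)`, `A = (1 - σ^s)/(1 - σ)` (`Par.e2`).
Divide by `thr`: `card XX = card U1 * card U2 ≥ P^((1+b) A)` (`U_card_ge`), so the quotient is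
`≤ 8 q^2 16^(2q) P^(q - (1+b) A) (2/ε + 2 K + K P^(q - p + l + 2 δ - (1+b)(p-1) σ^s/σ))`, which is `≤ P^(-η)` for large `P` by `Par.e1`, `Par.e2` (strict inequalities).
-/

namespace Pool.Agent.Lib.MP_570bef_ntRE

open Finset MeasureTheory Filter Topology

private theorem IntB_val_cont {s : ℕ} {p q σ b l t1 t2 Λ ε K P1 P : ℝ} {c lam : ℝ → ℝ}
    (hF : Fam s p q σ b l t1 t2 Λ ε K P1 c lam) (hP : P1 ≤ P) (hP0 : 1 ≤ P)
    {x : (Fin s → ℕ) × (Fin s → ℕ)} (hx : x ∈ XX s σ b P) :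
    ContinuousOn (fun t => val x (c t) (lam t)) (Set.Icc t1 t2) := by
  rw [Metric.continuousOn_iff]
  intro t ht e he
  have hC : 0 < P ^ (q + 2) := Real.rpow_pos_of_pos (by linarith) _
  refine ⟨e / P ^ (q + 2), by positivity, ?_⟩
  intro t' ht' hd
  rw [Real.dist_eq] at hd ⊢
  calc |val x (c t') (lam t') - val x (c t) (lam t)| ≤ P ^ (q + 2) * |t' - t| :=
        hF.lip P hP x hx t' ht' t ht
    _ < P ^ (q + 2) * (e / P ^ (q + 2)) := by gcongr
    _ = e := by field_simp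

private theorem IntB_ii {s : ℕ} {p q σ b l t1 t2 Λ ε K P1 P : ℝ} {c lam : ℝ → ℝ}
    (ht : t1 < t2) (hF : Fam s p q σ b l t1 t2 Λ ε K P1 c lam) (hP : P1 ≤ P) (hP0 : 1 ≤ P)
    {x x' : (Fin s → ℕ) × (Fin s → ℕ)} (hx : x ∈ XX s σ b P) (hx' : x' ∈ XX s σ b P) :
    IntervalIntegrable (fun t => om t1 t2 t *
      kap ε (P ^ l) (val x (c t) (lam t) - val x' (c t) (lam t))) volume t1 t2 := by
  apply ContinuousOn.intervalIntegrable
  rw [Set.uIcc_of_le ht.le]
  apply ContinuousOn.mul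
  · exact (by unfold om; fun_prop : Continuous (om t1 t2)).continuousOn
  · exact (kap_cont ε (P ^ l)).comp_continuousOn
      ((IntB_val_cont hF hP hP0 hx).sub (IntB_val_cont hF hP hP0 hx'))

private theorem IntB_int {s : ℕ} {p q σ b l t1 t2 Λ ε K P1 P : ℝ} {c lam : ℝ → ℝ}
    (ht : t1 < t2) (hF : Fam s p q σ b l t1 t2 Λ ε K P1 c lam) (hP : P1 ≤ P) (hP0 : 1 ≤ P) :
    ∫ t in t1..t2, om t1 t2 t * GG s σ b q l ε P (c t) (lam t) =
      (∑ x ∈ XX s σ b P, ∑ x' ∈ XX s σ b P, ∫ t in t1..t2, om t1 t2 t *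
        kap ε (P ^ l) (val x (c t) (lam t) - val x' (c t) (lam t))) / thr s σ b q P := by
  have e : ∀ t, om t1 t2 t * GG s σ b q l ε P (c t) (lam t) =
      (∑ x ∈ XX s σ b P, ∑ x' ∈ XX s σ b P, om t1 t2 t *
        kap ε (P ^ l) (val x (c t) (lam t) - val x' (c t) (lam t))) / thr s σ b q P := by
    intro t
    unfold GG En
    rw [mul_div_assoc', Finset.mul_sum]
    congr 1
    refine Finset.sum_congr rfl fun x _ => ?_
    rw [Finset.mul_sum]
  simp_rw [e]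
  rw [intervalIntegral.integral_div]
  congr 1
  rw [intervalIntegral.integral_finsetSum]
  · refine Finset.sum_congr rfl fun x hx => ?_
    rw [intervalIntegral.integral_finsetSum]
    intro x' hx'
    exact IntB_ii ht hF hP hP0 hx hx'
  · intro x hx
    have := IntervalIntegrable.sum (μ := volume) (a := t1) (b := t2) (XX s σ b P)
      (f := fun x' t => om t1 t2 t *
        kap ε (P ^ l) (val x (c t) (lam t) - val x' (c t) (lam t)))
      (fun x' hx' => IntB_ii ht hF hP hP0 hx hx')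
    exact this.congr (fun t _ => by simp)

private theorem IntB_large {a1 a2 c0 C1 C2 : ℝ} (h1 : 0 < a1) (h2 : 0 < a2) :
    ∃ P0 : ℝ, ∀ P ≥ P0, c0 * (C1 * P ^ (-a1) + C2 * P ^ (-a2)) ≤ 1 := by
  have t1 := (tendsto_rpow_neg_atTop h1).const_mul C1
  have t2 := (tendsto_rpow_neg_atTop h2).const_mul C2
  have t3 := (t1.add t2).const_mul c0
  simp only [mul_zero, add_zero] at t3
  have := t3.eventually (eventually_le_nhds (show (0 : ℝ) < 1 by norm_num))
  obtain ⟨P0, hP0⟩ := eventually_atTop.1 this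
  exact ⟨P0, fun P hP => hP0 P hP⟩

theorem int_bound {s : ℕ} {p q σ b l η t1 t2 Λ ε K P1 : ℝ} {c lam : ℝ → ℝ}
    (h : Par s p q σ b l η) (ht : t1 < t2) (ht1 : t2 ≤ t1 + 1) (hε : 0 < ε)
    (hF : Fam s p q σ b l t1 t2 Λ ε K P1 c lam) :
    ∃ P0 : ℝ, 1 ≤ P0 ∧ ∀ P ≥ P0,
      ∫ t in t1..t2, om t1 t2 t * GG s σ b q l ε P (c t) (lam t) ≤ P ^ (-η) := by
  have hσ := h.hσ
  have hσ1 : σ < 1 := h.hσb.trans h.hb
  have hb0 : 0 < b := hσ.trans h.hσb
  have hp := h.hp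
  have hq1 : 1 < q := lt_of_lt_of_le hp h.hpq
  have hl : 0 < l := by linarith [h.hl1]
  have hK := hF.hK
  obtain ⟨A, hA⟩ : ∃ A : ℝ, A = (1 - σ ^ s) / (1 - σ) := ⟨_, rfl⟩
  obtain ⟨B, hB⟩ : ∃ B : ℝ, B = (p - 1) * σ ^ s / σ := ⟨_, rfl⟩
  have hBpos : 0 < B := by
    rw [hB]
    have : 0 < p - 1 := by linarith
    positivity
  have he1 : q + η < (1 + b) * A := by rw [hA]; exact h.e1
  have he2 : q + (q - p) + l + η < (1 + b) * (A + B) := by rw [hA, hB]; exact h.e2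
  obtain ⟨δ, hδ⟩ : ∃ δ : ℝ, δ = min (b * B) (((1 + b) * (A + B) - (q + (q - p) + l + η)) / 4) :=
    ⟨_, rfl⟩
  have hδ0 : 0 < δ := by
    rw [hδ]
    apply lt_min
    · positivity
    · linarith
  have hδ1 : δ ≤ b * B := by rw [hδ]; exact min_le_left _ _
  have hδ2 : δ ≤ ((1 + b) * (A + B) - (q + (q - p) + l + η)) / 4 := by
    rw [hδ]; exact min_le_right _ _
  have hbB : b * B ≤ B := by nlinarith [h.hb]
  obtain ⟨Pa, hPa1, hPa⟩ := sumK s hσ hp h.gap 1 one_pos le_rfl δ hδ0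
  obtain ⟨Pb, hPb1, hPb⟩ := sumK s hσ hp h.gap b hb0 h.hb.le δ hδ0
  obtain ⟨c0, hc0⟩ : ∃ c0 : ℝ, c0 = 8 * q ^ 2 * 16 ^ (2 * q) := ⟨_, rfl⟩
  have hc0pos : 0 < c0 := by
    rw [hc0]
    have : (0 : ℝ) < 16 ^ (2 * q) := Real.rpow_pos_of_pos (by norm_num) _
    positivity
  have ha1 : 0 < (1 + b) * A - q - η := by linarith
  have ha2 : 0 < (1 + b) * (A + B) - (q + (q - p) + l + η) - 2 * δ := by linarith
  obtain ⟨Pc, hPc⟩ := IntB_large (c0 := c0) (C1 := 2 / ε + 2 * K) (C2 := K) ha1 ha2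
  have hev := (tendsto_rpow_atTop hl).eventually (eventually_ge_atTop ε)
  obtain ⟨Pd, hPd⟩ := eventually_atTop.1 hev
  refine ⟨max (max P1 (max Pa Pb)) (max Pc Pd), ?_, ?_⟩
  · exact le_trans hPa1 (le_trans (le_trans (le_max_left _ _) (le_max_right _ _)) (le_max_left _ _))
  intro P hP
  have hP1 : P1 ≤ P := le_trans (le_trans (le_max_left _ _) (le_max_left _ _)) hP
  have hPa' : Pa ≤ P :=
    le_trans (le_trans (le_trans (le_max_left _ _) (le_max_right _ _)) (le_max_left _ _)) hP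
  have hPb' : Pb ≤ P :=
    le_trans (le_trans (le_trans (le_max_right _ _) (le_max_right _ _)) (le_max_left _ _)) hP
  have hPc' : Pc ≤ P := le_trans (le_trans (le_max_left _ _) (le_max_right _ _)) hP
  have hPd' : Pd ≤ P := le_trans (le_trans (le_max_right _ _) (le_max_right _ _)) hP
  have hP01 : 1 ≤ P := hPa1.trans hPa'
  have hPpos : 0 < P := by linarith
  have hPε : ε ≤ P ^ l := hPd P hPd'
  have hsA := hPa P hPa'
  have hsB := hPb P hPb'
  have hlast := hPc P hPc'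
  rw [IntB_int ht hF hP1 hP01]
  -- bound of the double sum
  have hav := avg (U s σ 1 P) (U s σ b P)
    (fun x x' => ∫ t in t1..t2, om t1 t2 t *
        kap ε (P ^ l) (val x (c t) (lam t) - val x' (c t) (lam t)))
    (fun u u' => 1 / |S u p - S u' p|) (fun v v' => 1 / |S v p - S v' p|)
    (D := 2 / ε) (C := K) (M := K * P ^ (q - p) * P ^ l)
    (K1 := P ^ (δ - 1 * (p - 1) * σ ^ s / σ)) (K2 := P ^ (δ - b * (p - 1) * σ ^ s / σ))
    hK (by positivity) (by positivity) (fun u u' => by positivity) (fun v v' => by positivity)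
    (fun u _ v _ => triv ht ht1 ε (P ^ l) _ (fun t _ => kap_le hε hPε _))
    (fun u hu u' hu' v hv hne => hF.one P hP1 u hu u' hu' v hv hne)
    (fun u hu v hv v' hv' hne => hF.two P hP1 u hu v hv v' hv' hne)
    (fun u hu u' hu' v hv v' hv' hne hne' => hF.three P hP1 u hu u' hu' v hv v' hv' hne hne')
    hsA hsB
  have hk1 : P ^ (δ - 1 * (p - 1) * σ ^ s / σ) = P ^ (δ - B) := by
    congr 1
    rw [hB]; ring
  have hk2 : P ^ (δ - b * (p - 1) * σ ^ s / σ) = P ^ (δ - b * B) := by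
    congr 1
    rw [hB]; ring
  rw [hk1, hk2] at hav
  have hk1' : P ^ (δ - B) ≤ 1 := Real.rpow_le_one_of_one_le_of_nonpos hP01 (by linarith)
  have hk2' : P ^ (δ - b * B) ≤ 1 := Real.rpow_le_one_of_one_le_of_nonpos hP01 (by linarith)
  -- cardinality
  obtain ⟨N, hN⟩ : ∃ N : ℝ, N = ((U s σ 1 P).card : ℝ) * (U s σ b P).card := ⟨_, rfl⟩
  have hcard : ((XX s σ b P).card : ℝ) = N := by
    rw [hN]; unfold XX
    rw [Finset.card_product]; push_cast; ring
  have hNge : P ^ ((1 + b) * A) ≤ N := by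
    have h1 := U_card_ge s (b := 1) hσ hσ1 zero_le_one hP01
    have h2 := U_card_ge s (b := b) hσ hσ1 hb0.le hP01
    rw [← hA] at h1 h2
    rw [hN, show (1 + b) * A = 1 * A + b * A by ring, Real.rpow_add hPpos]
    exact mul_le_mul h1 h2 (by positivity) (by positivity)
  have hNpos : 0 < N := lt_of_lt_of_le (Real.rpow_pos_of_pos hPpos _) hNge
  have hthr : thr s σ b q P = N ^ 2 / (c0 * P ^ q) := by
    unfold thr; rw [hcard, hc0]
  have hPq : 0 < P ^ q := Real.rpow_pos_of_pos hPpos _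
  have hthrpos : 0 < thr s σ b q P := by rw [hthr]; positivity
  obtain ⟨Q, hQ⟩ : ∃ Q : ℝ, Q = (2 / ε + 2 * K) +
      K * P ^ (q - p + l + 2 * δ - (1 + b) * B) := ⟨_, rfl⟩
  have hsum : ∑ x ∈ XX s σ b P, ∑ x' ∈ XX s σ b P, ∫ t in t1..t2, om t1 t2 t *
        kap ε (P ^ l) (val x (c t) (lam t) - val x' (c t) (lam t)) ≤ N * Q := by
    refine le_trans (Finset.sum_le_sum fun x _ => Finset.sum_le_sum fun x' _ =>
      le_abs_self _) ?_
    refine le_trans hav ?_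
    rw [← hN]
    apply mul_le_mul_of_nonneg_left _ hNpos.le
    have e1 : K * P ^ (q - p) * P ^ l * (P ^ (δ - B) * P ^ (δ - b * B)) =
        K * P ^ (q - p + l + 2 * δ - (1 + b) * B) := by
      rw [show q - p + l + 2 * δ - (1 + b) * B = (q - p) + l + ((δ - B) + (δ - b * B)) by ring,
        Real.rpow_add hPpos, Real.rpow_add hPpos, Real.rpow_add hPpos]
      ring
    rw [e1, hQ]
    have e2 : K * P ^ (δ - B) ≤ K := mul_le_of_le_one_right hK hk1'
    have e3 : K * P ^ (δ - b * B) ≤ K := mul_le_of_le_one_right hK hk2'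
    linarith
  have hQ0 : 0 ≤ Q := by
    rw [hQ]; positivity
  have step1 : (∑ x ∈ XX s σ b P, ∑ x' ∈ XX s σ b P, ∫ t in t1..t2, om t1 t2 t *
        kap ε (P ^ l) (val x (c t) (lam t) - val x' (c t) (lam t))) / thr s σ b q P ≤
      c0 * P ^ q * Q / N := by
    rw [div_le_div_iff₀ hthrpos hNpos]
    calc _ ≤ N * Q * N := by gcongr
      _ = c0 * P ^ q * Q * thr s σ b q P := by
        rw [hthr]; field_simp
  refine le_trans step1 ?_
  have step2 : c0 * P ^ q * Q / N ≤ c0 * P ^ q * Q / P ^ ((1 + b) * A) := by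
    gcongr
  refine le_trans step2 ?_
  have e4 : c0 * P ^ q * Q / P ^ ((1 + b) * A) =
      P ^ (-η) * (c0 * ((2 / ε + 2 * K) * P ^ (-((1 + b) * A - q - η)) +
        K * P ^ (-((1 + b) * (A + B) - (q + (q - p) + l + η) - 2 * δ)))) := by
    rw [hQ]
    have f1 : P ^ (-η) * P ^ (-((1 + b) * A - q - η)) = P ^ q / P ^ ((1 + b) * A) := by
      rw [← Real.rpow_add hPpos, ← Real.rpow_sub hPpos]
      congr 1; ring
    have f2 : P ^ (-η) * P ^ (-((1 + b) * (A + B) - (q + (q - p) + l + η) - 2 * δ)) =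
        P ^ q * P ^ (q - p + l + 2 * δ - (1 + b) * B) / P ^ ((1 + b) * A) := by
      rw [← Real.rpow_add hPpos, ← Real.rpow_add hPpos, ← Real.rpow_sub hPpos]
      congr 1; ring
    calc c0 * P ^ q * (2 / ε + 2 * K + K * P ^ (q - p + l + 2 * δ - (1 + b) * B)) /
          P ^ ((1 + b) * A) =
        c0 * ((2 / ε + 2 * K) * (P ^ q / P ^ ((1 + b) * A)) +
          K * (P ^ q * P ^ (q - p + l + 2 * δ - (1 + b) * B) / P ^ ((1 + b) * A))) := by ring
      _ = _ := by rw [← f1, ← f2]; ring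
  rw [e4]
  exact mul_le_of_le_one_right (by positivity) hlast

end Pool.Agent.Lib.MP_570bef_ntRE
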