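import Mathlib
import Pool.Agent.Lib.MP_570bef_ntRE.Fam
import Pool.Agent.Lib.MP_570bef_ntRE.Kap
import Pool.Agent.Lib.MP_570bef_ntRE.Blk

/-!
# JOB LipG: the normalised energy is Lipschitz (about 60 lines)

`|kap x - kap y| ≤ 8/ε^2 |x - y|` (`kap_lip`; `ε ≤ P^l` for large `P`, `l > q - 1 > 0`), the differences `val x - val x'` change by at most `2 P^(q+2) |t - t'|` (`Fam.lip`), so `|En t - En t'| ≤ card XX^2 * 16/ε^2 * P^(q+2) |t - t'|`; divide by `thr` (`card XX > 0`): `≤ 8 q^2 16^(2q) * 16/ε^2 * P^(2q+2) |t - t'| ≤ P^(2q+3) |t - t'|` for large `P`.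
-/

namespace Pool.Agent.Lib.MP_570bef_ntRE

private theorem lipG_en {ι : Type*} {ε L : ℝ} (hε : 0 < ε) (hL : ε ≤ L) (X : Finset ι)
    (v v' : ι → ℝ) {D : ℝ} (h : ∀ x ∈ X, |v x - v' x| ≤ D) :
    |En ε L X v - En ε L X v'| ≤ (X.card : ℝ) ^ 2 * (16 / ε ^ 2 * D) := by
  unfold En
  rw [← Finset.sum_sub_distrib]
  have h8 : (0 : ℝ) ≤ 8 / ε ^ 2 := by positivity
  have h1 : ∀ x ∈ X, |∑ x' ∈ X, kap ε L (v x - v x') - ∑ x' ∈ X, kap ε L (v' x - v' x')| ≤
      (X.card : ℝ) * (16 / ε ^ 2 * D) := by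
    intro x hx
    rw [← Finset.sum_sub_distrib]
    refine (Finset.abs_sum_le_sum_abs _ _).trans ?_
    have h2 : ∑ x' ∈ X, |kap ε L (v x - v x') - kap ε L (v' x - v' x')| ≤
        ∑ _x' ∈ X, (16 / ε ^ 2 * D) := by
      refine Finset.sum_le_sum fun x' hx' => ?_
      refine (kap_lip hε hL _ _).trans ?_
      have h3 : |v x - v x' - (v' x - v' x')| ≤ 2 * D := by
        have h4 : v x - v x' - (v' x - v' x') = (v x - v' x) - (v x' - v' x') := by ring
        rw [h4]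
        have h5 := abs_sub (v x - v' x) (v x' - v' x')
        have h6 := h x hx
        have h7 := h x' hx'
        linarith
      refine (mul_le_mul_of_nonneg_left h3 h8).trans (le_of_eq ?_)
      ring
    rw [Finset.sum_const, nsmul_eq_mul] at h2
    exact h2
  refine (Finset.abs_sum_le_sum_abs _ _).trans ((Finset.sum_le_sum h1).trans ?_)
  rw [Finset.sum_const, nsmul_eq_mul]
  exact le_of_eq (by ring)

theorem lip_G {s : ℕ} {p q σ b l η t1 t2 Λ ε K P1 : ℝ} {c lam : ℝ → ℝ}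
    (h : Par s p q σ b l η) (hε : 0 < ε) (hF : Fam s p q σ b l t1 t2 Λ ε K P1 c lam) :
    ∃ P0 : ℝ, 1 ≤ P0 ∧ ∀ P ≥ P0, ∀ t ∈ Set.Icc t1 t2, ∀ t' ∈ Set.Icc t1 t2,
      |GG s σ b q l ε P (c t) (lam t) - GG s σ b q l ε P (c t') (lam t')| ≤
        P ^ (2 * q + 3) * |t - t'| := by
  have hq1 : 1 < q := lt_of_lt_of_le h.hp h.hpq
  have hl : 0 < l := by
    have := h.hl1
    linarith
  have hq0 : 0 < q := by linarith
  refine ⟨max 1 (max P1 (max (ε ^ l⁻¹) (128 * q ^ 2 * 16 ^ (2 * q) / ε ^ 2))), le_max_left _ _, ?_⟩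
  intro P hP t ht t' ht'
  have hP1 : 1 ≤ P := (le_max_left _ _).trans hP
  have hP2 : max P1 (max (ε ^ l⁻¹) (128 * q ^ 2 * 16 ^ (2 * q) / ε ^ 2)) ≤ P :=
    (le_max_right _ _).trans hP
  have hP3 : P1 ≤ P := (le_max_left _ _).trans hP2
  have hP4 : max (ε ^ l⁻¹) (128 * q ^ 2 * 16 ^ (2 * q) / ε ^ 2) ≤ P := (le_max_right _ _).trans hP2
  have hP5 : ε ^ l⁻¹ ≤ P := (le_max_left _ _).trans hP4
  have hP6 : 128 * q ^ 2 * 16 ^ (2 * q) / ε ^ 2 ≤ P := (le_max_right _ _).trans hP4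
  have hP0 : 0 < P := by linarith
  have hεl : ε ≤ P ^ l := by
    have h1 := Real.rpow_le_rpow (by positivity) hP5 hl.le
    rwa [Real.rpow_inv_rpow hε.le hl.ne'] at h1
  have hen := lipG_en hε hεl (XX s σ b P) (fun x => val x (c t) (lam t))
    (fun x => val x (c t') (lam t')) (D := P ^ (q + 2) * |t - t'|)
    (fun x hx => hF.lip P hP3 x hx t ht t' ht')
  have hthr : 0 ≤ thr s σ b q P := by
    unfold thr
    positivity
  have hRn : 0 ≤ P ^ (2 * q + 3) * |t - t'| := by positivity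
  unfold GG
  rw [← sub_div, abs_div, abs_of_nonneg hthr]
  by_cases hc0 : (XX s σ b P).card = 0
  · rw [hc0] at hen
    have h1 : |En ε (P ^ l) (XX s σ b P) (fun x => val x (c t) (lam t)) -
        En ε (P ^ l) (XX s σ b P) (fun x => val x (c t') (lam t'))| = 0 := by
      refine le_antisymm ?_ (abs_nonneg _)
      refine hen.trans (le_of_eq ?_)
      norm_num
    rw [h1, zero_div]
    exact hRn
  · have hc1 : (0 : ℝ) < ((XX s σ b P).card : ℝ) ^ 2 := by
      have : (0 : ℝ) < ((XX s σ b P).card : ℝ) := by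
        exact_mod_cast Nat.pos_of_ne_zero hc0
      positivity
    have hPq : 0 < P ^ q := by positivity
    have h16 : (0 : ℝ) < 16 ^ (2 * q) := by positivity
    have hthr' : 0 < thr s σ b q P := by
      unfold thr
      positivity
    rw [div_le_iff₀ hthr']
    refine hen.trans ?_
    have h2 : thr s σ b q P * (8 * q ^ 2 * 16 ^ (2 * q) * P ^ q) =
        ((XX s σ b P).card : ℝ) ^ 2 := by
      unfold thr
      field_simp
    have h3 : P ^ (2 * q + 3) = P * (P ^ q * P ^ (q + 2)) := by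
      rw [← Real.rpow_add hP0]
      nth_rewrite 2 [← Real.rpow_one P]
      rw [← Real.rpow_add hP0]
      congr 1
      ring
    have h4 : 16 / ε ^ 2 * (8 * q ^ 2 * 16 ^ (2 * q)) ≤ P := by
      refine le_trans (le_of_eq ?_) hP6
      ring
    rw [← h2, h3]
    have h5 : thr s σ b q P * (8 * q ^ 2 * 16 ^ (2 * q) * P ^ q) *
        (16 / ε ^ 2 * (P ^ (q + 2) * |t - t'|)) =
        (16 / ε ^ 2 * (8 * q ^ 2 * 16 ^ (2 * q))) *
          (P ^ q * P ^ (q + 2) * |t - t'| * thr s σ b q P) := by ring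
    have h6 : P * (P ^ q * P ^ (q + 2)) * |t - t'| * thr s σ b q P =
        P * (P ^ q * P ^ (q + 2) * |t - t'| * thr s σ b q P) := by ring
    rw [h5, h6]
    refine mul_le_mul_of_nonneg_right h4 ?_
    have h7 : 0 < P ^ (q + 2) := by positivity
    have h8 := abs_nonneg (t - t')
    positivity

end Pool.Agent.Lib.MP_570bef_ntRE
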